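import Pool.Agent.Q181.GP.Main

set_option autoImplicit false
set_option linter.unusedSectionVars false

/-! Isometries of hyperbolic forms: definitions and the structural peeling lemma. -/

namespace Pool.Agent.Q181.GP

open Matrix LatRing

variable {S : Type} [Ring S] [StarRing S] [LatRing S] {m : Type} [Fintype m] [DecidableEq m]

/-- the involution of the index set -/
def sg : m ⊕ m → m ⊕ m
  | Sum.inl a => Sum.inr a
  | Sum.inr a => Sum.inl a

theorem sg_sg (i : m ⊕ m) : sg (sg i) = i := by rcases i with i | i <;> rfl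

theorem sg_ne (i : m ⊕ m) : sg i ≠ i := by rcases i with i | i <;> simp [sg]

theorem sg_inj {i j : m ⊕ m} (h : sg i = sg j) : i = j := by rw [← sg_sg i, h, sg_sg]

theorem sg_eq_iff {i j : m ⊕ m} : sg i = j ↔ i = sg j :=
  ⟨fun h => by rw [← h, sg_sg], fun h => by rw [h, sg_sg]⟩

/-- the signs -/
def sn (ε : ℤ) : m ⊕ m → ℤ
  | Sum.inl _ => 1
  | Sum.inr _ => ε

theorem sn_sq {ε : ℤ} (hε : ε = 1 ∨ ε = -1) (a : m ⊕ m) : sn ε a * sn ε a = 1 := by
  rcases a with a | a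
  · rfl
  · exact sq_eps hε

theorem sn_or {ε : ℤ} (hε : ε = 1 ∨ ε = -1) (a : m ⊕ m) : sn ε a = 1 ∨ sn ε a = -1 := by
  rcases a with a | a
  · exact Or.inl rfl
  · exact hε

theorem snn_or {ε : ℤ} (hε : ε = 1 ∨ ε = -1) (a b : m ⊕ m) :
    sn ε a * sn ε b = 1 ∨ sn ε a * sn ε b = -1 := by
  rcases sn_or hε a with h | h <;> rcases sn_or hε b with h' | h' <;> rw [h, h'] <;> norm_num

variable (S m) in
/-- the matrix of the hyperbolic quadratic form -/
def hy : Matrix (m ⊕ m) (m ⊕ m) S := fromBlocks 0 1 0 0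

variable (S m) in
/-- the associated sesquilinear form -/
def jj (ε : ℤ) : Matrix (m ⊕ m) (m ⊕ m) S := hy S m + ε • (hy S m)ᴴ

/-- isometries of the hyperbolic quadratic form -/
def QI (ε : ℤ) (A : Matrix (m ⊕ m) (m ⊕ m) S) : Prop :=
  ∃ χ : Matrix (m ⊕ m) (m ⊕ m) S, A * hy S m * Aᴴ = hy S m + (χ - ε • χᴴ)

theorem QI.one (ε : ℤ) : QI ε (1 : Matrix (m ⊕ m) (m ⊕ m) S) :=
  ⟨0, by rw [one_mul, conjTranspose_one, mul_one, conjTranspose_zero, smul_zero, sub_zero,
    add_zero]⟩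

theorem QI.mul {ε : ℤ} {x y : Matrix (m ⊕ m) (m ⊕ m) S} (hx : QI ε x) (hy' : QI ε y) :
    QI ε (x * y) := by
  obtain ⟨χ, h1⟩ := hx
  obtain ⟨ψ, h2⟩ := hy'
  refine ⟨χ + x * ψ * xᴴ, ?_⟩
  have h3 : x * y * hy S m * (x * y)ᴴ = x * (y * hy S m * yᴴ) * xᴴ := by
    rw [conjTranspose_mul]; simp only [mul_assoc]
  rw [h3, h2, mul_add, add_mul, h1, conjTranspose_add, conjTranspose_mul, conjTranspose_mul,
    conjTranspose_conjTranspose, mul_sub, sub_mul, mul_smul_comm, smul_mul_assoc, smul_add,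
    mul_assoc x ψᴴ]
  abel

theorem QI.inv {ε : ℤ} {A B : Matrix (m ⊕ m) (m ⊕ m) S} (h2 : B * A = 1)
    (hA : QI ε A) : QI ε B := by
  obtain ⟨χ, h1⟩ := hA
  refine ⟨-(B * χ * Bᴴ), ?_⟩
  have hs : Aᴴ * Bᴴ = 1 := by rw [← conjTranspose_mul, h2, conjTranspose_one]
  have h3 : hy S m = A * hy S m * Aᴴ - (χ - ε • χᴴ) := by rw [h1]; abel
  have h4 : B * (A * hy S m * Aᴴ) * Bᴴ = hy S m := by
    calc _ = (B * A) * hy S m * (Aᴴ * Bᴴ) := by simp only [mul_assoc]
      _ = _ := by rw [h2, hs, one_mul, mul_one]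
  conv_lhs => rw [h3]
  rw [mul_sub, sub_mul, h4, conjTranspose_neg, conjTranspose_mul, conjTranspose_mul,
    conjTranspose_conjTranspose, mul_sub, sub_mul, mul_smul_comm, smul_mul_assoc, smul_neg,
    mul_assoc B χᴴ]
  abel

theorem hy_apply (i j : m ⊕ m) : hy S m i j =
    if (∃ a, i = Sum.inl a ∧ j = Sum.inr a) then 1 else 0 := by
  rcases i with i | i <;> rcases j with j | j
  · simp [hy]
  · simp only [hy, Matrix.fromBlocks_apply₁₂, Matrix.one_apply]
    by_cases h : i = j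
    · subst h; simp
    · rw [if_neg h, if_neg]
      rintro ⟨a, h1, h2⟩
      exact h ((Sum.inl.inj h1).trans (Sum.inr.inj h2).symm)
  · simp [hy]
  · simp [hy]

theorem q_apply (A : Matrix (m ⊕ m) (m ⊕ m) S) (i j : m ⊕ m) :
    (A * hy S m * Aᴴ) i j = ∑ a, A i (Sum.inl a) * star (A j (Sum.inr a)) := by
  have h1 : ∀ a, (A * hy S m) i (Sum.inl a) = 0 := by
    intro a
    rw [Matrix.mul_apply, Fintype.sum_sum_type]
    simp [hy]
  have h2 : ∀ a, (A * hy S m) i (Sum.inr a) = A i (Sum.inl a) := by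
    intro a
    rw [Matrix.mul_apply, Fintype.sum_sum_type]
    simp [hy, Matrix.one_apply]
  rw [Matrix.mul_apply, Fintype.sum_sum_type]
  simp only [h1, h2, zero_mul, Finset.sum_const_zero, zero_add, conjTranspose_apply]

theorem jj_eq (ε : ℤ) : jj S m ε = fromBlocks 0 1 (ε • 1) 0 := by
  rw [jj, hy, fromBlocks_conjTranspose, conjTranspose_zero, conjTranspose_one,
    Matrix.fromBlocks_smul, Matrix.fromBlocks_add]
  simp

theorem jj_mul (ε : ℤ) (M : Matrix (m ⊕ m) (m ⊕ m) S) (i j : m ⊕ m) :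
    (jj S m ε * M) i j = sn ε i • M (sg i) j := by
  rw [jj_eq, Matrix.mul_apply, Fintype.sum_sum_type]
  rcases i with i | i
  · simp [Matrix.one_apply, sg, sn]
  · simp only [Matrix.fromBlocks_apply₂₁, Matrix.fromBlocks_apply₂₂, Matrix.smul_apply,
      Matrix.one_apply, Matrix.zero_apply, zero_mul, Finset.sum_const_zero, add_zero,
      smul_mul_assoc, ← Finset.smul_sum, ite_mul, one_mul, Finset.sum_ite_eq, Finset.mem_univ,
      if_true, sg, sn]

theorem mul_jj (ε : ℤ) (M : Matrix (m ⊕ m) (m ⊕ m) S) (i j : m ⊕ m) :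
    (M * jj S m ε) i j = sn ε (sg j) • M i (sg j) := by
  rw [jj_eq, Matrix.mul_apply, Fintype.sum_sum_type]
  rcases j with j | j
  · simp only [Matrix.fromBlocks_apply₂₁, Matrix.fromBlocks_apply₁₁, Matrix.smul_apply,
      Matrix.one_apply, Matrix.zero_apply, mul_zero, Finset.sum_const_zero, zero_add,
      mul_smul_comm, ← Finset.smul_sum, mul_ite, mul_one, Finset.sum_ite_eq', Finset.mem_univ,
      if_true, sg, sn]
  · simp [Matrix.one_apply, sg, sn]

theorem sn_sg {ε : ℤ} (hε : ε = 1 ∨ ε = -1) (a : m ⊕ m) : sn ε (sg a) = ε * sn ε a := by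
  rcases a with a | a
  · change ε = ε * 1; rw [mul_one]
  · change 1 = ε * ε; rw [sq_eps hε]

theorem QI.herm {ε : ℤ} (hε : ε = 1 ∨ ε = -1) {A : Matrix (m ⊕ m) (m ⊕ m) S} (hA : QI ε A) :
    A * jj S m ε * Aᴴ = jj S m ε := by
  obtain ⟨χ, h1⟩ := hA
  have h2 : A * (hy S m)ᴴ * Aᴴ = (hy S m + (χ - ε • χᴴ))ᴴ := by
    rw [← h1, conjTranspose_mul, conjTranspose_mul, conjTranspose_conjTranspose, mul_assoc]
  rw [jj, mul_add, add_mul, h1, mul_smul_comm, smul_mul_assoc, h2, conjTranspose_add,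
    conjTranspose_sub, conj_zsmul, conjTranspose_conjTranspose, smul_add, smul_sub, smul_smul,
    sq_eps hε, one_smul]
  abel

/-- An isometry of the hyperbolic quadratic form with its inverse. -/
structure Uni (ε : ℤ) (A B : Matrix (m ⊕ m) (m ⊕ m) S) : Prop where
  h1 : A * B = 1
  h2 : B * A = 1
  qi : QI ε A

theorem Uni.symm {ε : ℤ} {A B : Matrix (m ⊕ m) (m ⊕ m) S} (h : Uni ε A B) : Uni ε B A :=
  ⟨h.h2, h.h1, h.qi.inv h.h2⟩

theorem Uni.mul {ε : ℤ} {A B A' B' : Matrix (m ⊕ m) (m ⊕ m) S} (h : Uni ε A B)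
    (h' : Uni ε A' B') : Uni ε (A * A') (B' * B) := by
  refine ⟨?_, ?_, h.qi.mul h'.qi⟩
  · rw [mul_assoc, ← mul_assoc A', h'.h1, one_mul, h.h1]
  · rw [mul_assoc, ← mul_assoc B, h.h2, one_mul, h'.h2]

theorem Uni.inv_apply {ε : ℤ} (hε : ε = 1 ∨ ε = -1) {A B : Matrix (m ⊕ m) (m ⊕ m) S}
    (h : Uni ε A B) (a b : m ⊕ m) :
    B a b = (sn ε a * sn ε b) • star (A (sg b) (sg a)) := by
  have h1 := h.qi.herm hε
  have h2 : B * jj S m ε = jj S m ε * Aᴴ := by
    conv_lhs => rw [← h1]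
    rw [← mul_assoc, ← mul_assoc, h.h2, one_mul]
  have h3 := congrFun (congrFun h2 a) (sg b)
  rw [mul_jj, jj_mul, sg_sg, conjTranspose_apply] at h3
  have h4 := congrArg (fun y => sn ε b • y) h3
  simp only [smul_smul, sn_sq hε, one_smul] at h4
  rw [h4, mul_comm]

theorem Uni.q {ε : ℤ} {A B : Matrix (m ⊕ m) (m ⊕ m) S} (h : Uni ε A B) (i : m ⊕ m) :
    ∃ z, ∑ a, A i (Sum.inl a) * star (A i (Sum.inr a)) = z - ε • star z := by
  obtain ⟨χ, h1⟩ := h.qi
  refine ⟨χ i i, ?_⟩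
  have h2 := congrFun (congrFun h1 i) i
  rw [q_apply] at h2
  rw [h2, Matrix.add_apply, Matrix.sub_apply, Matrix.smul_apply, conjTranspose_apply, hy_apply,
    if_neg, zero_add]
  rintro ⟨a, h3, h4⟩
  rw [h3] at h4
  exact absurd h4 (by simp)

/-- the short root elements -/
def shortM (ε : ℤ) (a i : m ⊕ m) (c : S) : Matrix (m ⊕ m) (m ⊕ m) S :=
  1 - Matrix.single a i c + Matrix.single (sg i) (sg a) ((sn ε a * sn ε i) • star c)

/-- the long root elements -/
def longM (ε : ℤ) (i : m ⊕ m) (z : S) : Matrix (m ⊕ m) (m ⊕ m) S :=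
  1 + Matrix.single (sg i) i (z - ε • star z)

variable (S m) in
/-- The group generated by the elementary isometries and the isometries with one entry of norm one
in each row. -/
def RU (ε : ℤ) : Subgroup (Matrix (m ⊕ m) (m ⊕ m) S)ˣ := Subgroup.closure
  {x | (∃ i j c, i ≠ j ∧ x.val = fromBlocks (1 + Matrix.single i j c) 0 0
      (1 - Matrix.single j i (star c))) ∨
    (∃ Z : Matrix m m S, x.val = fromBlocks 1 (Z - ε • Zᴴ) 0 1) ∨
    (∃ Z : Matrix m m S, x.val = fromBlocks 1 0 (Z - ε • Zᴴ) 1) ∨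
    (QI ε x.val ∧ ∀ a, NN (x.val a) = 1)}

theorem QI_diag (ε : ℤ) (P Q : Matrix m m S) (h : P * Qᴴ = 1) :
    QI ε (fromBlocks P 0 0 Q) := by
  refine ⟨0, ?_⟩
  rw [hy, fromBlocks_conjTranspose, fromBlocks_multiply, fromBlocks_multiply,
    conjTranspose_zero, conjTranspose_zero, smul_zero, sub_zero, add_zero]
  simp [h]

theorem QI_low {ε : ℤ} (Z : Matrix m m S) : QI ε (fromBlocks 1 0 (Z - ε • Zᴴ) 1) := by
  refine ⟨fromBlocks 0 0 0 Z, ?_⟩
  rw [hy, fromBlocks_conjTranspose, fromBlocks_multiply, fromBlocks_multiply,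
    fromBlocks_conjTranspose, Matrix.fromBlocks_smul, sub_eq_add_neg (fromBlocks 0 0 0 Z),
    Matrix.fromBlocks_neg, Matrix.fromBlocks_add, Matrix.fromBlocks_add]
  simp [sub_eq_add_neg]

theorem QI_up {ε : ℤ} (hε : ε = 1 ∨ ε = -1) (Z : Matrix m m S) :
    QI ε (fromBlocks 1 (Z - ε • Zᴴ) 0 1) := by
  refine ⟨fromBlocks Zᴴ 0 0 0, ?_⟩
  rw [hy, fromBlocks_conjTranspose, fromBlocks_multiply, fromBlocks_multiply,
    fromBlocks_conjTranspose, Matrix.fromBlocks_smul, sub_eq_add_neg (fromBlocks Zᴴ 0 0 0),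
    Matrix.fromBlocks_neg, Matrix.fromBlocks_add, Matrix.fromBlocks_add]
  rw [conjTranspose_sub, conj_zsmul, conjTranspose_conjTranspose]
  simp [sub_eq_add_neg]

theorem diag_unit (i j : m) (hij : i ≠ j) (c : S) :
    (1 + Matrix.single i j c) * (1 - Matrix.single j i (star c))ᴴ = 1 := by
  rw [conjTranspose_sub, conjTranspose_one, Matrix.conjTranspose_single, star_star, mul_sub,
    mul_one, add_mul, one_mul, Matrix.single_mul_single_of_ne _ _ _ _ (Ne.symm hij)]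
  abel

theorem RU_QI {ε : ℤ} (hε : ε = 1 ∨ ε = -1) {V : (Matrix (m ⊕ m) (m ⊕ m) S)ˣ}
    (hV : V ∈ RU S m ε) : QI ε V.val := by
  refine Subgroup.closure_induction (p := fun x _ => QI ε x.val) ?_ ?_ ?_ ?_ hV
  · rintro x (⟨i, j, c, hij, hx⟩ | ⟨Z, hx⟩ | ⟨Z, hx⟩ | ⟨hx, _⟩)
    · rw [hx]; exact QI_diag ε _ _ (diag_unit i j hij c)
    · rw [hx]; exact QI_up hε Z
    · rw [hx]; exact QI_low Z
    · exact hx
  · exact QI.one ε
  · intro x y _ _ hx hy; exact hx.mul hy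
  · intro x _ hx; exact hx.inv x.inv_mul

theorem RU_Uni {ε : ℤ} (hε : ε = 1 ∨ ε = -1) {V : (Matrix (m ⊕ m) (m ⊕ m) S)ˣ}
    (hV : V ∈ RU S m ε) : Uni ε V.val V⁻¹.val := ⟨V.mul_inv, V.inv_mul, RU_QI hε hV⟩

theorem single_inl_inl (i j : m) (c : S) :
    (Matrix.single (Sum.inl i) (Sum.inl j) c : Matrix (m ⊕ m) (m ⊕ m) S)
      = fromBlocks (Matrix.single i j c) 0 0 0 := by
  ext a b
  rcases a with a | a <;> rcases b with b | b <;> simp [Matrix.single_apply]

theorem single_inl_inr (i j : m) (c : S) :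
    (Matrix.single (Sum.inl i) (Sum.inr j) c : Matrix (m ⊕ m) (m ⊕ m) S)
      = fromBlocks 0 (Matrix.single i j c) 0 0 := by
  ext a b
  rcases a with a | a <;> rcases b with b | b <;> simp [Matrix.single_apply]

theorem single_inr_inl (i j : m) (c : S) :
    (Matrix.single (Sum.inr i) (Sum.inl j) c : Matrix (m ⊕ m) (m ⊕ m) S)
      = fromBlocks 0 0 (Matrix.single i j c) 0 := by
  ext a b
  rcases a with a | a <;> rcases b with b | b <;> simp [Matrix.single_apply]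

theorem single_inr_inr (i j : m) (c : S) :
    (Matrix.single (Sum.inr i) (Sum.inr j) c : Matrix (m ⊕ m) (m ⊕ m) S)
      = fromBlocks 0 0 0 (Matrix.single i j c) := by
  ext a b
  rcases a with a | a <;> rcases b with b | b <;> simp [Matrix.single_apply]

/-- a unit with a given matrix of the form `1 + N`, `N * N = 0` -/
def uniU (X Y : Matrix (m ⊕ m) (m ⊕ m) S) (h1 : X * Y = 1) (h2 : Y * X = 1) :
    (Matrix (m ⊕ m) (m ⊕ m) S)ˣ := ⟨X, Y, h1, h2⟩

theorem up_mem (ε : ℤ) (Z : Matrix m m S) :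
    ∃ x ∈ RU S m ε, x.val = fromBlocks 1 (Z - ε • Zᴴ) 0 1 := by
  refine ⟨uniU (fromBlocks 1 (Z - ε • Zᴴ) 0 1) (fromBlocks 1 (-(Z - ε • Zᴴ)) 0 1) ?_ ?_,
    Subgroup.subset_closure (Or.inr (Or.inl ⟨Z, rfl⟩)), rfl⟩
  · rw [fromBlocks_multiply]; simp
  · rw [fromBlocks_multiply]; simp

theorem low_mem (ε : ℤ) (Z : Matrix m m S) :
    ∃ x ∈ RU S m ε, x.val = fromBlocks 1 0 (Z - ε • Zᴴ) 1 := by
  refine ⟨uniU (fromBlocks 1 0 (Z - ε • Zᴴ) 1) (fromBlocks 1 0 (-(Z - ε • Zᴴ)) 1) ?_ ?_,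
    Subgroup.subset_closure (Or.inr (Or.inr (Or.inl ⟨Z, rfl⟩))), rfl⟩
  · rw [fromBlocks_multiply]; simp
  · rw [fromBlocks_multiply]; simp

theorem diag_mem (ε : ℤ) (i j : m) (hij : i ≠ j) (c : S) :
    ∃ x ∈ RU S m ε, x.val = fromBlocks (1 + Matrix.single i j c) 0 0
      (1 - Matrix.single j i (star c)) := by
  have e : ∀ (p q : m) (x y : S), p ≠ q → (1 + Matrix.single p q x) * (1 + Matrix.single p q y)
      = (1 + Matrix.single p q (x + y) : Matrix m m S) := by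
    intro p q x y hpq
    rw [add_mul, one_mul, mul_add, mul_one, Matrix.single_mul_single_of_ne _ _ _ _ (Ne.symm hpq),
      add_zero, Matrix.single_add]
    abel
  have e0 : ∀ (p q : m), (1 + Matrix.single p q (0 : S) : Matrix m m S) = 1 := by
    intro p q; rw [Matrix.single_zero, add_zero]
  have e1 : ∀ (p q : m) (x : S), (1 - Matrix.single p q x : Matrix m m S)
      = 1 + Matrix.single p q (-x) := by
    intro p q x; rw [sub_eq_add_neg, Matrix.single_neg]
  refine ⟨uniU (fromBlocks (1 + Matrix.single i j c) 0 0 (1 - Matrix.single j i (star c)))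
    (fromBlocks (1 + Matrix.single i j (-c)) 0 0 (1 + Matrix.single j i (star c))) ?_ ?_,
    Subgroup.subset_closure (Or.inl ⟨i, j, c, hij, rfl⟩), rfl⟩
  · rw [fromBlocks_multiply, e1, e _ _ _ _ hij, e _ _ _ _ (Ne.symm hij)]
    simp
  · rw [fromBlocks_multiply, e1, e _ _ _ _ hij, e _ _ _ _ (Ne.symm hij)]
    simp

theorem short_mem {ε : ℤ} (hε : ε = 1 ∨ ε = -1) (a i : m ⊕ m) (c : S) (h1 : a ≠ i)
    (h2 : a ≠ sg i) : ∃ x ∈ RU S m ε, x.val = shortM ε a i c := by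
  rcases i with i | i <;> rcases a with a | a
  · have hai : a ≠ i := fun h => h1 (by rw [h])
    obtain ⟨x, hx, hxv⟩ := diag_mem (S := S) ε a i hai (-c)
    refine ⟨x, hx, ?_⟩
    rw [hxv, shortM]
    simp only [sg, sn, single_inl_inl, single_inr_inr, one_mul, one_smul]
    rw [← Matrix.fromBlocks_one, sub_eq_add_neg (fromBlocks 1 0 0 1), Matrix.fromBlocks_neg,
      Matrix.fromBlocks_add, Matrix.fromBlocks_add]
    simp [sub_eq_add_neg, Matrix.single_neg]
  · obtain ⟨x, hx, hxv⟩ := low_mem (S := S) ε (Matrix.single a i (-c))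
    refine ⟨x, hx, ?_⟩
    rw [hxv, shortM]
    simp only [sg, sn, single_inr_inl, mul_one]
    rw [← Matrix.fromBlocks_one, sub_eq_add_neg (fromBlocks 1 0 0 1), Matrix.fromBlocks_neg,
      Matrix.fromBlocks_add, Matrix.fromBlocks_add, Matrix.conjTranspose_single, star_neg]
    simp [Matrix.smul_single, sub_eq_add_neg, Matrix.single_neg]
  · obtain ⟨x, hx, hxv⟩ := up_mem (S := S) ε (Matrix.single a i (-c))
    refine ⟨x, hx, ?_⟩
    rw [hxv, shortM]
    simp only [sg, sn, single_inl_inr, one_mul]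
    rw [← Matrix.fromBlocks_one, sub_eq_add_neg (fromBlocks 1 0 0 1), Matrix.fromBlocks_neg,
      Matrix.fromBlocks_add, Matrix.fromBlocks_add, Matrix.conjTranspose_single, star_neg]
    simp [Matrix.smul_single, sub_eq_add_neg, Matrix.single_neg]
  · have hai : i ≠ a := fun h => h1 (by rw [h])
    obtain ⟨x, hx, hxv⟩ := diag_mem (S := S) ε i a hai (star c)
    refine ⟨x, hx, ?_⟩
    rw [hxv, shortM]
    simp only [sg, sn, single_inl_inl, single_inr_inr, sq_eps hε, one_smul]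
    rw [← Matrix.fromBlocks_one, sub_eq_add_neg (fromBlocks 1 0 0 1), Matrix.fromBlocks_neg,
      Matrix.fromBlocks_add, Matrix.fromBlocks_add, star_star]
    simp [sub_eq_add_neg]

theorem long_mem {ε : ℤ} (i : m ⊕ m) (z : S) :
    ∃ x ∈ RU S m ε, x.val = longM ε i z := by
  have e : ∀ p : m, (Matrix.single p p z - ε • (Matrix.single p p z)ᴴ : Matrix m m S)
      = Matrix.single p p (z - ε • star z) := by
    intro p
    rw [Matrix.conjTranspose_single, Matrix.smul_single, sub_eq_add_neg, Matrix.single_neg,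
      ← Matrix.single_add, ← sub_eq_add_neg]
  rcases i with i | i
  · obtain ⟨x, hx, hxv⟩ := low_mem (S := S) ε (Matrix.single i i z)
    refine ⟨x, hx, ?_⟩
    rw [hxv, longM, e]
    simp only [sg, single_inr_inl]
    rw [← Matrix.fromBlocks_one, Matrix.fromBlocks_add]
    simp
  · obtain ⟨x, hx, hxv⟩ := up_mem (S := S) ε (Matrix.single i i z)
    refine ⟨x, hx, ?_⟩
    rw [hxv, longM, e]
    simp only [sg, single_inl_inr]
    rw [← Matrix.fromBlocks_one, Matrix.fromBlocks_add]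
    simp

end Pool.Agent.Q181.GP
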