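import Pool.Agent.Q181.GP.Ring

set_option autoImplicit false
set_option linter.unusedSectionVars false

/-! The key inequality: no entry doubles when a row with two entries is contracted. -/

namespace Pool.Agent.Q181.GP

open Matrix LatRing

variable {S : Type} [Ring S] [StarRing S] [LatRing S] {κ : Type} [Fintype κ] [DecidableEq κ]

theorem row_mul (A B : Matrix κ κ S) (h : A * B = 1) (i : κ) :
    (A i) ᵥ* B = Pi.single i 1 := by
  funext b
  have h1 := congrFun (congrFun h i) b
  rw [Matrix.mul_apply_eq_vecMul] at h1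
  rw [h1, Matrix.one_apply, Pi.single_apply]
  simp only [eq_comm]

theorem single_vecMul' (i : κ) (c : S) (B : Matrix κ κ S) :
    (Pi.single i c) ᵥ* B = c • B i := by
  rw [Matrix.single_vecMul]
  rfl

theorem row_two (A B : Matrix κ κ S) (h : A * B = 1) (i j k : κ) (u v : S)
    (hA : A i = Pi.single j u + Pi.single k v) : u • B j + v • B k = Pi.single i 1 := by
  have h1 := row_mul A B h i
  rw [hA, Matrix.add_vecMul, single_vecMul', single_vecMul'] at h1
  exact h1

/-- rows of the inverse -/
theorem NN_rel (B : Matrix κ κ S) (i j k : κ) (u v : S) (hu : nm u = 1) (hv : nm v = 1)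
    (h : u • B j + v • B k = Pi.single i 1) :
    NN (B j) = 1 + NN (B k) - 2 * IP (Pi.single i 1) (v • B k) := by
  have h1 : u • B j = Pi.single i 1 - v • B k := by rw [← h]; abel
  rw [← NN_smul u hu (B j), h1, NN_sub, NN_single, nm_one, NN_smul v hv]

theorem row_j (B : Matrix κ κ S) (i j k : κ) (u v : S) (hu : nm u = 1)
    (h : u • B j + v • B k = Pi.single i 1) (a : S) :
    a • B j = Pi.single i (a * iv u) - (a * iv u * v) • B k := by
  obtain ⟨_, h2, _⟩ := iv_spec u hu
  have h1 : u • B j = Pi.single i 1 - v • B k := by rw [← h]; abel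
  have h3 : a • B j = (a * iv u) • (u • B j) := by
    rw [smul_smul, mul_assoc, h2, mul_one]
  rw [h3, h1, smul_sub, smul_smul, ← Pi.single_smul, smul_eq_mul, mul_one]

theorem NN_vec_le (B : Matrix κ κ S) (hB : ∀ a, NN (B a) ≤ 3) (X : κ → S) (hX : NN X ≤ 1) :
    NN (X ᵥ* B) ≤ 3 := by
  have h0 := NN_nonneg X
  rcases Int.lt_or_eq_of_le hX with h | h
  · have h1 : X = 0 := NN_eq_zero (by omega)
    rw [h1, Matrix.zero_vecMul]
    change ∑ j, nm (0 : S) ≤ 3
    simp [nm_zero]
  · obtain ⟨p, c, hc, rfl⟩ := split1 h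
    rw [single_vecMul', NN_smul c hc]
    exact hB p

theorem NN_double (y z : κ → S) : NN (y + z + z) = NN y + 4 * NN z + 4 * IP y z := by
  rw [NN_add, NN_add, IP_add_left]
  change _ = _
  rw [NN_eq z]
  ring

/-- **no doubling** -/
theorem core (A B : Matrix κ κ S) (h : A * B = 1) (i j k l : κ) (u v : S) (hu : nm u = 1)
    (hv : nm v = 1) (hjk : j ≠ k) (hA : A i = Pi.single j u + Pi.single k v)
    (hB : ∀ a, NN (B a) ≤ 3) (hk : NN (B k) = 2) (hp : IP (Pi.single i 1) (v • B k) = 0)
    (hl : l ≠ i) (hN : NN (A l) ≤ 3) (ha : nm (A l j) = 1) :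
    nm (A l k - A l j * iv u * v) ≤ nm (A l k) + 1 := by
  obtain ⟨_, _, hiv⟩ := iv_spec u hu
  have hrow := row_two A B h i j k u v hA
  set a := A l j with had
  set s := a * iv u * v with hs
  have hc : nm (a * iv u) = 1 := by rw [nm_mul_left a ha, hiv]
  have hs1 : nm s = 1 := by rw [hs, nm_mul_right v hv, hc]
  by_contra hcon
  rw [nm_sub, hs1] at hcon
  have hip : ip (A l k) s ≤ -1 := by omega
  set X : κ → S := A l - Pi.single j a + Pi.single k s with hX
  have hXN : NN X ≤ 1 := by
    rw [hX, NN_add, NN_single, hs1, had, NN_erase, ← had, ha, IP_comm _ (Pi.single k s),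
      IP_single_left, Pi.sub_apply, Pi.single_eq_of_ne (Ne.symm hjk), sub_zero, ip_comm]
    omega
  have h1 := NN_vec_le B hB X hXN
  have h2 : X ᵥ* B = (Pi.single l 1 - Pi.single i (a * iv u)) + s • B k + s • B k := by
    rw [hX, Matrix.add_vecMul, Matrix.sub_vecMul, row_mul A B h l, single_vecMul',
      single_vecMul', row_j B i j k u v hu hrow a]
    abel
  rw [h2, NN_double] at h1
  have h3 : NN (Pi.single l 1 - Pi.single i (a * iv u) : κ → S) = 2 := by
    rw [NN_sub, NN_single, NN_single, nm_one, hc, IP_single_left, Pi.single_eq_of_ne hl,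
      ip_zero_right]
    norm_num
  have h4 : NN (s • B k) = 2 := by rw [NN_smul s hs1, hk]
  have h5 : IP (Pi.single i (a * iv u)) (s • B k) = 0 := by
    have e1 : (Pi.single i (a * iv u) : κ → S) = (a * iv u) • Pi.single i 1 := by
      rw [← Pi.single_smul, smul_eq_mul, mul_one]
    have e2 : s • B k = (a * iv u) • (v • B k) := by rw [smul_smul]
    rw [e1, e2, IP_smul _ hc, hp]
  have h6 := (abs_IP_le (Pi.single l (1 : S)) (s • B k) (by rw [NN_single, nm_one])
    (by omega)).1
  rw [IP_sub_left, h5, h3, h4] at h1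
  omega

end Pool.Agent.Q181.GP
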