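import Pool.Agent.Q181.GP.Inst

set_option autoImplicit false
set_option linter.unusedSectionVars false

/-! The theorems over integral group rings with orientation characters. -/

namespace Pool.Agent.Q181.GP

open Matrix LatRing TH57.Thr TH6.LF TH6.PF Pool.Agent.Y75.Th

variable {Γ : Type} [Group Γ]

variable (Γ) in
/-- The group generated by the elementary matrices and the diagonal matrices `diag(1,…,±g,…,1)`:
all its elements have trivial Whitehead torsion. -/
noncomputable def SimG (κ : Type) [Fintype κ] [DecidableEq κ] :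
    Subgroup (Matrix κ κ (MonoidAlgebra ℤ Γ))ˣ := Subgroup.closure
  {x | (∃ i j c, i ≠ j ∧ x.val = 1 + Matrix.single i j c) ∨
    (∃ (i : κ) (g : Γ) (e : ℤˣ),
      x.val = Matrix.diagonal (Function.update 1 i (MonoidAlgebra.single g (e : ℤ))))}

/-- Isometries of the hyperbolic `ε`-quadratic form for the involution twisted by the orientation
character `w`. -/
def IsoG (w : Γ →* ℤˣ) (ε : ℤ) {m : Type} [Fintype m] [DecidableEq m]
    (A : Matrix (m ⊕ m) (m ⊕ m) (MonoidAlgebra ℤ Γ)) : Prop :=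
  ∃ χ : Matrix (m ⊕ m) (m ⊕ m) (MonoidAlgebra ℤ Γ),
    A * hyp ℤ Γ m * sadj w A = hyp ℤ Γ m + (χ - ε • sadj w χ)

/-- The group of Wall, which is generated by the hyperbolic images of simple automorphisms, the
unipotent isometries and the swaps of one hyperbolic pair. -/
noncomputable def WallG (w : Γ →* ℤˣ) (ε : ℤ) (m : Type) [Fintype m] [DecidableEq m] :
    Subgroup (Matrix (m ⊕ m) (m ⊕ m) (MonoidAlgebra ℤ Γ))ˣ := Subgroup.closure
  {x | (∃ P ∈ SimG Γ m, ∃ Q : Matrix m m (MonoidAlgebra ℤ Γ),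
      P.val * sadj w Q = 1 ∧ x.val = fromBlocks P.val 0 0 Q) ∨
    (∃ Z : Matrix m m (MonoidAlgebra ℤ Γ), x.val = fromBlocks 1 (Z - ε • sadj w Z) 0 1) ∨
    (∃ Z : Matrix m m (MonoidAlgebra ℤ Γ), x.val = fromBlocks 1 0 (Z - ε • sadj w Z) 1) ∨
    (∃ i : m, x.val = fromBlocks (1 - Matrix.single i i 1) (Matrix.single i i 1)
      (ε • Matrix.single i i 1) (1 - Matrix.single i i 1))}

theorem nm_nsq (w : Γ →* ℤˣ) (x : MonoidAlgebra ℤ Γ) :
    @nm (MonoidAlgebra ℤ Γ) _ (srw w) (lat w) x = nsq x := gip_self x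

theorem NN_N (w : Γ →* ℤˣ) {κ : Type} [Fintype κ] [DecidableEq κ] (x : κ → MonoidAlgebra ℤ Γ) :
    @NN (MonoidAlgebra ℤ Γ) _ (srw w) (lat w) κ _ x = N x :=
  Finset.sum_congr rfl fun _ _ => nm_nsq w _

theorem Simp_eq (w : Γ →* ℤˣ) (κ : Type) [Fintype κ] [DecidableEq κ] :
    @Simp (MonoidAlgebra ℤ Γ) _ (srw w) (lat w) κ _ _ = SimG Γ κ := by
  unfold Simp SimG
  congr 1
  ext x
  refine or_congr Iff.rfl ?_
  constructor
  · rintro ⟨i, u, hu, hx⟩
    rw [nm_nsq] at hu
    obtain ⟨g, e, he, rfl⟩ := eq_single_of_nsq_one hu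
    rw [pow_two] at he
    have h1 : e = 1 ∨ e = -1 := mul_self_eq_one_iff.1 he
    rcases h1 with rfl | rfl
    · exact ⟨i, g, 1, by rw [hx]; rfl⟩
    · exact ⟨i, g, -1, by rw [hx]; rfl⟩
  · rintro ⟨i, g, e, hx⟩
    refine ⟨i, _, ?_, hx⟩
    rw [nm_nsq, nsq_single]
    rcases Int.units_eq_one_or e with rfl | rfl <;> norm_num

theorem conj_eq (w : Γ →* ℤˣ) {ι κ : Type} (A : Matrix ι κ (MonoidAlgebra ℤ Γ)) :
    @conjTranspose ι κ (MonoidAlgebra ℤ Γ) (srw w).toStar A = sadj w A := rfl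

theorem RW_eq (w : Γ →* ℤˣ) (ε : ℤ) (m : Type) [Fintype m] [DecidableEq m] :
    @RW (MonoidAlgebra ℤ Γ) _ (srw w) (lat w) m _ _ ε = WallG w ε m := by
  unfold RW WallG
  congr 1
  ext x
  refine or_congr ?_ Iff.rfl
  rw [Simp_eq]
  rfl

/-- the diagonal entries -/
theorem diag_entry (w : Γ →* ℤˣ) {ε : ℤ} (hε : ε = 1 ∨ ε = -1)
    (h2 : ∀ g : Γ, g * g = 1 → g ≠ 1 → ((w g : ℤˣ) : ℤ) = ε) (x : MonoidAlgebra ℤ Γ)
    (hx : x + ε • sbar w x = 0) :
    ∃ d ∈ {d : MonoidAlgebra ℤ Γ | d = 0 ∨ (ε = -1 ∧ d = 1)}, ∃ z,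
      x = d + (z - ε • sbar w z) := by
  classical
  have hc : ∀ g, x.coeff g + ε * (((w g : ℤˣ) : ℤ) * x.coeff g⁻¹) = 0 := by
    intro g
    have h := congrArg (fun y : MonoidAlgebra ℤ Γ => y.coeff g) hx
    simp only [MonoidAlgebra.coeff_add, Finsupp.add_apply, MonoidAlgebra.coeff_smul,
      Finsupp.smul_apply, coeff_sbar, star_trivial, smul_eq_mul, MonoidAlgebra.coeff_zero,
      Finsupp.zero_apply] at h
    exact h
  -- remove one pair of conjugate group elements after the other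
  have key : ∀ (n : ℕ) (x : MonoidAlgebra ℤ Γ), x.coeff.support.card ≤ n →
      (∀ g, x.coeff g + ε * (((w g : ℤˣ) : ℤ) * x.coeff g⁻¹) = 0) →
      ∃ d ∈ {d : MonoidAlgebra ℤ Γ | d = 0 ∨ (ε = -1 ∧ d = 1)}, ∃ z,
        x = d + (z - ε • sbar w z) := by
    intro n
    induction n with
    | zero =>
      intro x hn _
      have h0 : x.coeff = 0 := Finsupp.support_eq_empty.1 (Finset.card_eq_zero.1
        (Nat.le_zero.1 hn))
      have h1 : x = 0 := by ext g; rw [h0]; rfl
      exact ⟨0, Or.inl rfl, 0, by rw [h1, sbar_zero, smul_zero, sub_zero, add_zero]⟩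
    | succ n ih =>
      intro x hn hx
      by_cases hs : ∃ g ∈ x.coeff.support, g * g ≠ 1
      · obtain ⟨g, hg, hgg⟩ := hs
        have hne : g⁻¹ ≠ g := fun h => hgg (by nth_rewrite 1 [← h]; exact inv_mul_cancel g)
        set z : MonoidAlgebra ℤ Γ := MonoidAlgebra.single g (x.coeff g) with hz
        set y := x - (z - ε • sbar w z) with hy
        have hyc : ∀ h, y.coeff h = x.coeff h - ((if g = h then x.coeff g else 0)
            - ε * (((w h : ℤˣ) : ℤ) * (if g = h⁻¹ then x.coeff g else 0))) := by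
          intro h
          rw [hy, MonoidAlgebra.coeff_sub, Finsupp.sub_apply, MonoidAlgebra.coeff_sub,
            Finsupp.sub_apply, MonoidAlgebra.coeff_smul, Finsupp.smul_apply, coeff_sbar, hz,
            MonoidAlgebra.coeff_single, Finsupp.single_apply, Finsupp.single_apply, star_trivial,
            smul_eq_mul, smul_eq_mul]
        have hyg : y.coeff g = 0 := by
          rw [hyc, if_pos rfl, if_neg (Ne.symm hne)]; ring
        have hyg2 : ∀ h, x.coeff h = 0 → y.coeff h = 0 := by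
          intro h hh
          rw [hyc, hh]
          have h1 : g ≠ h := by
            rintro rfl; exact (Finsupp.mem_support_iff.1 hg) hh
          have h2 : g ≠ h⁻¹ := by
            rintro rfl
            have h3 := hx h⁻¹
            rw [inv_inv, hh, mul_zero, mul_zero, add_zero] at h3
            exact (Finsupp.mem_support_iff.1 hg) h3
          rw [if_neg h1, if_neg h2]; ring
        have hlt : y.coeff.support.card < x.coeff.support.card := by
          apply Finset.card_lt_card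
          rw [Finset.ssubset_iff_of_subset]
          · exact ⟨g, hg, by rw [Finsupp.notMem_support_iff]; exact hyg⟩
          · intro h hh
            rw [Finsupp.mem_support_iff] at hh ⊢
            exact fun h0 => hh (hyg2 h h0)
        obtain ⟨d, hd, z', hz'⟩ := ih y (by omega) (by
          intro h
          have h1 := hx h
          have h2 := w_sq w h
          have h3 := w_inv w h
          have h4 := sq_eps hε
          rw [hyc, hyc, inv_inv, h3]
          have e1 : (if g = h⁻¹ then x.coeff g else 0) * 1 = (if g = h⁻¹ then x.coeff g else 0) :=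
            mul_one _
          generalize (if g = h⁻¹ then x.coeff g else 0) = p at *
          generalize (if g = h then x.coeff g else 0) = q at *
          generalize ((w h : ℤˣ) : ℤ) = u at *
          have h5 : ε * (u * (ε * (u * q))) = q := by
            calc _ = (ε * ε) * (u * u) * q := by ring
              _ = q := by rw [h4, h2]; ring
          linear_combination h1 + h5)
        refine ⟨d, hd, z' + z, ?_⟩
        have h1 : x = y + (z - ε • sbar w z) := by rw [hy]; abel
        rw [h1, hz', sbar_add, smul_add]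
        abel
      · push Not at hs
        have h1 : ∀ g, g ≠ 1 → x.coeff g = 0 := by
          intro g hg
          by_contra h0
          have h3 := hs g (Finsupp.mem_support_iff.2 h0)
          have h4 := hx g
          have h5 : g⁻¹ = g := inv_eq_of_mul_eq_one_left h3
          rw [h5, h2 g h3 hg, ← mul_assoc, sq_eps hε, one_mul] at h4
          omega
        have h3 : x = MonoidAlgebra.single 1 (x.coeff 1) := by
          ext g
          rw [MonoidAlgebra.coeff_single, Finsupp.single_apply]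
          split_ifs with h
          · rw [h]
          · exact h1 g (Ne.symm h)
        have h4 := hx 1
        rw [inv_one, map_one w, Units.val_one, one_mul] at h4
        rcases hε with rfl | rfl
        · have h5 : x.coeff 1 = 0 := by omega
          refine ⟨0, Or.inl rfl, 0, ?_⟩
          rw [h3, h5, MonoidAlgebra.single_zero, sbar_zero, smul_zero, sub_zero, add_zero]
        · rcases Int.even_or_odd' (x.coeff 1) with ⟨k, hk | hk⟩
          · refine ⟨0, Or.inl rfl, MonoidAlgebra.single 1 k, ?_⟩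
            rw [h3, hk, sbar_single, map_one, Units.val_one, one_smul, star_trivial, inv_one,
              neg_smul, one_smul, sub_neg_eq_add, zero_add, ← MonoidAlgebra.single_add, two_mul]
          · refine ⟨1, Or.inr ⟨rfl, rfl⟩, MonoidAlgebra.single 1 k, ?_⟩
            rw [h3, hk, sbar_single, map_one, Units.val_one, one_smul, star_trivial, inv_one,
              neg_smul, one_smul, sub_neg_eq_add, MonoidAlgebra.one_def,
              ← MonoidAlgebra.single_add, ← MonoidAlgebra.single_add]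
            congr 1; ring
  exact key _ x le_rfl hc

theorem N_adj_row {κ : Type} [Fintype κ] [DecidableEq κ] {ε : ℤ} (w : Γ →* ℤˣ)
    (M : Matrix κ κ (MonoidAlgebra ℤ Γ)) (hM : ∀ a b, M a b = ε • sbar w (M b a))
    (hε : ε = 1 ∨ ε = -1) (i : κ) : N (fun j => adj M i j) = N (fun j => M i j) := by
  refine Finset.sum_congr rfl fun j _ => ?_
  change nsq (adj M i j) = nsq (M i j)
  rw [adj_apply, nsq_bar, hM j i]
  rcases hε with rfl | rfl
  · rw [one_smul, nsq_sbar]
  · rw [neg_smul, one_smul, nsq_neg, nsq_sbar]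

/-- **Quadratic forms.** -/
theorem forms_close (w : Γ →* ℤˣ) {ε : ℤ} (hε : ε = 1 ∨ ε = -1)
    (h2 : ∀ g : Γ, g * g = 1 → g ≠ 1 → ((w g : ℤˣ) : ℤ) = ε) {n : ℕ}
    (ψ M : Matrix (Fin n) (Fin n) (MonoidAlgebra ℤ Γ)) (h3 : (ψ + ε • sadj w ψ) * M = 1)
    (h4 : M * (ψ + ε • sadj w ψ) = 1)
    (hN : (∀ i, N ((ψ + ε • sadj w ψ) i) + N (M i) ≤ 5) ∨
      ∃ c : ℝ, 0 < c ∧ c < 1 + Real.sqrt 2 ∧ NormLE (ψ + ε • sadj w ψ) c ∧ NormLE M c) :
    ∃ (m : ℕ) (e : Fin n ≃ Fin m ⊕ Fin m), ∃ U ∈ SimG Γ (Fin n),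
      ∃ (d : Fin n → MonoidAlgebra ℤ Γ) (χ : Matrix (Fin n) (Fin n) (MonoidAlgebra ℤ Γ)),
        (∀ i, d i = 0 ∨ (ε = -1 ∧ d i = 1)) ∧
        U.val * ψ * sadj w U.val = (hyp ℤ Γ (Fin m)).submatrix e e + Matrix.diagonal d
          + (χ - ε • sadj w χ) := by
  letI := srw w
  letI := lat w
  have hb : ∀ i, N ((ψ + ε • sadj w ψ) i) + N (M i) ≤ 5 := by
    rcases hN with hN | ⟨c, hc0, hc, hL, hM⟩
    · exact hN
    · intro i
      have hF : Frm ε (ψ + ε • ψᴴ) M := ⟨h3, h4, ψ, rfl⟩
      have h5 := row_bound _ M h3 h4 c hc0 hc hL hM i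
      rw [N_sub _ M h3, N_adj_row w M (fun a b => (hF.symm hε).entry hε a b) hε] at h5
      have h6 : N (fun j => (ψ + ε • sadj w ψ) i j) = N ((ψ + ε • sadj w ψ) i) := rfl
      have h7 : N (fun j => M i j) = N (M i) := rfl
      omega
  obtain ⟨m, e, U, hU, d, χ, hd, h⟩ := forms_nf hε
    {d : MonoidAlgebra ℤ Γ | d = 0 ∨ (ε = -1 ∧ d = 1)} (fun x hx => diag_entry w hε h2 x hx)
    ψ M h3 h4 (fun a => by rw [NN_N, NN_N]; exact hb a)
  rw [Simp_eq] at hU
  exact ⟨m, e, U, hU, d, χ, hd, h⟩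

section iso

variable {m : Type} [Fintype m] [DecidableEq m]

theorem N_sg (f : m ⊕ m → MonoidAlgebra ℤ Γ) : N (fun b => f (sg b)) = N f :=
  Fintype.sum_equiv ⟨sg, sg, sg_sg, sg_sg⟩ _ _ fun _ => rfl

/-- the entries of the inverse of an isometry -/
theorem iso_inv_nsq (w : Γ →* ℤˣ) {ε : ℤ} (hε : ε = 1 ∨ ε = -1)
    {A B : Matrix (m ⊕ m) (m ⊕ m) (MonoidAlgebra ℤ Γ)}
    (h : @Uni (MonoidAlgebra ℤ Γ) _ (srw w) m _ _ ε A B) (a b : m ⊕ m) :
    nsq (B a b) = nsq (A (sg b) (sg a)) := by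
  letI := srw w
  letI := lat w
  rw [h.inv_apply hε]
  change nsq (_ • sbar w (A (sg b) (sg a))) = _
  rcases snn_or hε a b with h1 | h1 <;> rw [h1]
  · rw [one_smul, nsq_sbar]
  · rw [neg_smul, one_smul, nsq_neg, nsq_sbar]

end iso

end Pool.Agent.Q181.GP
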