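import Pool.Agent.Q181.GP.Fin

set_option autoImplicit false
set_option linter.unusedSectionVars false
set_option linter.style.haveILetI false

/-! The norm of the inverse of an isometry and the theorem for isometries. -/

namespace Pool.Agent.Q181.GP

open Matrix LatRing TH57.Thr TH6.LF TH6.PF Pool.Agent.Y75.Th

variable {Γ : Type} [Group Γ]

/-- the twist by the orientation character -/
noncomputable def tw (w : Γ →* ℤˣ) : MonoidAlgebra ℝ Γ →+* MonoidAlgebra ℝ Γ :=
  (MonoidAlgebra.lift ℝ (MonoidAlgebra ℝ Γ) Γ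
    { toFun := fun g => MonoidAlgebra.single g (((w g : ℤˣ) : ℤ) : ℝ)
      map_one' := by rw [map_one, Units.val_one, Int.cast_one]; rfl
      map_mul' := fun g h => by
        rw [map_mul, Units.val_mul, Int.cast_mul, MonoidAlgebra.single_mul_single] }).toRingHom

theorem coeff_tw (w : Γ →* ℤˣ) (x : MonoidAlgebra ℝ Γ) (g : Γ) :
    (tw w x).coeff g = (((w g : ℤˣ) : ℤ) : ℝ) * x.coeff g := by
  classical
  induction x using MonoidAlgebra.induction_linear with
  | zero => simp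
  | add x y hx hy =>
    rw [map_add, MonoidAlgebra.coeff_add, Finsupp.add_apply, hx, hy, MonoidAlgebra.coeff_add,
      Finsupp.add_apply, mul_add]
  | single h r =>
    have h1 : tw w (MonoidAlgebra.single h r)
        = r • MonoidAlgebra.single h (((w h : ℤˣ) : ℤ) : ℝ) := by
      change MonoidAlgebra.lift ℝ (MonoidAlgebra ℝ Γ) Γ _ (MonoidAlgebra.single h r) = _
      rw [MonoidAlgebra.lift_single]; rfl
    rw [h1, MonoidAlgebra.coeff_smul, Finsupp.smul_apply, MonoidAlgebra.coeff_single,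
      MonoidAlgebra.coeff_single, Finsupp.single_apply, Finsupp.single_apply]
    split_ifs with hh
    · rw [hh, smul_eq_mul, mul_comm]
    · rw [smul_zero, mul_zero]

theorem w_sqR (w : Γ →* ℤˣ) (g : Γ) :
    (((w g : ℤˣ) : ℤ) : ℝ) * (((w g : ℤˣ) : ℤ) : ℝ) = 1 := by
  exact_mod_cast w_sq w g

theorem tw_tw (w : Γ →* ℤˣ) (x : MonoidAlgebra ℝ Γ) : tw w (tw w x) = x := by
  ext g
  rw [coeff_tw, coeff_tw, ← mul_assoc, w_sqR, one_mul]

theorem n1_tw (w : Γ →* ℤˣ) (x : MonoidAlgebra ℝ Γ) : n1 (tw w x) = n1 x := by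
  rw [n1_eq (tw w x) x.coeff.support, n1_eq x _ (Finset.Subset.refl _)]
  · refine Finset.sum_congr rfl fun g _ => ?_
    rw [coeff_tw, mul_pow, pow_two (((w g : ℤˣ) : ℤ) : ℝ), w_sqR, one_mul]
  · intro g hg
    rw [Finsupp.mem_support_iff] at hg ⊢
    intro h
    exact hg (by rw [coeff_tw, h, mul_zero])

theorem n1_zsmul (s : ℤ) (hs : s = 1 ∨ s = -1) (x : MonoidAlgebra ℝ Γ) : n1 (s • x) = n1 x := by
  rcases hs with rfl | rfl
  · rw [one_smul]
  · rw [neg_smul, one_smul, n1_neg]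

theorem toReal_sadj (w : Γ →* ℤˣ) {ι κ : Type} (A : Matrix ι κ (MonoidAlgebra ℤ Γ)) (j : κ)
    (i : ι) : toReal (sadj w A) j i = tw w (toReal (adj A) j i) := by
  ext g
  rw [coeff_tw]
  simp only [toReal, Matrix.map_apply, adj_apply, coeff_bar, MonoidAlgebra.coeff_mapRingHom,
    sadj_apply, coeff_sbar, star_trivial]
  simp

theorem NormLE_sadj (w : Γ →* ℤˣ) {κ : Type} [Fintype κ] [DecidableEq κ]
    (A : Matrix κ κ (MonoidAlgebra ℤ Γ)) (c : ℝ) (hc : 0 < c) (hA : NormLE A c) :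
    NormLE (sadj w A) c := by
  intro x
  have h1 := NormLE_adj A c hc hA (fun i => tw w (x i))
  have h2 : normSq (fun i => tw w (x i)) = normSq x := by
    rw [normSq_eq, normSq_eq]
    exact Finset.sum_congr rfl fun i _ => n1_tw w _
  have h3 : x ᵥ* toReal (sadj w A) = fun j => tw w (((fun i => tw w (x i)) ᵥ* toReal (adj A)) j) := by
    funext j
    simp only [Matrix.vecMul, dotProduct, map_sum, map_mul, tw_tw, toReal_sadj]
  rw [h2] at h1
  rw [h3, normSq_eq]
  calc _ = ∑ j, n1 (((fun i => tw w (x i)) ᵥ* toReal (adj A)) j) :=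
        Finset.sum_congr rfl fun j _ => n1_tw w _
    _ ≤ _ := h1

section iso

variable {m : Type} [Fintype m] [DecidableEq m]

/-- the norm of the inverse of an isometry -/
theorem NormLE_inv (w : Γ →* ℤˣ) {ε : ℤ} (hε : ε = 1 ∨ ε = -1)
    {A B : Matrix (m ⊕ m) (m ⊕ m) (MonoidAlgebra ℤ Γ)}
    (h : @Uni (MonoidAlgebra ℤ Γ) _ (srw w) m _ _ ε A B) (c : ℝ) (hc : 0 < c)
    (hA : NormLE A c) : NormLE B c := by
  intro x
  have h1 := NormLE_sadj w A c hc hA (fun a => sn ε (sg a) • x (sg a))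
  have h2 : normSq (fun a => sn ε (sg a) • x (sg a)) = normSq x := by
    rw [normSq_eq, normSq_eq]
    have e1 : ∀ a, n1 (sn ε (sg a) • x (sg a)) = n1 (x (sg a)) := fun a =>
      n1_zsmul _ (sn_or hε _) _
    rw [Finset.sum_congr rfl fun a _ => e1 a]
    exact Fintype.sum_equiv ⟨sg, sg, sg_sg, sg_sg⟩ _ _ fun _ => rfl
  have h4 : ∀ a b, toReal B a b = (sn ε a * sn ε b) • toReal (sadj w A) (sg a) (sg b) := by
    intro a b
    have h5 : B a b = (sn ε a * sn ε b) • sadj w A (sg a) (sg b) := by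
      letI := srw w
      letI := lat w
      exact h.inv_apply hε a b
    simp only [toReal, Matrix.map_apply]
    rw [h5, map_zsmul]
  have h3 : x ᵥ* toReal B
      = fun b => sn ε b • (((fun a => sn ε (sg a) • x (sg a)) ᵥ* toReal (sadj w A)) (sg b)) := by
    funext b
    simp only [Matrix.vecMul, dotProduct, h4]
    rw [Finset.smul_sum]
    refine Fintype.sum_equiv ⟨sg, sg, sg_sg, sg_sg⟩ _ _ fun a => ?_
    simp only [Equiv.coe_fn_mk, sg_sg]
    rw [mul_smul_comm, smul_mul_assoc, smul_smul, mul_comm (sn ε b)]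
  rw [h3]
  have h6 : normSq (fun b => sn ε b •
      (((fun a => sn ε (sg a) • x (sg a)) ᵥ* toReal (sadj w A)) (sg b)))
      = normSq ((fun a => sn ε (sg a) • x (sg a)) ᵥ* toReal (sadj w A)) := by
    rw [normSq_eq, normSq_eq]
    rw [Finset.sum_congr rfl fun b _ => n1_zsmul _ (sn_or hε b) _]
    exact Fintype.sum_equiv ⟨sg, sg, sg_sg, sg_sg⟩ _ _ fun _ => rfl
  rw [h6, ← h2]
  exact h1

/-- **Isometries.** -/
theorem isos_close (w : Γ →* ℤˣ) {ε : ℤ} (hε : ε = 1 ∨ ε = -1)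
    (A : (Matrix (m ⊕ m) (m ⊕ m) (MonoidAlgebra ℤ Γ))ˣ) (hA : IsoG w ε A.val)
    (hN : ((∀ i, N (A.val (Sum.inl i)) + N (A.val (Sum.inr i)) ≤ 5) ∧
        ∀ i, N (fun b => A.val b (Sum.inl i)) + N (fun b => A.val b (Sum.inr i)) ≤ 5) ∨
      ∃ c : ℝ, 0 < c ∧ c < 1 + Real.sqrt 2 ∧ NormLE A.val c) :
    A ∈ WallG w ε m := by
  letI := srw w
  letI := lat w
  have hU : Uni ε A.val A⁻¹.val := ⟨A.mul_inv, A.inv_mul, hA⟩
  have hinv : ∀ a, N (A⁻¹.val a) = N (fun b => A.val b (sg a)) := by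
    intro a
    have h1 : N (fun b => A.val b (sg a)) = N (fun b => A.val (sg b) (sg a)) :=
      (N_sg fun b => A.val b (sg a)).symm
    rw [h1]
    exact Finset.sum_congr rfl fun b _ => iso_inv_nsq w hε hU a b
  have key : (∀ a, N (A.val a) + N (A.val (sg a)) ≤ 5) ∧
      ∀ a, N (A⁻¹.val a) + N (A⁻¹.val (sg a)) ≤ 5 := by
    rcases hN with ⟨h1, h2⟩ | ⟨c, hc0, hc, h1⟩
    · constructor
      · rintro (i | i)
        · exact h1 i
        · rw [add_comm]; exact h1 i
      · rintro (i | i)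
        · rw [hinv, hinv, sg_sg, add_comm]; exact h2 i
        · rw [hinv, hinv, sg_sg]; exact h2 i
    · have h2 := NormLE_inv w hε hU c hc0 h1
      have e1 : ∀ (X Y : Matrix (m ⊕ m) (m ⊕ m) (MonoidAlgebra ℤ Γ)), Uni ε X Y →
          ∀ a, N (fun j => adj Y a j) = N (X (sg a)) := by
        intro X Y hXY a
        rw [← N_sg (X (sg a))]
        refine Finset.sum_congr rfl fun j _ => ?_
        change nsq (adj Y a j) = nsq (X (sg a) (sg j))
        rw [adj_apply, nsq_bar]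
        exact iso_inv_nsq w hε hXY j a
      have e2 : ∀ (X Y : Matrix (m ⊕ m) (m ⊕ m) (MonoidAlgebra ℤ Γ)), Uni ε X Y →
          NormLE X c → NormLE Y c → ∀ a, N (X a) + N (X (sg a)) ≤ 5 := by
        intro X Y hXY hX hY a
        have h5 := row_bound X Y hXY.h1 hXY.h2 c hc0 hc hX hY a
        rw [N_sub X Y hXY.h1, e1 X Y hXY] at h5
        have h6 : N (fun j => X a j) = N (X a) := rfl
        omega
      exact ⟨e2 _ _ hU h1 h2, e2 _ _ hU.symm h2 h1⟩
  rw [← RW_eq]
  exact iso_RW hε A hA (fun a => by rw [NN_N, NN_N]; exact key.1 a)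
    (fun a => by rw [NN_N, NN_N]; exact key.2 a)

end iso

end Pool.Agent.Q181.GP
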