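import Pool.Agent.Q181.GP.StepA

set_option autoImplicit false
set_option linter.unusedSectionVars false

/-! The contraction step for isometries, and the theorem for isometries. -/

namespace Pool.Agent.Q181.GP

open Matrix LatRing

variable {S : Type} [Ring S] [StarRing S] [LatRing S] {m : Type} [Fintype m] [DecidableEq m]

theorem shortM_col (ε : ℤ) (j k : m ⊕ m) (x : S) (M : Matrix (m ⊕ m) (m ⊕ m) S) (a b : m ⊕ m)
    (hjk : k ≠ sg j) : (M * shortM ε j k x) a b =
      if b = k then M a k - M a j * x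
      else if b = sg j then M a (sg j) + M a (sg k) * ((sn ε j * sn ε k) • star x) else M a b := by
  have e : ∀ (p q : m ⊕ m) (c : S), (M * Matrix.single p q c) a b
      = if b = q then M a p * c else 0 := by
    intro p q c
    by_cases hb : b = q
    · subst hb; rw [if_pos rfl, Matrix.mul_single_apply_same]
    · rw [if_neg hb, Matrix.mul_single_apply_of_ne _ _ _ _ _ hb]
  rw [shortM, mul_add, mul_sub, mul_one, Matrix.add_apply, Matrix.sub_apply, e, e]
  by_cases hb : b = k
  · subst hb
    rw [if_pos rfl, if_neg hjk, if_pos rfl, add_zero]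
  · rw [if_neg hb, if_neg hb, sub_zero]
    by_cases hb2 : b = sg j
    · subst hb2; rw [if_pos rfl, if_pos rfl]
    · rw [if_neg hb2, if_neg hb2, add_zero]

/-- **the contraction step** -/
theorem stepA_two {ε : ℤ} (hε : ε = 1 ∨ ε = -1) {A B : Matrix (m ⊕ m) (m ⊕ m) S}
    (h : Uni ε A B) (hA : Bd1 A) (hB : Bd1 B) (hnA : Nop1 A) (hnB : Nop1 B) (i : m ⊕ m)
    (hi : NN (A i) = 2) : StepA ε A B := by
  have three : ∀ X Y : Matrix (m ⊕ m) (m ⊕ m) S, X * Y = 1 → Bd1 X → Nop1 X → ∀ a,
      NN (X a) ≤ 3 := by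
    intro X Y hXY hX hn a
    have := hX a
    have h2 := one_le_NN X Y hXY (sg a)
    rcases hn a with h1 | h1 <;> omega
  have hA3 := three A B h.h1 hA hnA
  have hB3 := three B A h.h2 hB hnB
  obtain ⟨j, k, u, v, hjk, hjsk, hu, hv, hL, hBj, hBk, hBsj, hp⟩ :=
    contraction_dataA hε h hB hnB i hi
  have hksj : k ≠ sg j := fun h => hjsk (sg_eq_iff.1 h.symm)
  obtain ⟨_, hiu, hiv⟩ := iv_spec u hu
  have hLj : A i j = u := by
    rw [hL, Pi.add_apply, Pi.single_eq_same, Pi.single_eq_of_ne hjk, add_zero]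
  have hLk : A i k = v := by
    rw [hL, Pi.add_apply, Pi.single_eq_same, Pi.single_eq_of_ne (Ne.symm hjk), zero_add]
  have hLb : ∀ b, b ≠ j → b ≠ k → A i b = 0 := by
    intro b h1 h2
    rw [hL, Pi.add_apply, Pi.single_eq_of_ne h1, Pi.single_eq_of_ne h2, add_zero]
  set x := iv u * v with hx
  obtain ⟨W, hW, hWv⟩ := short_mem hε j k x hjk hjsk
  set A1 := A * W.val with hA1
  set B1 := W⁻¹.val * B with hB1
  have hU1 : Uni ε A1 B1 := h.mul (RU_Uni hε hW)
  have hA1ab : ∀ a b, A1 a b = if b = k then A a k - A a j * x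
      else if b = sg j then A a (sg j) + A a (sg k) * ((sn ε j * sn ε k) • star x)
      else A a b := by
    intro a b
    rw [hA1, hWv, shortM_col ε j k x A a b hksj]
  have hA1i : A1 i = Pi.single j u := by
    funext b
    rw [hA1ab]
    by_cases hbk : b = k
    · subst hbk
      rw [if_pos rfl, hLj, hLk, hx, ← mul_assoc, (iv_spec u hu).1, one_mul, sub_self,
        Pi.single_eq_of_ne (Ne.symm hjk)]
    · rw [if_neg hbk]
      by_cases hbs : b = sg j
      · subst hbs
        rw [if_pos rfl, hLb (sg j) (sg_ne j) (Ne.symm hksj),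
          hLb (sg k) (fun h => hjsk h.symm) (sg_ne k), zero_mul, add_zero,
          Pi.single_eq_of_ne (sg_ne j)]
      · rw [if_neg hbs]
        by_cases hbj : b = j
        · subst hbj; rw [hLj, Pi.single_eq_same]
        · rw [hLb b hbj hbk, Pi.single_eq_of_ne hbj]
  obtain ⟨V, hV, A', B', hA', hU', n1, n2, n3, n4, hr, hs⟩ := peelA hε hU1 i j u hu hA1i
  -- the column `j`
  have hcolj : ∑ a, nm (A a j) = 2 := by rw [← NN_colrow hε h j, hBsj]
  have hcolk : ∑ a, nm (A a k) = NN (B (sg k)) := by rw [← NN_colrow hε h k]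
  have hle : ∀ a, a ≠ i → nm (A a j) ≤ 1 := by
    intro a ha
    have h11 : nm (A a j) + nm (A i j) ≤ ∑ a, nm (A a j) := by
      have := Finset.sum_le_sum_of_subset_of_nonneg
        (Finset.subset_univ ({a, i} : Finset (m ⊕ m))) (f := fun a => nm (A a j))
        (fun a _ _ => nm_nonneg _)
      rwa [Finset.sum_pair ha] at this
    rw [hcolj, hLj, hu] at h11
    omega
  have hent : ∀ a, a ≠ i → nm (A a k - A a j * x) ≤ nm (A a k) + nm (A a j) := by
    intro a ha
    have h1 := hle a ha
    have h2 := nm_nonneg (A a j)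
    by_cases h3 : nm (A a j) = 1
    · rw [h3, hx, ← mul_assoc]
      exact core A B h.h1 i j k a u v hu hv hjk hL hB3 hBk hp ha (hA3 a) h3
    · have h4 : A a j = 0 := nm_eq_zero.1 (by omega)
      rw [h4, zero_mul, sub_zero, nm_zero, add_zero]
  -- the rows
  have k1 : ∀ a, a ≠ i → a ≠ sg i → NN (A' a) ≤ NN (A a) := by
    intro a h1 h2
    obtain ⟨r1, r2, r3⟩ := hr a h1 h2
    have e := row_le (x := A a - Pi.single k (A a j * x)) j r1 r2 (fun b hb1 hb2 => by
      rw [r3 b hb1 hb2, hA1ab, Pi.sub_apply]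
      by_cases hbk : b = k
      · subst hbk; rw [if_pos rfl, Pi.single_eq_same]
      · rw [if_neg hbk, if_neg hb2, Pi.single_eq_of_ne hbk, sub_zero])
    rw [NN_sub_single, Pi.sub_apply, Pi.sub_apply, Pi.single_eq_of_ne hjk,
      Pi.single_eq_of_ne (Ne.symm hksj), sub_zero, sub_zero] at e
    have p2 := nm_nonneg (A a (sg j))
    have p3 := hent a h1
    omega
  -- the rows of the inverse
  have k2 : ∀ a, a ≠ j → a ≠ sg j → NN (B' a) ≤ NN (B a) := by
    intro a h1 h2
    obtain ⟨r1, r2, r3⟩ := hs a h1 h2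
    have ha1 : sg a ≠ sg j := fun h => h1 (sg_inj h)
    have ha2 : sg a ≠ j := fun h => h2 (sg_eq_iff.1 h)
    by_cases hak : sg a = k
    · -- the column `k`
      have e1 : NN (B' a) ≤ ∑ b, (if sg b = i then 0 else nm (A (sg b) k) + nm (A (sg b) j)) := by
        apply Finset.sum_le_sum
        intro b _
        by_cases hb : sg b = i
        · rw [if_pos hb, sg_eq_iff.1 hb, r2, nm_zero]
        · rw [if_neg hb]
          by_cases hb2 : b = i
          · rw [hb2, r1, nm_zero]
            exact add_nonneg (nm_nonneg _) (nm_nonneg _)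
          · rw [r3 b hb2 (fun h => hb (sg_eq_iff.2 h)), hU1.inv_apply hε, nm_sn hε, nm_star,
              hA1ab, if_pos hak]
            exact hent (sg b) hb
      have e2 : ∑ b, (if sg b = i then 0 else nm (A (sg b) k) + nm (A (sg b) j))
          = ∑ c, (if c = i then 0 else nm (A c k) + nm (A c j)) :=
        Fintype.sum_equiv ⟨sg, sg, sg_sg, sg_sg⟩ _ _ fun a => rfl
      have e3 : ∑ c, (if c = i then 0 else nm (A c k) + nm (A c j))
          = ∑ c, (nm (A c k) + nm (A c j)) - (nm (A i k) + nm (A i j)) := by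
        have e4 : ∀ c, (if c = i then (0 : ℤ) else nm (A c k) + nm (A c j))
            = (nm (A c k) + nm (A c j)) - (if c = i then nm (A i k) + nm (A i j) else 0) := by
          intro c
          by_cases hc : c = i
          · subst hc; rw [if_pos rfl, if_pos rfl, sub_self]
          · rw [if_neg hc, if_neg hc, sub_zero]
        rw [Finset.sum_congr rfl fun c _ => e4 c, Finset.sum_sub_distrib]
        simp
      rw [e2, e3, Finset.sum_add_distrib, hcolj, hcolk, hLj, hLk, hu, hv] at e1
      have e5 : B (sg k) = B a := by rw [← hak, sg_sg]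
      rw [e5] at e1
      omega
    · have e := row_le (x := B a) i r1 r2 (fun b hb1 hb2 => by
        rw [r3 b hb1 hb2, hU1.inv_apply hε, hA1ab, if_neg hak, if_neg ha1, ← h.inv_apply hε])
      have p1 := nm_nonneg (B a i)
      have p2 := nm_nonneg (B a (sg i))
      omega
  have hi2 : NN (A i) + NN (A (sg i)) ≠ 2 := by
    have := one_le_NN A B h.h1 (sg i)
    omega
  obtain ⟨b1, c1⟩ := bounds_of (fun a => one_le_NN A' B' hU'.h1 a) i hA n1 n2 k1
  obtain ⟨b2, c2⟩ := bounds_of (fun a => one_le_NN B' A' hU'.h2 a) j hB n3 n4 k2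
  exact ⟨V, hV, W, hW, A', B', by rw [hA', hA1, mul_assoc], hU', b1, b2,
    cn1_lt c1 i hi2 (by omega), cn1_le c2⟩

theorem main_iso {ε : ℤ} (hε : ε = 1 ∨ ε = -1) : ∀ (n : ℕ) (A B : Matrix (m ⊕ m) (m ⊕ m) S),
    Uni ε A B → Bd1 A → Bd1 B → cn1 A + cn1 B ≤ n → ∀ U : (Matrix (m ⊕ m) (m ⊕ m) S)ˣ,
      U.val = A → U ∈ RU S m ε := by
  intro n
  induction n with
  | zero =>
    intro A B h hA hB hc U hU
    refine Subgroup.subset_closure (Or.inr (Or.inr (Or.inr ⟨by rw [hU]; exact h.qi, fun a => ?_⟩)))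
    have h1 : NN (A a) + NN (A (sg a)) = 2 := by
      by_contra hcon
      have : a ∈ Finset.univ.filter fun a => NN (A a) + NN (A (sg a)) ≠ 2 := by simp [hcon]
      have := Finset.card_pos.2 ⟨a, this⟩
      unfold cn1 at hc
      omega
    have h2 := one_le_NN A B h.h1 a
    have h3 := one_le_NN A B h.h1 (sg a)
    rw [hU]
    omega
  | succ n ih =>
    intro A B h hA hB hc U hU
    have fin1 : StepA ε A B → U ∈ RU S m ε := by
      rintro ⟨V, hV, W, hW, A', B', hA', hU', hb1, hb2, hc1, hc2⟩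
      have h1 := ih A' B' hU' hb1 hb2 (by omega) (V * U * W) (by
        rw [Units.val_mul, Units.val_mul, hU, hA'])
      have h2 : U = V⁻¹ * (V * U * W) * W⁻¹ := by group
      rw [h2]
      exact mul_mem (mul_mem (inv_mem hV) h1) (inv_mem hW)
    have fin2 : StepA ε B A → U ∈ RU S m ε := by
      rintro ⟨V, hV, W, hW, B', A', hB', hU', hb1, hb2, hc1, hc2⟩
      have hUi : U⁻¹.val = B := by
        have h3 : U⁻¹.val * (A * B) = U⁻¹.val := by rw [h.h1, mul_one]
        rw [← h3, ← hU, ← mul_assoc, U.inv_mul, one_mul]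
      have h1 := ih B' A' hU' hb1 hb2 (by omega) (V * U⁻¹ * W) (by
        rw [Units.val_mul, Units.val_mul, hUi, hB'])
      have h2 : U = W * (V * U⁻¹ * W)⁻¹ * V := by group
      rw [h2]
      exact mul_mem (mul_mem hW (inv_mem h1)) hV
    have hs := h.symm
    by_cases hnA : Nop1 A
    · by_cases hnB : Nop1 B
      · by_cases h0 : ∀ a, NN (A a) + NN (A (sg a)) = 2
        · refine Subgroup.subset_closure
            (Or.inr (Or.inr (Or.inr ⟨by rw [hU]; exact h.qi, fun a => ?_⟩)))
          have h1 := h0 a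
          have h2 := one_le_NN A B h.h1 a
          have h3 := one_le_NN A B h.h1 (sg a)
          rw [hU]
          omega
        · push Not at h0
          obtain ⟨i, hi⟩ := h0
          have h1 := hA i
          have h2 := hnA i
          by_cases h3 : NN (A i) = 2
          · exact fin1 (stepA_two hε h hA hB hnA hnB i h3)
          · exact fin1 (stepA_two hε h hA hB hnA hnB (sg i) (by omega))
      · unfold Nop1 at hnB
        push Not at hnB
        obtain ⟨i, hi, hi2⟩ := hnB
        have h2 := one_le_NN B A h.h2 i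
        have h3 := one_le_NN B A h.h2 (sg i)
        by_cases h4 : NN (B i) = 1
        · exact fin2 (stepA_one hε hs hB hA i h4 hi)
        · have h5 := hi2 (by omega)
          exact fin2 (stepA_one hε hs hB hA (sg i) (by omega) (by rw [sg_sg]; omega))
    · unfold Nop1 at hnA
      push Not at hnA
      obtain ⟨i, hi, hi2⟩ := hnA
      have h2 := one_le_NN A B h.h1 i
      have h3 := one_le_NN A B h.h1 (sg i)
      by_cases h4 : NN (A i) = 1
      · exact fin1 (stepA_one hε h hA hB i h4 hi)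
      · have h5 := hi2 (by omega)
        exact fin1 (stepA_one hε h hA hB (sg i) (by omega) (by rw [sg_sg]; omega))

/-- **Isometries which are close to their adjoint inverses.** -/
theorem iso_triv {ε : ℤ} (hε : ε = 1 ∨ ε = -1) (U : (Matrix (m ⊕ m) (m ⊕ m) S)ˣ)
    (h : QI ε U.val) (hA : ∀ a, NN (U.val a) + NN (U.val (sg a)) ≤ 5)
    (hB : ∀ a, NN (U⁻¹.val a) + NN (U⁻¹.val (sg a)) ≤ 5) : U ∈ RU S m ε :=
  main_iso hε _ U.val U⁻¹.val ⟨U.mul_inv, U.inv_mul, h⟩ hA hB le_rfl U rfl

end Pool.Agent.Q181.GP
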