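import Pool.Agent.Q181.GP.Nf
import Pool.Agent.Q181.GP.MainA

set_option autoImplicit false
set_option linter.unusedSectionVars false

/-! Isometries with one entry of norm one in each row, and the generators of Wall. -/

namespace Pool.Agent.Q181.GP

open Matrix LatRing

variable {S : Type} [Ring S] [StarRing S] [LatRing S] {m : Type} [Fintype m] [DecidableEq m]

/-- the swap of one pair of basis vectors -/
def swM (ε : ℤ) (i : m) : Matrix (m ⊕ m) (m ⊕ m) S :=
  fromBlocks (1 - Matrix.single i i 1) (Matrix.single i i 1) (ε • Matrix.single i i 1)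
    (1 - Matrix.single i i 1)

variable (S m) in
/-- The group of Wall: it is generated by the hyperbolic images of the simple automorphisms, the
unipotent isometries and the swaps of one pair. -/
def RW (ε : ℤ) : Subgroup (Matrix (m ⊕ m) (m ⊕ m) S)ˣ := Subgroup.closure
  {x | (∃ P ∈ Simp S m, ∃ Q : Matrix m m S, P.val * Qᴴ = 1 ∧ x.val = fromBlocks P.val 0 0 Q) ∨
    (∃ Z : Matrix m m S, x.val = fromBlocks 1 (Z - ε • Zᴴ) 0 1) ∨
    (∃ Z : Matrix m m S, x.val = fromBlocks 1 0 (Z - ε • Zᴴ) 1) ∨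
    (∃ i : m, x.val = swM ε i)}

theorem swM_row_inl (ε : ℤ) (i : m) (M : Matrix (m ⊕ m) (m ⊕ m) S) (b : m ⊕ m) :
    (swM ε i * M : Matrix (m ⊕ m) (m ⊕ m) S) (Sum.inl i) b = M (Sum.inr i) b := by
  rw [Matrix.mul_apply, Fintype.sum_sum_type]
  simp only [swM, Matrix.fromBlocks_apply₁₁, Matrix.fromBlocks_apply₁₂, Matrix.sub_apply,
    Matrix.one_apply, Matrix.single_apply, true_and, sub_self, zero_mul, Finset.sum_const_zero,
    zero_add, ite_mul, one_mul, Finset.sum_ite_eq, Finset.mem_univ, if_true]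

theorem swM_row_inr (ε : ℤ) (i : m) (M : Matrix (m ⊕ m) (m ⊕ m) S) (b : m ⊕ m) :
    (swM ε i * M : Matrix (m ⊕ m) (m ⊕ m) S) (Sum.inr i) b = ε • M (Sum.inl i) b := by
  rw [Matrix.mul_apply, Fintype.sum_sum_type]
  simp only [swM, Matrix.fromBlocks_apply₂₁, Matrix.fromBlocks_apply₂₂, Matrix.sub_apply,
    Matrix.smul_apply, Matrix.one_apply, Matrix.single_apply, true_and, sub_self, zero_mul,
    Finset.sum_const_zero, add_zero, ite_mul, one_mul, smul_ite, smul_zero, Finset.sum_ite_eq,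
    Finset.mem_univ, if_true, smul_mul_assoc]

theorem swM_row_ne (ε : ℤ) (i : m) (M : Matrix (m ⊕ m) (m ⊕ m) S) (a b : m ⊕ m)
    (h1 : a ≠ Sum.inl i) (h2 : a ≠ Sum.inr i) :
    (swM ε i * M : Matrix (m ⊕ m) (m ⊕ m) S) a b = M a b := by
  rw [Matrix.mul_apply, Fintype.sum_sum_type]
  rcases a with a | a
  · have ha : ¬ i = a := fun h => h1 (by rw [h])
    simp only [swM, Matrix.fromBlocks_apply₁₁, Matrix.fromBlocks_apply₁₂, Matrix.sub_apply,
      Matrix.one_apply, Matrix.single_apply, if_neg ha, ha, false_and, if_false, sub_zero,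
      zero_mul, Finset.sum_const_zero, add_zero, ite_mul, one_mul, Finset.sum_ite_eq,
      Finset.mem_univ, if_true]
  · have ha : ¬ i = a := fun h => h2 (by rw [h])
    simp only [swM, Matrix.fromBlocks_apply₂₁, Matrix.fromBlocks_apply₂₂, Matrix.sub_apply,
      Matrix.smul_apply, Matrix.one_apply, Matrix.single_apply, ha, false_and, if_false,
      smul_zero, sub_zero, zero_mul, Finset.sum_const_zero, zero_add, ite_mul, one_mul,
      Finset.sum_ite_eq, Finset.mem_univ, if_true]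

theorem sw_mul_sw {ε : ℤ} (hε : ε = 1 ∨ ε = -1) (i : m) :
    swM ε i * (ε • fromBlocks (ε • (1 - Matrix.single i i 1)) (Matrix.single i i 1)
      (ε • Matrix.single i i 1) (ε • (1 - Matrix.single i i 1)) : Matrix (m ⊕ m) (m ⊕ m) S) = 1 := by
  have e1 : (Matrix.single i i 1 : Matrix m m S) * Matrix.single i i 1 = Matrix.single i i 1 := by
    rw [Matrix.single_mul_single_same, one_mul]
  rw [swM, mul_smul_comm, fromBlocks_multiply, Matrix.fromBlocks_smul, ← Matrix.fromBlocks_one]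
  rcases hε with rfl | rfl
  · simp only [one_smul, sub_mul, mul_sub, one_mul, mul_one, e1]
    congr 1 <;> abel
  · simp only [neg_smul, one_smul, sub_mul, mul_sub, one_mul, mul_one, e1, mul_neg, neg_mul]
    congr 1 <;> abel

theorem sw_mul_sw' {ε : ℤ} (hε : ε = 1 ∨ ε = -1) (i : m) :
    (ε • fromBlocks (ε • (1 - Matrix.single i i 1)) (Matrix.single i i 1)
      (ε • Matrix.single i i 1) (ε • (1 - Matrix.single i i 1)) : Matrix (m ⊕ m) (m ⊕ m) S) *
      swM ε i = 1 := by
  have e1 : (Matrix.single i i 1 : Matrix m m S) * Matrix.single i i 1 = Matrix.single i i 1 := by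
    rw [Matrix.single_mul_single_same, one_mul]
  rw [swM, smul_mul_assoc, fromBlocks_multiply, Matrix.fromBlocks_smul, ← Matrix.fromBlocks_one]
  rcases hε with rfl | rfl
  · simp only [one_smul, sub_mul, mul_sub, one_mul, mul_one, e1]
    congr 1 <;> abel
  · simp only [neg_smul, one_smul, sub_mul, mul_sub, one_mul, mul_one, e1, mul_neg, neg_mul]
    congr 1 <;> abel

/-- the swap as a unit -/
def swU {ε : ℤ} (hε : ε = 1 ∨ ε = -1) (i : m) : (Matrix (m ⊕ m) (m ⊕ m) S)ˣ :=
  ⟨swM ε i, _, sw_mul_sw hε i, sw_mul_sw' hε i⟩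

theorem swM_QI {ε : ℤ} (hε : ε = 1 ∨ ε = -1) (i : m) :
    QI ε (swM ε i : Matrix (m ⊕ m) (m ⊕ m) S) := by
  have e1 : (Matrix.single i i 1 : Matrix m m S) * Matrix.single i i 1 = Matrix.single i i 1 := by
    rw [Matrix.single_mul_single_same, one_mul]
  have e2 : (Matrix.single i i 1 : Matrix m m S)ᴴ = Matrix.single i i 1 := by
    rw [Matrix.conjTranspose_single, star_one]
  refine ⟨fromBlocks 0 0 (ε • Matrix.single i i 1) 0 , ?_⟩
  rw [swM, hy, fromBlocks_conjTranspose, fromBlocks_multiply, fromBlocks_multiply,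
    fromBlocks_conjTranspose, conj_zsmul, conjTranspose_sub, conjTranspose_one, e2,
    conjTranspose_zero, Matrix.fromBlocks_smul, sub_eq_add_neg (fromBlocks 0 0 _ 0),
    Matrix.fromBlocks_neg, Matrix.fromBlocks_add, Matrix.fromBlocks_add]
  rcases hε with rfl | rfl
  · simp only [one_smul, sub_mul, mul_sub, one_mul, mul_one, e1, mul_zero, zero_add, add_zero,
      smul_zero, neg_zero, zero_mul]
    congr 1 <;> abel
  · simp only [neg_smul, one_smul, sub_mul, mul_sub, one_mul, mul_one, e1, mul_neg, neg_mul,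
      mul_zero, zero_add, add_zero, smul_zero, neg_zero, zero_mul, neg_neg]
    congr 1 <;> abel

theorem one_le_NN' {κ : Type} [Fintype κ] [DecidableEq κ] (L M : Matrix κ κ S) (h : L * M = 1)
    (a : κ) : 1 ≤ NN (L a) := by
  have h1 := NN_nonneg (L a)
  rcases Int.lt_or_le 0 (NN (L a)) with h2 | h2
  · omega
  · have h3 : L a = 0 := NN_eq_zero (by omega)
    have h4 := congrFun (row_mul L M h a) a
    rw [h3, Matrix.zero_vecMul, Pi.zero_apply, Pi.single_eq_same] at h4
    exact absurd h4.symm one_ne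

theorem mono_diag {ε : ℤ} (hε : ε = 1 ∨ ε = -1) (x : (Matrix (m ⊕ m) (m ⊕ m) S)ˣ)
    (hq : QI ε x.val) (hx : ∀ a, NN (x.val a) = 1)
    (h0 : ∀ i j, x.val (Sum.inl i) (Sum.inr j) = 0) : x ∈ RW S m ε := by
  have hU : Uni ε x.val x⁻¹.val := ⟨x.mul_inv, x.inv_mul, hq⟩
  have h1 : ∀ i j, x⁻¹.val (Sum.inl i) (Sum.inr j) = 0 := by
    intro i j
    rw [hU.inv_apply hε]
    change _ • star (x.val (Sum.inl j) (Sum.inr i)) = 0
    rw [h0, star_zero, smul_zero]
  set A := x.val with hA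
  set B := x⁻¹.val with hB
  have eA : A = fromBlocks A.toBlocks₁₁ A.toBlocks₁₂ A.toBlocks₂₁ A.toBlocks₂₂ :=
    (Matrix.fromBlocks_toBlocks A).symm
  have eB : B = fromBlocks B.toBlocks₁₁ B.toBlocks₁₂ B.toBlocks₂₁ B.toBlocks₂₂ :=
    (Matrix.fromBlocks_toBlocks B).symm
  have hA12 : A.toBlocks₁₂ = 0 := by ext i j; exact h0 i j
  have hB12 : B.toBlocks₁₂ = 0 := by ext i j; exact h1 i j
  rw [hA12] at eA
  rw [hB12] at eB
  have h2 := hU.h1
  have h3 := hU.h2
  rw [eA, eB, fromBlocks_multiply, ← Matrix.fromBlocks_one, Matrix.fromBlocks_inj] at h2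
  rw [eA, eB, fromBlocks_multiply, ← Matrix.fromBlocks_one, Matrix.fromBlocks_inj] at h3
  obtain ⟨a1, -, -, a4⟩ := h2
  obtain ⟨b1, -, -, b4⟩ := h3
  rw [Matrix.zero_mul, add_zero] at a1 b1
  rw [Matrix.mul_zero, zero_add] at a4 b4
  have h4 : ∀ a, NN (A.toBlocks₁₁ a) = 1 := by
    intro a
    have h5 := hx (Sum.inl a)
    unfold NN at h5
    rw [Fintype.sum_sum_type] at h5
    have h6 : ∑ j, nm (A (Sum.inl a) (Sum.inr j)) = 0 :=
      Finset.sum_eq_zero fun j _ => by rw [h0, nm_zero]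
    rw [h6, add_zero] at h5
    exact h5
  have h5 : A.toBlocks₂₁ = 0 := by
    ext a b
    have h5 := hx (Sum.inr a)
    unfold NN at h5
    rw [Fintype.sum_sum_type] at h5
    have h6 := one_le_NN' _ _ a4 a
    have h7 : ∑ j, nm (A (Sum.inr a) (Sum.inr j)) = NN (A.toBlocks₂₂ a) := rfl
    have h8 := NN_nonneg (A.toBlocks₂₁ a)
    have h9 : ∑ j, nm (A (Sum.inr a) (Sum.inl j)) = NN (A.toBlocks₂₁ a) := rfl
    have h10 : NN (A.toBlocks₂₁ a) = 0 := by omega
    exact congrFun (NN_eq_zero h10) b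
  rw [h5] at eA
  let P : (Matrix m m S)ˣ := ⟨A.toBlocks₁₁, B.toBlocks₁₁, a1, b1⟩
  have h6 : B.toBlocks₁₁ = A.toBlocks₂₂ᴴ := by
    ext i j
    rw [conjTranspose_apply]
    change B (Sum.inl i) (Sum.inl j) = star (A (Sum.inr j) (Sum.inr i))
    rw [hU.inv_apply hε]
    change ((1 : ℤ) * 1) • star (A (Sum.inr j) (Sum.inr i)) = _
    rw [mul_one, one_smul]
  refine Subgroup.subset_closure (Or.inl ⟨P, mono_mem P h4, A.toBlocks₂₂, ?_, eA⟩)
  rw [← h6]; exact a1

theorem mono_RW {ε : ℤ} (hε : ε = 1 ∨ ε = -1) : ∀ (n : ℕ) (x : (Matrix (m ⊕ m) (m ⊕ m) S)ˣ),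
    QI ε x.val → (∀ a, NN (x.val a) = 1) →
    {i | ∀ j, x.val (Sum.inl i) (Sum.inl j) = 0}.ncard ≤ n → x ∈ RW S m ε := by
  classical
  intro n
  induction n with
  | zero =>
    intro x hq hx hc
    refine mono_diag hε x hq hx fun i j => ?_
    obtain ⟨p, t, ht, hp⟩ := split1 (hx (Sum.inl i))
    rcases p with p | p
    · rw [hp, Pi.single_eq_of_ne (by simp)]
    · exfalso
      have h1 : i ∈ {i | ∀ j, x.val (Sum.inl i) (Sum.inl j) = 0} := fun j => by
        rw [hp, Pi.single_eq_of_ne (by simp)]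
      have h2 := (Set.ncard_eq_zero (Set.toFinite _)).1 (Nat.le_zero.1 hc)
      rw [h2] at h1
      exact h1
  | succ n ih =>
    intro x hq hx hc
    by_cases h0 : ∀ i j, x.val (Sum.inl i) (Sum.inr j) = 0
    · exact mono_diag hε x hq hx h0
    push Not at h0
    obtain ⟨i, j, hij⟩ := h0
    have hU : Uni ε x.val x⁻¹.val := ⟨x.mul_inv, x.inv_mul, hq⟩
    obtain ⟨p, t, ht, hp⟩ := split1 (hx (Sum.inl i))
    have hpj : p = Sum.inr j := by
      by_contra hne
      rw [hp, Pi.single_eq_of_ne (Ne.symm hne)] at hij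
      exact hij rfl
    subst hpj
    have h1 : x.val (Sum.inr i) (Sum.inl j) ≠ 0 := by
      intro hz
      have h2 := congrFun (row_mul x.val x⁻¹.val x.mul_inv (Sum.inl i)) (Sum.inl i)
      rw [hp, single_vecMul', Pi.single_eq_same, Pi.smul_apply, hU.inv_apply hε] at h2
      change t • (_ • star (x.val (Sum.inr i) (Sum.inl j))) = 1 at h2
      rw [hz, star_zero, smul_zero, smul_zero] at h2
      exact one_ne h2.symm
    let y : (Matrix (m ⊕ m) (m ⊕ m) S)ˣ := swU hε i * x
    have hy1 : ∀ b, y.val (Sum.inl i) b = x.val (Sum.inr i) b := fun b =>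
      swM_row_inl ε i x.val b
    have hy2 : ∀ b, y.val (Sum.inr i) b = ε • x.val (Sum.inl i) b := fun b =>
      swM_row_inr ε i x.val b
    have hy3 : ∀ a b, a ≠ Sum.inl i → a ≠ Sum.inr i → y.val a b = x.val a b := fun a b h h' =>
      swM_row_ne ε i x.val a b h h'
    have hyx : y ∈ RW S m ε := by
      refine ih y ((swM_QI hε i).mul hq) ?_ ?_
      · intro a
        by_cases h2 : a = Sum.inl i
        · subst h2
          rw [show y.val (Sum.inl i) = x.val (Sum.inr i) from funext hy1]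
          exact hx _
        · by_cases h3 : a = Sum.inr i
          · subst h3
            have : y.val (Sum.inr i) = fun b => ε • x.val (Sum.inl i) b := funext hy2
            rw [this, ← hx (Sum.inl i)]
            exact Finset.sum_congr rfl fun b _ => nm_eps hε _
          · rw [show y.val a = x.val a from funext fun b => hy3 a b h2 h3]
            exact hx a
      · have hlt : {i | ∀ j, y.val (Sum.inl i) (Sum.inl j) = 0}.ncard <
            {i | ∀ j, x.val (Sum.inl i) (Sum.inl j) = 0}.ncard := by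
          apply Set.ncard_lt_ncard _ (Set.toFinite _)
          rw [Set.ssubset_iff_of_subset]
          · refine ⟨i, ?_, ?_⟩
            · intro j
              rw [hp, Pi.single_eq_of_ne (by simp)]
            · intro h2
              exact h1 (by rw [← hy1]; exact h2 j)
          · intro a ha b
            by_cases hai : a = i
            · subst hai
              rw [hp, Pi.single_eq_of_ne (by simp)]
            · rw [← hy3 (Sum.inl a) (Sum.inl b) (by simpa using hai) (by simp)]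
              exact ha b
        omega
    have hsw : (swU hε i : (Matrix (m ⊕ m) (m ⊕ m) S)ˣ) ∈ RW S m ε :=
      Subgroup.subset_closure (Or.inr (Or.inr (Or.inr ⟨i, rfl⟩)))
    have : x = (swU hε i)⁻¹ * y := by
      change x = (swU hε i)⁻¹ * (swU hε i * x)
      rw [inv_mul_cancel_left]
    rw [this]
    exact mul_mem (inv_mem hsw) hyx

theorem RU_le_RW {ε : ℤ} (hε : ε = 1 ∨ ε = -1) : RU S m ε ≤ RW S m ε := by
  unfold RU
  rw [Subgroup.closure_le]
  rintro x (⟨i, j, c, hij, hx⟩ | ⟨Z, hx⟩ | ⟨Z, hx⟩ | ⟨hx, hx2⟩)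
  · exact Subgroup.subset_closure (Or.inl ⟨eU i j hij c, eU_mem i j hij c, _,
      diag_unit i j hij c, hx⟩)
  · exact Subgroup.subset_closure (Or.inr (Or.inl ⟨Z, hx⟩))
  · exact Subgroup.subset_closure (Or.inr (Or.inr (Or.inl ⟨Z, hx⟩)))
  · exact mono_RW hε _ x hx hx2 le_rfl

/-- **Isometries which are close to their inverses.** -/
theorem iso_RW {ε : ℤ} (hε : ε = 1 ∨ ε = -1) (U : (Matrix (m ⊕ m) (m ⊕ m) S)ˣ)
    (h : QI ε U.val) (hA : ∀ a, NN (U.val a) + NN (U.val (sg a)) ≤ 5)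
    (hB : ∀ a, NN (U⁻¹.val a) + NN (U⁻¹.val (sg a)) ≤ 5) : U ∈ RW S m ε :=
  RU_le_RW hε (iso_triv hε U h hA hB)

end Pool.Agent.Q181.GP
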