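import Pool.Agent.Q181.GP.Nf2
import Pool.Agent.Q181.GP.Nf3
import Pool.Agent.Y75.Th.Norm
import Pool.Agent.TH6.PF.OddB

set_option autoImplicit false
set_option linter.unusedSectionVars false

/-! Integral group rings with the involution twisted by an orientation character. -/

namespace Pool.Agent.Q181.GP

open Matrix LatRing TH57.Thr TH6.LF TH6.PF Pool.Agent.Y75.Th

variable {Γ : Type} [Group Γ]

/-- the group ring as a ring with involution -/
@[reducible] noncomputable def srw (w : Γ →* ℤˣ) : StarRing (MonoidAlgebra ℤ Γ) where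
  star := sbar w
  star_involutive := sbar_sbar w
  star_mul := sbar_mul w
  star_add := sbar_add w

theorem nsq_sbar (w : Γ →* ℤˣ) (x : MonoidAlgebra ℤ Γ) : nsq (sbar w x) = nsq x :=
  nsq_of_equiv _ _ (Equiv.inv Γ) fun g => by
    rw [coeff_sbar]
    have h := w_sq w g⁻¹
    simp only [Equiv.inv_apply, inv_inv, star_trivial, smul_eq_mul, mul_pow]
    rw [pow_two ((w g⁻¹ : ℤˣ) : ℤ), h, one_mul]

/-- the inner product -/
noncomputable def gip (x y : MonoidAlgebra ℤ Γ) : ℤ := (x * bar y).coeff 1

theorem gip_add_left (x y z : MonoidAlgebra ℤ Γ) : gip (x + y) z = gip x z + gip y z := by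
  unfold gip
  rw [add_mul, MonoidAlgebra.coeff_add, Finsupp.add_apply]

theorem gip_comm (x y : MonoidAlgebra ℤ Γ) : gip x y = gip y x := by
  classical
  unfold gip
  rw [coeff_mul_bar_one x y (x.coeff.support ∪ y.coeff.support) Finset.subset_union_left,
    coeff_mul_bar_one y x (x.coeff.support ∪ y.coeff.support) Finset.subset_union_right]
  exact Finset.sum_congr rfl fun g _ => mul_comm _ _

theorem gip_self (x : MonoidAlgebra ℤ Γ) : gip x x = nsq x := by
  unfold gip
  rw [coeff_mul_bar_one x x _ (Finset.Subset.refl _), nsq_eq x _ (Finset.Subset.refl _)]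
  exact Finset.sum_congr rfl fun g _ => (pow_two _).symm

theorem gip_polar (x y : MonoidAlgebra ℤ Γ) : 2 * gip x y = nsq (x + y) - nsq x - nsq y := by
  rw [nsq_add]; unfold gip; ring

theorem gip_map (f : MonoidAlgebra ℤ Γ → MonoidAlgebra ℤ Γ)
    (hadd : ∀ x y, f (x + y) = f x + f y) (hf : ∀ x, nsq (f x) = nsq x)
    (x y : MonoidAlgebra ℤ Γ) : gip (f x) (f y) = gip x y := by
  have h1 := gip_polar (f x) (f y)
  have h2 := gip_polar x y
  rw [← hadd, hf, hf, hf] at h1
  omega

/-- the augmentation modulo two -/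
noncomputable def aug2 : MonoidAlgebra ℤ Γ →+* ZMod 2 :=
  (MonoidAlgebra.lift ℤ (ZMod 2) Γ 1).toRingHom

theorem aug2_eq (x : MonoidAlgebra ℤ Γ) : aug2 x = ((nsq x : ℤ) : ZMod 2) := by
  have h1 : aug2 x = ∑ g ∈ x.coeff.support, ((x.coeff g : ℤ) : ZMod 2) := by
    change MonoidAlgebra.lift ℤ (ZMod 2) Γ 1 x = _
    rw [MonoidAlgebra.lift_apply, Finsupp.sum]
    exact Finset.sum_congr rfl fun g _ => by simp
  rw [h1, nsq_eq x _ (Finset.Subset.refl _), Int.cast_sum]
  refine Finset.sum_congr rfl fun g _ => ?_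
  rw [Int.cast_pow]
  have h2 : ∀ z : ZMod 2, z = z ^ 2 := by decide
  exact h2 _

/-- the lattice structure of the group ring -/
@[reducible] noncomputable def lat (w : Γ →* ℤˣ) :
    @LatRing (MonoidAlgebra ℤ Γ) _ (srw w) :=
  letI := srw w
  { ip := gip
    ip_add_left := gip_add_left
    ip_comm := gip_comm
    ip_nonneg := fun x => by rw [gip_self]; exact nsq_nonneg x
    ip_zero := fun x h => by rw [gip_self] at h; exact nsq_eq_zero h
    ip_star := gip_map (sbar w) (sbar_add w) (nsq_sbar w)
    ip_one := by rw [gip_self, MonoidAlgebra.one_def, nsq_single]; norm_num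
    unit := fun u hu => by
      rw [gip_self] at hu
      obtain ⟨c, e, he, rfl⟩ := eq_single_of_nsq_one hu
      refine ⟨MonoidAlgebra.single c⁻¹ e, ?_, ?_, ?_⟩
      · rw [MonoidAlgebra.single_mul_single, mul_inv_cancel, ← pow_two, he]; rfl
      · rw [MonoidAlgebra.single_mul_single, inv_mul_cancel, ← pow_two, he]; rfl
      · rw [gip_self, nsq_single, he]
    left := fun u hu => by
      rw [gip_self] at hu
      obtain ⟨c, e, he, rfl⟩ := eq_single_of_nsq_one hu
      exact gip_map _ (fun x y => mul_add _ x y) fun x => nsq_single_mul c e he x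
    right := fun u hu => by
      rw [gip_self] at hu
      obtain ⟨c, e, he, rfl⟩ := eq_single_of_nsq_one hu
      exact gip_map _ (fun x y => add_mul x y _) fun x => nsq_mul_single c e he x
    par := aug2
    par_ip := fun x => by rw [gip_self, aug2_eq] }

end Pool.Agent.Q181.GP
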