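import Pool.Agent.Q181.GP.Step2

set_option autoImplicit false
set_option linter.unusedSectionVars false

/-! The theorem for forms. -/

namespace Pool.Agent.Q181.GP

open Matrix LatRing

variable {S : Type} [Ring S] [StarRing S] [LatRing S] {κ : Type} [Fintype κ] [DecidableEq κ]

/-- equivalent to a form all of whose rows have a single entry -/
def Triv (L : Matrix κ κ S) : Prop :=
  ∃ U ∈ Simp S κ, ∀ a, NN ((U.val * L * U.valᴴ) a) = 1

theorem Triv.of_conj {L : Matrix κ κ S} {U : (Matrix κ κ S)ˣ} (hU : U ∈ Simp S κ)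
    (h : Triv (U.val * L * U.valᴴ)) : Triv L := by
  obtain ⟨V, hV, h1⟩ := h
  refine ⟨V * U, mul_mem hV hU, ?_⟩
  have e : (V * U).val * L * (V * U).valᴴ = V.val * (U.val * L * U.valᴴ) * V.valᴴ := by
    rw [Units.val_mul, conjTranspose_mul]; simp only [mul_assoc]
  rw [e]; exact h1

theorem Simp_star {U : (Matrix κ κ S)ˣ} (hU : U ∈ Simp S κ) :
    ∃ V ∈ Simp S κ, V.val = U⁻¹.valᴴ := by
  have key : ∀ U : (Matrix κ κ S)ˣ, U ∈ Simp S κ → star U ∈ Simp S κ := by
    intro U hU
    refine Subgroup.closure_induction (p := fun x _ => star x ∈ Simp S κ) ?_ ?_ ?_ ?_ hU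
    · rintro x (⟨i, j, c, hij, hx⟩ | ⟨i, u, hu, hx⟩)
      · refine Subgroup.subset_closure (Or.inl ⟨j, i, star c, Ne.symm hij, ?_⟩)
        rw [Units.coe_star, hx, star_add, star_one, Matrix.star_eq_conjTranspose,
          Matrix.conjTranspose_single]
      · refine Subgroup.subset_closure (Or.inr ⟨i, star u, by rw [nm_star, hu], ?_⟩)
        rw [Units.coe_star, hx, Matrix.star_eq_conjTranspose, Matrix.diagonal_conjTranspose]
        congr 1
        funext a
        rw [Pi.star_apply]
        by_cases ha : a = i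
        · subst ha; rw [Function.update_self, Function.update_self]
        · rw [Function.update_of_ne ha, Function.update_of_ne ha, Pi.one_apply, star_one]
    · rw [star_one]; exact one_mem _
    · intro x y _ _ hx hy; rw [star_mul]; exact mul_mem hy hx
    · intro x _ hx
      have : star x⁻¹ = (star x)⁻¹ := by
        rw [eq_inv_iff_mul_eq_one, ← star_mul, mul_inv_cancel, star_one]
      rw [this]; exact inv_mem hx
  exact ⟨star U⁻¹, key _ (inv_mem hU), by rw [Units.coe_star]; rfl⟩

/-- the rows of the inverse of a form with single entries -/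
theorem inv_single {ε : ℤ} (hε : ε = 1 ∨ ε = -1) {L M : Matrix κ κ S} (h : Frm ε L M)
    (h1 : ∀ a, NN (L a) = 1) (a : κ) : NN (M a) = 1 := by
  obtain ⟨j, t, ht, hj⟩ := split1 (h1 a)
  obtain ⟨p, s, hs, hp⟩ := split1 (h1 j)
  have h2 : L j a = ε • star t := by rw [h.entry hε, hj, Pi.single_eq_same]
  have hpa : p = a := by
    by_contra hpa
    rw [hp, Pi.single_eq_of_ne (Ne.symm hpa)] at h2
    have h3 : nm (ε • star t) = 1 := by rw [nm_eps hε, nm_star, ht]
    rw [← h2, nm_zero] at h3
    omega
  subst hpa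
  have h3 := row_mul L M h.h1 j
  rw [hp, single_vecMul'] at h3
  rw [← NN_smul s hs, h3, NN_single, nm_one]

theorem Triv.symm {ε : ℤ} (hε : ε = 1 ∨ ε = -1) {L M : Matrix κ κ S} (h : Frm ε L M)
    (hM : Triv M) : Triv L := by
  obtain ⟨U, hU, h1⟩ := hM
  obtain ⟨V, hV, hVU⟩ := Simp_star hU
  refine ⟨V, hV, ?_⟩
  have hF := ((h.symm hε).conj U).symm hε
  have hF2 := (h.symm hε).conj U
  have h2 := inv_single hε hF2 h1
  have e : V.val * L * V.valᴴ = U⁻¹.valᴴ * L * U⁻¹.val := by
    rw [hVU, conjTranspose_conjTranspose]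
  rw [e]
  exact h2

/-- the number of unfinished rows -/
def cnt (L M : Matrix κ κ S) : ℕ := (Finset.univ.filter fun a => NN (L a) + NN (M a) ≠ 2).card

theorem cnt_symm (L M : Matrix κ κ S) : cnt L M = cnt M L := by
  unfold cnt; congr 1; ext a; simp only [Finset.mem_filter, add_comm]

theorem Step.cnt {ε : ℤ} {L M : Matrix κ κ S} (h : Step ε L M) :
    ∃ U ∈ Simp S κ, ∃ M', Frm ε (U.val * L * U.valᴴ) M' ∧ Bd (U.val * L * U.valᴴ) M' ∧
      cnt (U.val * L * U.valᴴ) M' < cnt L M := by
  obtain ⟨U, hU, L', M', hL', hF, hB, h1, i, h2, h3⟩ := h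
  subst hL'
  refine ⟨U, hU, M', hF, hB, ?_⟩
  apply Finset.card_lt_card
  rw [Finset.ssubset_iff_of_subset]
  · exact ⟨i, by simp [h2], by simp [h3]⟩
  · intro a ha
    rw [Finset.mem_filter] at ha ⊢
    exact ⟨Finset.mem_univ a, fun h => ha.2 (h1 a h)⟩

theorem main_triv {ε : ℤ} (hε : ε = 1 ∨ ε = -1) : ∀ (n : ℕ) (L M : Matrix κ κ S), Frm ε L M →
    Bd L M → cnt L M ≤ n → Triv L := by
  intro n
  induction n with
  | zero =>
    intro L M h hb hc
    refine ⟨1, one_mem _, fun a => ?_⟩
    have h1 : NN (L a) + NN (M a) = 2 := by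
      by_contra hcon
      have : a ∈ Finset.univ.filter fun a => NN (L a) + NN (M a) ≠ 2 := by simp [hcon]
      have := Finset.card_pos.2 ⟨a, this⟩
      unfold cnt at hc
      omega
    have h2 := one_le_NN L M h.h1 a
    have h3 := one_le_NN M L h.h2 a
    rw [Units.val_one, one_mul, conjTranspose_one, mul_one]
    omega
  | succ n ih =>
    intro L M h hb hc
    by_cases h0 : ∀ a, NN (L a) + NN (M a) = 2
    · refine ⟨1, one_mem _, fun a => ?_⟩
      have h1 := h0 a
      have h2 := one_le_NN L M h.h1 a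
      have h3 := one_le_NN M L h.h2 a
      rw [Units.val_one, one_mul, conjTranspose_one, mul_one]
      omega
    · have hb' : Bd M L := fun a => by have := hb a; omega
      have hs := h.symm hε
      have fin1 : Step ε L M → Triv L := by
        intro hst
        obtain ⟨U, hU, M', hF, hB, hlt⟩ := hst.cnt
        exact Triv.of_conj hU (ih _ _ hF hB (by omega))
      have fin2 : Step ε M L → Triv L := by
        intro hst
        obtain ⟨U, hU, M', hF, hB, hlt⟩ := hst.cnt
        rw [← cnt_symm L M] at hlt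
        exact Triv.symm hε h (Triv.of_conj hU (ih _ _ hF hB (by omega)))
      by_cases hn : Nop L M
      · push Not at h0
        obtain ⟨i, hi⟩ := h0
        have h1 := hb i
        have h2 := hn i
        have hn' : Nop M L := fun a => by have := hn a; omega
        by_cases h3 : NN (L i) = 2
        · exact fin1 (step_two hε h hb hn i h3)
        · exact fin2 (step_two hε hs hb' hn' i (by omega))
      · unfold Nop at hn
        push Not at hn
        obtain ⟨i, hi, hi2⟩ := hn
        have h2 := one_le_NN L M h.h1 i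
        have h3 := one_le_NN M L h.h2 i
        by_cases h4 : NN (L i) = 1
        · exact fin1 (step_one hε h hb i h4 hi)
        · have h5 := hi2 (by omega)
          exact fin2 (step_one hε hs hb' i (by omega) (by omega))

/-- **Forms which are close to their inverses.** -/
theorem forms_triv {ε : ℤ} (hε : ε = 1 ∨ ε = -1) (L M : Matrix κ κ S) (h : Frm ε L M)
    (hb : ∀ a, NN (L a) + NN (M a) ≤ 5) : Triv L := main_triv hε _ L M h hb le_rfl

end Pool.Agent.Q181.GP
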