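import Pool.Agent.Q181.GP.Main
import Pool.Agent.Q181.GP.Aut

set_option autoImplicit false
set_option linter.unusedSectionVars false

/-! Matrices with one entry of norm one in each row, and the normal form of the forms. -/

namespace Pool.Agent.Q181.GP

open Matrix LatRing

variable {S : Type} [Ring S] [StarRing S] [LatRing S] {κ : Type} [Fintype κ] [DecidableEq κ]

/-- the unit given by a diagonal matrix -/
noncomputable def dU (D : κ → S) (h : ∀ a, nm (D a) = 1) : (Matrix κ κ S)ˣ where
  val := Matrix.diagonal D
  inv := Matrix.diagonal fun a => iv (D a)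
  val_inv := by
    rw [Matrix.diagonal_mul_diagonal, ← Matrix.diagonal_one]
    congr 1
    funext a
    exact (iv_spec (D a) (h a)).1
  inv_val := by
    rw [Matrix.diagonal_mul_diagonal, ← Matrix.diagonal_one]
    congr 1
    funext a
    exact (iv_spec (D a) (h a)).2.1

theorem dU_mem (D : κ → S) (h : ∀ a, nm (D a) = 1) : dU D h ∈ Simp S κ := by
  classical
  have key : ∀ (s : Finset κ) (D : κ → S) (h : ∀ a, nm (D a) = 1), (∀ a, a ∉ s → D a = 1) →
      dU D h ∈ Simp S κ := by
    intro s
    induction s using Finset.induction_on with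
    | empty =>
      intro D h h1
      have h2 : dU D h = 1 := by
        apply Units.ext
        change Matrix.diagonal D = 1
        rw [← Matrix.diagonal_one]
        congr 1
        funext a
        exact h1 a (by simp)
      rw [h2]; exact one_mem _
    | insert a s ha ih =>
      intro D h h1
      have h2 : ∀ b, nm (Function.update D a 1 b) = 1 := by
        intro b
        by_cases hb : b = a
        · subst hb; rw [Function.update_self, nm_one]
        · rw [Function.update_of_ne hb, h]
      have h3 : ∀ b, nm (Function.update (1 : κ → S) a (D a) b) = 1 := by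
        intro b
        by_cases hb : b = a
        · subst hb; rw [Function.update_self, h]
        · rw [Function.update_of_ne hb, Pi.one_apply, nm_one]
      have h4 : dU D h = dU _ h3 * dU _ h2 := by
        apply Units.ext
        rw [Units.val_mul]
        change Matrix.diagonal D = Matrix.diagonal _ * Matrix.diagonal _
        rw [Matrix.diagonal_mul_diagonal]
        congr 1
        funext b
        by_cases hb : b = a
        · subst hb; rw [Function.update_self, Function.update_self, mul_one]
        · rw [Function.update_of_ne hb, Function.update_of_ne hb, Pi.one_apply, one_mul]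
      rw [h4]
      refine mul_mem (Subgroup.subset_closure (Or.inr ⟨a, D a, h a, rfl⟩)) (ih _ _ fun b hb => ?_)
      by_cases hba : b = a
      · rw [hba, Function.update_self]
      · rw [Function.update_of_ne hba]
        exact h1 b (by simp [hba, hb])
  exact key Finset.univ D h fun a ha => absurd (Finset.mem_univ a) ha

/-- the unit given by an elementary matrix -/
def eU (i j : κ) (hij : i ≠ j) (c : S) : (Matrix κ κ S)ˣ where
  val := 1 + Matrix.single i j c
  inv := 1 + Matrix.single i j (-c)
  val_inv := by
    rw [add_mul, one_mul, mul_add, mul_one, Matrix.single_mul_single_of_ne _ _ _ _ (Ne.symm hij),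
      add_zero, add_assoc, ← Matrix.single_add, neg_add_cancel, Matrix.single_zero, add_zero]
  inv_val := by
    rw [add_mul, one_mul, mul_add, mul_one, Matrix.single_mul_single_of_ne _ _ _ _ (Ne.symm hij),
      add_zero, add_assoc, ← Matrix.single_add, add_neg_cancel, Matrix.single_zero, add_zero]

theorem eU_mem (i j : κ) (hij : i ≠ j) (c : S) : eU i j hij c ∈ Simp S κ :=
  Subgroup.subset_closure (Or.inl ⟨i, j, c, hij, rfl⟩)

/-- the matrix of a permutation -/
def pM (σ : Equiv.Perm κ) : Matrix κ κ S := Matrix.of fun a => Pi.single (σ a) 1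

theorem pM_apply (σ : Equiv.Perm κ) (a b : κ) :
    (pM σ : Matrix κ κ S) a b = (Pi.single (σ a) 1 : κ → S) b := rfl

theorem pM_mul (σ τ : Equiv.Perm κ) : (pM σ * pM τ : Matrix κ κ S) = pM (τ * σ) := by
  ext a b
  rw [Matrix.mul_apply, Finset.sum_eq_single (σ a)]
  · rw [pM_apply, pM_apply, pM_apply, Pi.single_eq_same, one_mul]; rfl
  · intro c _ hc; rw [pM_apply, Pi.single_eq_of_ne hc, zero_mul]
  · intro h; exact absurd (Finset.mem_univ _) h

theorem pM_one : (pM (1 : Equiv.Perm κ) : Matrix κ κ S) = 1 := by
  ext a b
  rw [pM_apply, Matrix.one_apply, Pi.single_apply]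
  simp only [Equiv.Perm.one_apply, eq_comm]

/-- the unit given by a permutation -/
def pU (σ : Equiv.Perm κ) : (Matrix κ κ S)ˣ where
  val := pM σ
  inv := pM σ⁻¹
  val_inv := by rw [pM_mul, inv_mul_cancel, pM_one]
  inv_val := by rw [pM_mul, mul_inv_cancel, pM_one]

theorem pU_apply (σ : Equiv.Perm κ) (a b : κ) :
    (pU σ : (Matrix κ κ S)ˣ).val a b = (Pi.single (σ a) 1 : κ → S) b := rfl

theorem pU_mul (σ τ : Equiv.Perm κ) : (pU σ * pU τ : (Matrix κ κ S)ˣ) = pU (τ * σ) :=
  Units.ext (pM_mul σ τ)

theorem pU_mem (σ : Equiv.Perm κ) : (pU σ : (Matrix κ κ S)ˣ) ∈ Simp S κ := by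
  classical
  induction σ using Equiv.Perm.swap_induction_on with
  | one =>
    have : (pU (1 : Equiv.Perm κ) : (Matrix κ κ S)ˣ) = 1 := Units.ext pM_one
    rw [this]; exact one_mem _
  | swap_mul f x y hxy ih =>
    rw [← pU_mul]
    refine mul_mem ih ?_
    have h1 : ∀ b, nm (Function.update (1 : κ → S) y (-1) b) = 1 := by
      intro b
      by_cases hb : b = y
      · subst hb; rw [Function.update_self, nm_neg, nm_one]
      · rw [Function.update_of_ne hb, Pi.one_apply, nm_one]
    have h2 : (pU (Equiv.swap x y) : (Matrix κ κ S)ˣ)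
        = dU _ h1 * (eU x y hxy 1 * eU y x (Ne.symm hxy) (-1) * eU x y hxy 1) := by
      apply Units.ext
      rw [Units.val_mul, Units.val_mul, Units.val_mul]
      change _ = Matrix.diagonal _ * ((1 + Matrix.single x y (1 : S)) *
        (1 + Matrix.single y x (-1 : S)) * (1 + Matrix.single x y 1))
      have e1 : (1 + Matrix.single x y (1 : S)) * (1 + Matrix.single y x (-1 : S)) *
          (1 + Matrix.single x y 1) = 1 - Matrix.single x x 1 - Matrix.single y y 1
            + Matrix.single x y 1 - Matrix.single y x (1 : S) := by
        rw [← Matrix.single_neg]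
        simp only [add_mul, mul_add, one_mul, mul_one, mul_neg, neg_mul,
          Matrix.single_mul_single_same, Matrix.single_mul_single_of_ne _ _ _ _ hxy,
          Matrix.single_mul_single_of_ne _ _ _ _ (Ne.symm hxy)]
        abel
      rw [e1]
      ext a b
      rw [Matrix.diagonal_mul, pU_apply, Pi.single_apply]
      simp only [Matrix.sub_apply, Matrix.add_apply, Matrix.one_apply, Matrix.single_apply]
      by_cases hax : a = x
      · subst hax
        rw [Equiv.swap_apply_left, Function.update_of_ne hxy]
        by_cases hb : b = y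
        · subst hb; simp [hxy, Ne.symm hxy]
        · by_cases hb2 : b = a
          · subst hb2; simp [hxy, Ne.symm hxy]
          · simp [hb, Ne.symm hb, Ne.symm hb2, Ne.symm hxy]
      · by_cases hay : a = y
        · subst hay
          rw [Equiv.swap_apply_right, Function.update_self]
          by_cases hb : b = x
          · subst hb; simp [hxy, Ne.symm hxy]
          · by_cases hb2 : b = a
            · subst hb2; simp [hxy, Ne.symm hxy]
            · simp [hb, Ne.symm hb, Ne.symm hb2, hxy]
        · rw [Equiv.swap_apply_of_ne_of_ne hax hay, Function.update_of_ne hay]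
          by_cases hb : b = a
          · subst hb; simp [Ne.symm hax, Ne.symm hay]
          · simp [Ne.symm hax, Ne.symm hay, hb, Ne.symm hb]
    rw [h2]
    exact mul_mem (dU_mem _ _) (mul_mem (mul_mem (eU_mem _ _ _ _) (eU_mem _ _ _ _))
      (eU_mem _ _ _ _))

/-- an invertible matrix all of whose rows have a single entry of norm one -/
theorem mono_mem (P : (Matrix κ κ S)ˣ) (h : ∀ a, NN (P.val a) = 1) : P ∈ Simp S κ := by
  classical
  choose π t ht hP using fun a => split1 (h a)
  have hinj : Function.Injective π := by
    intro a b hab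
    by_contra hne
    have h1 := congrFun (row_mul P.val P⁻¹.val P.mul_inv a) b
    have h2 := congrFun (row_mul P.val P⁻¹.val P.mul_inv b) b
    rw [hP, single_vecMul'] at h1 h2
    rw [Pi.single_eq_of_ne (Ne.symm hne), Pi.smul_apply, smul_eq_mul, hab] at h1
    rw [Pi.single_eq_same, Pi.smul_apply, smul_eq_mul] at h2
    have h3 : P⁻¹.val (π b) b = 0 := by
      have := congrArg (fun y => iv (t a) * y) h1
      simpa only [← mul_assoc, (iv_spec _ (ht a)).2.1, one_mul, mul_zero] using this
    rw [h3, mul_zero] at h2
    exact one_ne h2.symm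
  let σ : Equiv.Perm κ := Equiv.ofBijective π ((Fintype.bijective_iff_injective_and_card π).2
    ⟨hinj, rfl⟩)
  have h1 : P = dU t ht * pU σ := by
    apply Units.ext
    rw [Units.val_mul]
    ext a b
    change _ = ((Matrix.diagonal t * (pM σ : Matrix κ κ S)) : Matrix κ κ S) a b
    rw [Matrix.diagonal_mul, pM_apply, hP]
    change _ = t a * (Pi.single (π a) (1 : S) : κ → S) b
    rw [Pi.single_apply, Pi.single_apply]
    split_ifs <;> simp
  rw [h1]
  exact mul_mem (dU_mem _ _) (pU_mem _)

end Pool.Agent.Q181.GP
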