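import Pool.Agent.Q181.GP.Nf

set_option autoImplicit false
set_option linter.unusedSectionVars false

/-! The normal form of the forms. -/

namespace Pool.Agent.Q181.GP

open Matrix LatRing

variable {S : Type} [Ring S] [StarRing S] [LatRing S]

theorem exists_pairing {n : ℕ} (τ : Fin n → Fin n) (h1 : ∀ a, τ (τ a) = a) (h2 : ∀ a, τ a ≠ a) :
    ∃ (m : ℕ) (e : Fin n ≃ Fin m ⊕ Fin m), (∀ a, e (τ a) = sg (e a)) ∧
      ∀ i, e.symm (Sum.inl i) < τ (e.symm (Sum.inl i)) := by
  classical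
  let f : {a // a < τ a} ≃ Fin (Fintype.card {a // a < τ a}) := Fintype.equivFin _
  have h3 : ∀ a, ¬ a < τ a → τ a < τ (τ a) := by
    intro a ha
    rw [h1]
    exact lt_of_le_of_ne (not_lt.1 ha) (h2 a)
  have h4 : ∀ a, a < τ a → ¬ τ a < τ (τ a) := by
    intro a ha; rw [h1]; exact not_lt.2 ha.le
  let e : Fin n ≃ Fin (Fintype.card {a // a < τ a}) ⊕ Fin (Fintype.card {a // a < τ a}) :=
    { toFun := fun a => if h : a < τ a then Sum.inl (f ⟨a, h⟩) else Sum.inr (f ⟨τ a, h3 a h⟩)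
      invFun := fun x => match x with
        | Sum.inl i => (f.symm i).1
        | Sum.inr i => τ (f.symm i).1
      left_inv := by
        intro a
        by_cases h : a < τ a
        · simp only [dif_pos h, Equiv.symm_apply_apply]
        · simp only [dif_neg h, Equiv.symm_apply_apply, h1]
      right_inv := by
        intro x
        rcases x with i | i
        · have h := (f.symm i).2
          simp only [dif_pos h, Subtype.coe_eta, Equiv.apply_symm_apply]
        · have h := h4 _ (f.symm i).2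
          rw [h1] at h
          simp only [h1, dif_neg h, Subtype.coe_eta, Equiv.apply_symm_apply] }
  refine ⟨_, e, fun a => ?_, fun i => (f.symm i).2⟩
  by_cases h : a < τ a
  · change (if h : τ a < τ (τ a) then Sum.inl (f ⟨τ a, h⟩) else Sum.inr (f ⟨τ (τ a), h3 (τ a) h⟩))
      = sg (if h : a < τ a then Sum.inl (f ⟨a, h⟩) else Sum.inr (f ⟨τ a, h3 a h⟩))
    rw [dif_pos h, dif_neg (h4 a h)]
    simp only [sg, h1]
  · change (if h : τ a < τ (τ a) then Sum.inl (f ⟨τ a, h⟩) else Sum.inr (f ⟨τ (τ a), h3 (τ a) h⟩))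
      = sg (if h : a < τ a then Sum.inl (f ⟨a, h⟩) else Sum.inr (f ⟨τ a, h3 a h⟩))
    rw [dif_neg h, dif_pos (h3 a h)]
    rfl

theorem jj_apply (ε : ℤ) {m : Type} [Fintype m] [DecidableEq m] (i j : m ⊕ m) :
    jj S m ε i j = if j = sg i then sn ε i • (1 : S) else 0 := by
  rw [jj_eq]
  rcases i with i | i <;> rcases j with j | j
  · simp [sg]
  · simp only [Matrix.fromBlocks_apply₁₂, Matrix.one_apply, sg, sn, one_smul, Sum.inr.injEq,
      eq_comm]
  · simp only [Matrix.fromBlocks_apply₂₁, Matrix.smul_apply, Matrix.one_apply, sg, sn,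
      Sum.inl.injEq]
    by_cases h : i = j
    · subst h; simp
    · rw [if_neg h, if_neg (Ne.symm h), smul_zero]
  · simp [sg]

/-- the standard form of a form with monomial rows -/
theorem triv_nf {ε : ℤ} (hε : ε = 1 ∨ ε = -1) {n : ℕ} {L M : Matrix (Fin n) (Fin n) S}
    (h : Frm ε L M) (hT : Triv L) :
    ∃ (m : ℕ) (e : Fin n ≃ Fin m ⊕ Fin m), ∃ U ∈ Simp S (Fin n),
      U.val * L * U.valᴴ = (jj S (Fin m) ε).submatrix e e := by
  classical
  obtain ⟨U, hU, h1⟩ := hT
  have hF := h.conj U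
  set L' := U.val * L * U.valᴴ with hL'
  choose τ t ht hτ using fun a => split1 (h1 a)
  have h2 : ∀ a, L' (τ a) a = ε • star (t a) := by
    intro a; rw [hF.entry hε, hτ, Pi.single_eq_same]
  have h3 : ∀ a, τ (τ a) = a := by
    intro a
    by_contra hne
    have h4 := h2 a
    rw [hτ (τ a), Pi.single_eq_of_ne (Ne.symm hne)] at h4
    have h5 : nm (ε • star (t a)) = 1 := by rw [nm_eps hε, nm_star, ht]
    rw [← h4, nm_zero] at h5
    omega
  have h4 : ∀ a, τ a ≠ a := by
    intro a ha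
    have h5 := hF.even hε a
    have h6 : L' a a = t a := by
      have := congrFun (hτ a) a
      rw [this, ha, Pi.single_eq_same]
    rw [h6, ht] at h5
    exact absurd h5 (by decide)
  obtain ⟨m, e, he, hlt⟩ := exists_pairing τ h3 h4
  have hD : ∀ b, nm (if b < τ b then (1 : S) else star (iv (t (τ b)))) = 1 := by
    intro b
    split_ifs
    · exact nm_one
    · rw [nm_star]; exact (iv_spec _ (ht _)).2.2
  refine ⟨m, e, dU _ hD * U, mul_mem (dU_mem _ _) hU, ?_⟩
  have e1 : (dU _ hD * U).val * L * (dU _ hD * U).valᴴ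
      = Matrix.diagonal (fun b => if b < τ b then (1 : S) else star (iv (t (τ b)))) * L' *
        (Matrix.diagonal (fun b => if b < τ b then (1 : S) else star (iv (t (τ b)))))ᴴ := by
    rw [Units.val_mul, conjTranspose_mul, hL']
    simp only [mul_assoc]
    rfl
  rw [e1]
  have hlt2 : ∀ b, b < τ b ↔ ∃ i, e b = Sum.inl i := by
    intro b
    constructor
    · intro hb
      rcases hx : e b with i | i
      · exact ⟨i, rfl⟩
      · exfalso
        have h5 : e (τ b) = Sum.inl i := by rw [he, hx]; rfl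
        have h6 := hlt i
        rw [← h5, Equiv.symm_apply_apply, h3] at h6
        exact absurd hb (not_lt.2 h6.le)
    · rintro ⟨i, hi⟩
      have h6 := hlt i
      rw [← hi, Equiv.symm_apply_apply] at h6
      exact h6
  ext a b
  rw [Matrix.diagonal_conjTranspose, Matrix.mul_diagonal, Matrix.diagonal_mul,
    Matrix.submatrix_apply, jj_apply, hτ, Pi.single_apply, Pi.star_apply]
  by_cases hab : b = τ a
  · subst hab
    rw [if_pos rfl, if_pos (he a), h3]
    by_cases ha : a < τ a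
    · obtain ⟨i, hi⟩ := (hlt2 a).1 ha
      rw [if_pos ha, if_neg (not_lt.2 ha.le), hi, star_star, one_mul, (iv_spec _ (ht a)).1]
      change 1 = (1 : ℤ) • (1 : S)
      rw [one_smul]
    · have ha2 : τ a < a := lt_of_le_of_ne (not_lt.1 ha) (h4 a)
      have hi : ∃ i, e a = Sum.inr i := by
        rcases hx : e a with i | i
        · exact absurd ((hlt2 a).2 ⟨i, hx⟩) ha
        · exact ⟨i, rfl⟩
      obtain ⟨i, hi⟩ := hi
      rw [if_neg ha, if_pos ha2, hi, star_one, mul_one]
      change star (iv (t (τ a))) * t a = ε • (1 : S)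
      have h5 := h2 (τ a)
      rw [h3, hτ a, Pi.single_eq_same] at h5
      rw [h5, mul_smul_comm, ← star_mul, (iv_spec _ (ht (τ a))).1, star_one]
  · have hcon : ¬ e b = sg (e a) := by
      intro hcon
      apply hab
      rw [← he] at hcon
      exact e.injective hcon
    rw [if_neg hab, if_neg hcon, mul_zero, zero_mul]

theorem quad_nf {ε : ℤ} (Dg : Set S)
    (hD : ∀ x : S, x + ε • star x = 0 → ∃ d ∈ Dg, ∃ z, x = d + (z - ε • star z))
    {κ : Type} [Fintype κ] [LinearOrder κ] (δ : Matrix κ κ S) (hδ : δ + ε • δᴴ = 0) :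
    ∃ (d : κ → S) (χ : Matrix κ κ S), (∀ a, d a ∈ Dg) ∧
      δ = Matrix.diagonal d + (χ - ε • χᴴ) := by
  have h1 : ∀ a b, δ a b + ε • star (δ b a) = 0 := by
    intro a b
    have := congrFun (congrFun hδ a) b
    rwa [Matrix.add_apply, Matrix.smul_apply, conjTranspose_apply] at this
  choose d hd z hz using fun a => hD (δ a a) (h1 a a)
  refine ⟨d, Matrix.of fun a b => if a < b then δ a b else if a = b then z a else 0, hd, ?_⟩
  ext a b
  rw [Matrix.add_apply, Matrix.sub_apply, Matrix.smul_apply, conjTranspose_apply,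
    Matrix.of_apply, Matrix.of_apply]
  rcases lt_trichotomy a b with hab | hab | hab
  · rw [Matrix.diagonal_apply_ne _ hab.ne, if_pos hab, if_neg (not_lt.2 hab.le),
      if_neg hab.ne', star_zero, smul_zero, sub_zero, zero_add]
  · subst hab
    rw [Matrix.diagonal_apply_eq, if_neg (lt_irrefl a), if_pos rfl]
    exact hz a
  · rw [Matrix.diagonal_apply_ne _ hab.ne', if_neg (not_lt.2 hab.le), if_neg hab.ne', if_pos hab,
      zero_add, zero_sub]
    exact eq_neg_of_add_eq_zero_left (h1 a b)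

/-- **Quadratic forms which are close to their inverses.** -/
theorem forms_nf {ε : ℤ} (hε : ε = 1 ∨ ε = -1) (Dg : Set S)
    (hD : ∀ x : S, x + ε • star x = 0 → ∃ d ∈ Dg, ∃ z, x = d + (z - ε • star z))
    {n : ℕ} (ψ M : Matrix (Fin n) (Fin n) S) (h1 : (ψ + ε • ψᴴ) * M = 1)
    (h2 : M * (ψ + ε • ψᴴ) = 1) (hb : ∀ a, NN ((ψ + ε • ψᴴ) a) + NN (M a) ≤ 5) :
    ∃ (m : ℕ) (e : Fin n ≃ Fin m ⊕ Fin m), ∃ U ∈ Simp S (Fin n),
      ∃ (d : Fin n → S) (χ : Matrix (Fin n) (Fin n) S), (∀ a, d a ∈ Dg) ∧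
        U.val * ψ * U.valᴴ = (hy S (Fin m)).submatrix e e + Matrix.diagonal d
          + (χ - ε • χᴴ) := by
  have hF : Frm ε (ψ + ε • ψᴴ) M := ⟨h1, h2, ψ, rfl⟩
  obtain ⟨m, e, U, hU, h3⟩ := triv_nf hε hF (forms_triv hε _ _ hF hb)
  have h4 : (U.val * ψ * U.valᴴ - (hy S (Fin m)).submatrix e e)
      + ε • (U.val * ψ * U.valᴴ - (hy S (Fin m)).submatrix e e)ᴴ = 0 := by
    have h5 : U.val * ψ * U.valᴴ + ε • (U.val * ψ * U.valᴴ)ᴴ
        = U.val * (ψ + ε • ψᴴ) * U.valᴴ := by
      rw [mul_add, add_mul, mul_smul_comm, smul_mul_assoc, conjTranspose_mul, conjTranspose_mul,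
        conjTranspose_conjTranspose, mul_assoc U.val ψᴴ]
    have h6 : (hy S (Fin m)).submatrix e e + ε • ((hy S (Fin m)).submatrix e e)ᴴ
        = (jj S (Fin m) ε).submatrix e e := by
      rw [jj, Matrix.conjTranspose_submatrix]; rfl
    have h7 : (U.val * ψ * U.valᴴ - (hy S (Fin m)).submatrix e e)
      + ε • (U.val * ψ * U.valᴴ - (hy S (Fin m)).submatrix e e)ᴴ
      = (U.val * ψ * U.valᴴ + ε • (U.val * ψ * U.valᴴ)ᴴ)
        - ((hy S (Fin m)).submatrix e e + ε • ((hy S (Fin m)).submatrix e e)ᴴ) := by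
      rw [conjTranspose_sub, smul_sub]; abel
    rw [h7, h5, h6, h3, sub_self]
  obtain ⟨d, χ, hd, h5⟩ := quad_nf Dg hD _ h4
  refine ⟨m, e, U, hU, d, χ, hd, ?_⟩
  rw [add_assoc, ← h5]; abel

end Pool.Agent.Q181.GP
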