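import Pool.Agent.Q181.GP.Core

set_option autoImplicit false
set_option linter.unusedSectionVars false

/-! Splitting off a hyperbolic plane from a form one of whose rows has a single entry. -/

namespace Pool.Agent.Q181.GP

open Matrix LatRing

variable {S : Type} [Ring S] [StarRing S] [LatRing S] {κ : Type} [Fintype κ] [DecidableEq κ]

section simp

variable (S κ)

/-- The group generated by the elementary matrices and the diagonal matrices with entries of norm
one. -/
def Simp : Subgroup (Matrix κ κ S)ˣ := Subgroup.closure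
  {x | (∃ i j c, i ≠ j ∧ x.val = 1 + Matrix.single i j c) ∨
    (∃ i u, nm u = 1 ∧ x.val = Matrix.diagonal (Function.update 1 i u))}

variable {S κ}

/-- the matrix with one column -/
def Cm (i : κ) (c : κ → S) : Matrix κ κ S := fun a b => if b = i then c a else 0

theorem Cm_mul (i : κ) (c d : κ → S) (hd : d i = 0) : Cm i c * Cm i d = 0 := by
  ext a b
  rw [Matrix.mul_apply]
  refine Finset.sum_eq_zero fun p _ => ?_
  unfold Cm
  by_cases hp : p = i
  · subst hp
    by_cases hb : b = p
    · rw [if_pos hb, hd, mul_zero]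
    · rw [if_neg hb, mul_zero]
  · rw [if_neg hp, zero_mul]

/-- the unipotent matrix with one column -/
def Cu (i : κ) (c : κ → S) (hc : c i = 0) : (Matrix κ κ S)ˣ where
  val := 1 - Cm i c
  inv := 1 + Cm i c
  val_inv := by
    rw [sub_mul, one_mul, mul_add, mul_one, Cm_mul i c c hc, add_zero, add_sub_cancel_right]
  inv_val := by
    rw [add_mul, one_mul, mul_sub, mul_one, Cm_mul i c c hc, sub_zero, sub_add_cancel]

theorem Cu_mem (i : κ) (c : κ → S) (hc : c i = 0) : Cu i c hc ∈ Simp S κ := by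
  classical
  have key : ∀ (s : Finset κ) (c : κ → S) (hc : c i = 0), (∀ a, a ∉ s → c a = 0) →
      Cu i c hc ∈ Simp S κ := by
    intro s
    induction s using Finset.induction_on with
    | empty =>
      intro c hc h
      have h1 : c = 0 := funext fun a => h a (by simp)
      have h2 : Cu i c hc = 1 := by
        apply Units.ext
        change 1 - Cm i c = 1
        have : Cm i c = 0 := by
          ext a b; unfold Cm; rw [h1]; simp
        rw [this, sub_zero]
      rw [h2]; exact one_mem _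
    | insert a s ha ih =>
      intro c hc h
      by_cases hai : a = i
      · refine ih c hc fun b hb => ?_
        by_cases hba : b = a
        · rw [hba, hai, hc]
        · exact h b (by simp [hba, hb])
      · set d : κ → S := Function.update c a 0 with hd
        have hdi : d i = 0 := by rw [hd, Function.update_of_ne (Ne.symm hai), hc]
        set e : κ → S := Pi.single a (c a) with he
        have hei : e i = 0 := by rw [he, Pi.single_eq_of_ne (Ne.symm hai)]
        have h1 : Cu i c hc = Cu i e hei * Cu i d hdi := by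
          apply Units.ext
          rw [Units.val_mul]
          change 1 - Cm i c = (1 - Cm i e) * (1 - Cm i d)
          rw [sub_mul, one_mul, mul_sub, mul_one, Cm_mul i e d hdi, sub_zero, sub_sub]
          congr 1
          ext p q
          rw [Matrix.add_apply]
          unfold Cm
          by_cases hq : q = i
          · rw [if_pos hq, if_pos hq, if_pos hq, hd, he]
            by_cases hp : p = a
            · subst hp; simp
            · rw [Function.update_of_ne hp, Pi.single_eq_of_ne hp, add_zero]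
          · rw [if_neg hq, if_neg hq, if_neg hq, add_zero]
        rw [h1]
        refine mul_mem (Subgroup.subset_closure (Or.inl ⟨a, i, -c a, hai, ?_⟩))
          (ih d hdi fun b hb => ?_)
        · change 1 - Cm i e = _
          rw [sub_eq_add_neg]
          congr 1
          ext p q
          rw [Matrix.neg_apply]
          unfold Cm
          rw [Matrix.single_apply]
          by_cases hq : q = i
          · subst hq
            by_cases hp : p = a
            · subst hp; simp [he]
            · rw [if_pos rfl, he, Pi.single_eq_of_ne hp, if_neg (fun h => hp h.1.symm), neg_zero]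
          · rw [if_neg hq, if_neg (fun h => hq h.2.symm), neg_zero]
        · by_cases hba : b = a
          · rw [hd, hba, Function.update_self]
          · rw [hd, Function.update_of_ne hba]
            exact h b (by simp [hba, hb])
  exact key Finset.univ c hc fun a h => absurd (Finset.mem_univ a) h

theorem Cu_conj (i : κ) (c : κ → S) (hc : c i = 0) (M : Matrix κ κ S) (a b : κ) :
    ((Cu i c hc).val * M * (Cu i c hc).valᴴ) a b
      = M a b - c a * M i b - M a i * star (c b) + c a * M i i * star (c b) := by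
  have h1 : ∀ (X : Matrix κ κ S) a b, (Cm i c * X) a b = c a * X i b := by
    intro X a b
    rw [Matrix.mul_apply]
    unfold Cm
    simp only [ite_mul, zero_mul, Finset.sum_ite_eq', Finset.mem_univ, if_true]
  have h2 : ∀ (X : Matrix κ κ S) a b, (X * (Cm i c)ᴴ) a b = X a i * star (c b) := by
    intro X a b
    rw [Matrix.mul_apply]
    simp only [Matrix.conjTranspose_apply, Cm]
    rw [Finset.sum_eq_single i]
    · rw [if_pos rfl]
    · intro p _ hp; rw [if_neg hp, star_zero, mul_zero]
    · intro h; exact absurd (Finset.mem_univ i) h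
  change ((1 - Cm i c) * M * (1 - Cm i c)ᴴ : Matrix κ κ S) a b = _
  rw [conjTranspose_sub, conjTranspose_one, mul_sub, mul_one, Matrix.sub_apply, h2, sub_mul,
    one_mul, Matrix.sub_apply, Matrix.sub_apply, h1, h1]
  rw [sub_mul]
  abel

theorem Cu_inv_conj (i : κ) (c : κ → S) (hc : c i = 0) (M : Matrix κ κ S) (a b : κ)
    (ha : a ≠ i) (hb : b ≠ i) :
    ((Cu i c hc)⁻¹.valᴴ * M * (Cu i c hc)⁻¹.val) a b = M a b := by
  have h1 : ∀ (X : Matrix κ κ S), ((Cm i c)ᴴ * X) a b = 0 := by
    intro X
    rw [Matrix.mul_apply]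
    refine Finset.sum_eq_zero fun p _ => ?_
    rw [Matrix.conjTranspose_apply]
    unfold Cm
    rw [if_neg ha, star_zero, zero_mul]
  have h2 : ∀ (X : Matrix κ κ S), (X * Cm i c) a b = 0 := by
    intro X
    rw [Matrix.mul_apply]
    refine Finset.sum_eq_zero fun p _ => ?_
    unfold Cm
    rw [if_neg hb, mul_zero]
  change ((1 + Cm i c)ᴴ * M * (1 + Cm i c) : Matrix κ κ S) a b = _
  rw [conjTranspose_add, conjTranspose_one, mul_add, mul_one, Matrix.add_apply, h2, add_zero,
    add_mul, one_mul, Matrix.add_apply, h1, add_zero]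

end simp

/-- A nonsingular form with its inverse. -/
structure Frm (ε : ℤ) (L M : Matrix κ κ S) : Prop where
  h1 : L * M = 1
  h2 : M * L = 1
  ev : ∃ P : Matrix κ κ S, L = P + ε • Pᴴ

theorem sq_eps {ε : ℤ} (hε : ε = 1 ∨ ε = -1) : ε * ε = 1 := by
  rcases hε with rfl | rfl <;> norm_num

theorem star_zsmul' (ε : ℤ) (x : S) : star (ε • x) = ε • star x := star_zsmul ε x

theorem conj_zsmul (ε : ℤ) (A : Matrix κ κ S) : (ε • A)ᴴ = ε • Aᴴ := by
  ext a b
  rw [conjTranspose_apply, Matrix.smul_apply, Matrix.smul_apply, conjTranspose_apply,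
    star_zsmul']

theorem Frm.herm {ε : ℤ} (hε : ε = 1 ∨ ε = -1) {L M : Matrix κ κ S} (h : Frm ε L M) :
    Lᴴ = ε • L := by
  obtain ⟨P, hP⟩ := h.ev
  rw [hP, conjTranspose_add, conj_zsmul, conjTranspose_conjTranspose, smul_add, smul_smul,
    sq_eps hε, one_smul, add_comm]

theorem Frm.symm {ε : ℤ} (hε : ε = 1 ∨ ε = -1) {L M : Matrix κ κ S} (h : Frm ε L M) :
    Frm ε M L := by
  have hL := h.herm hε
  have hM : Mᴴ = ε • M := by
    have e1 : Mᴴ * Lᴴ = 1 := by rw [← conjTranspose_mul, h.h1, conjTranspose_one]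
    have e2 : Mᴴ * (Lᴴ * (ε • M)) = ε • M := by
      rw [← mul_assoc, e1, one_mul]
    rw [hL, smul_mul_smul_comm, sq_eps hε, one_smul, h.h1, mul_one] at e2
    exact e2
  refine ⟨h.h2, h.h1, ?_⟩
  obtain ⟨P, hP⟩ := h.ev
  refine ⟨ε • (M * P * Mᴴ), ?_⟩
  have e3 : M * L * Mᴴ = ε • M := by rw [h.h2, one_mul, hM]
  have e4 : M * L * Mᴴ = M * P * Mᴴ + ε • (M * Pᴴ * Mᴴ) := by
    rw [hP, mul_add, add_mul, mul_smul_comm, smul_mul_assoc]
  have e5 : (M * P * Mᴴ)ᴴ = M * Pᴴ * Mᴴ := by
    rw [conjTranspose_mul, conjTranspose_mul, conjTranspose_conjTranspose, mul_assoc]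
  rw [conj_zsmul, smul_smul, sq_eps hε, one_smul, e5]
  have e6 : M = ε • (ε • M) := by rw [smul_smul, sq_eps hε, one_smul]
  rw [← e3, e4, smul_add, smul_smul, sq_eps hε, one_smul] at e6
  exact e6

theorem Frm.conj {ε : ℤ} {L M : Matrix κ κ S} (h : Frm ε L M) (U : (Matrix κ κ S)ˣ) :
    Frm ε (U.val * L * U.valᴴ) (U⁻¹.valᴴ * M * U⁻¹.val) := by
  have hU1 : U.valᴴ * U⁻¹.valᴴ = 1 := by
    rw [← conjTranspose_mul, U.inv_mul, conjTranspose_one]
  have hU2 : U⁻¹.valᴴ * U.valᴴ = 1 := by
    rw [← conjTranspose_mul, U.mul_inv, conjTranspose_one]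
  refine ⟨?_, ?_, ?_⟩
  · calc U.val * L * U.valᴴ * (U⁻¹.valᴴ * M * U⁻¹.val)
        = U.val * L * (U.valᴴ * U⁻¹.valᴴ) * M * U⁻¹.val := by simp only [mul_assoc]
      _ = U.val * (L * M) * U⁻¹.val := by rw [hU1]; simp only [mul_assoc, mul_one]
      _ = 1 := by rw [h.h1, mul_one, U.mul_inv]
  · calc U⁻¹.valᴴ * M * U⁻¹.val * (U.val * L * U.valᴴ)
        = U⁻¹.valᴴ * M * (U⁻¹.val * U.val) * L * U.valᴴ := by simp only [mul_assoc]
      _ = U⁻¹.valᴴ * (M * L) * U.valᴴ := by rw [U.inv_mul]; simp only [mul_assoc, one_mul]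
      _ = 1 := by rw [h.h2, mul_one, hU2]
  · obtain ⟨P, hP⟩ := h.ev
    refine ⟨U.val * P * U.valᴴ, ?_⟩
    rw [hP, mul_add, add_mul, mul_smul_comm, smul_mul_assoc, conjTranspose_mul,
      conjTranspose_mul, conjTranspose_conjTranspose, mul_assoc U.val Pᴴ]

theorem Frm.entry {ε : ℤ} (hε : ε = 1 ∨ ε = -1) {L M : Matrix κ κ S} (h : Frm ε L M) (a b : κ) :
    L a b = ε • star (L b a) := by
  have h1 := congrFun (congrFun (h.herm hε) a) b
  rw [conjTranspose_apply, Matrix.smul_apply] at h1
  rw [h1, smul_smul, sq_eps hε, one_smul]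

theorem nm_eps {ε : ℤ} (hε : ε = 1 ∨ ε = -1) (x : S) : nm (ε • x) = nm x := by
  rcases hε with rfl | rfl
  · rw [one_smul]
  · rw [neg_smul, one_smul, nm_neg]

theorem Frm.even {ε : ℤ} (hε : ε = 1 ∨ ε = -1) {L M : Matrix κ κ S} (h : Frm ε L M) (a : κ) :
    Even (nm (L a a)) := by
  obtain ⟨P, hP⟩ := h.ev
  rw [hP]
  exact nm_even (P a a) ε hε

/-- splitting off a plane -/
theorem peel {ε : ℤ} (hε : ε = 1 ∨ ε = -1) {L M : Matrix κ κ S} (h : Frm ε L M) (i j : κ) (t : S)
    (ht : nm t = 1) (hi : L i = Pi.single j t) :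
    i ≠ j ∧ ∃ U ∈ Simp S κ, ∃ L' M' : Matrix κ κ S, L' = U.val * L * U.valᴴ ∧ Frm ε L' M' ∧
      NN (L' i) = 1 ∧ NN (L' j) = 1 ∧ NN (M' i) = 1 ∧ NN (M' j) = 1 ∧
      ∀ a, a ≠ i → a ≠ j → L' a i = 0 ∧ L' a j = 0 ∧ M' a i = 0 ∧ M' a j = 0 ∧
        ∀ b, b ≠ i → b ≠ j → L' a b = L a b ∧ M' a b = M a b := by
  obtain ⟨s1, s2, _⟩ := iv_spec t ht
  have hij : i ≠ j := by
    rintro rfl
    have h1 := h.even hε i
    rw [hi, Pi.single_eq_same, ht] at h1
    exact absurd h1 (by decide)
  refine ⟨hij, ?_⟩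
  obtain ⟨P, hP⟩ := h.ev
  have hLij : L i j = t := by rw [hi, Pi.single_eq_same]
  have hLib : ∀ b, b ≠ j → L i b = 0 := fun b hb => by rw [hi, Pi.single_eq_of_ne hb]
  have hLai : ∀ a, a ≠ j → L a i = 0 := fun a ha => by
    rw [h.entry hε, hLib a ha, star_zero, smul_zero]
  set c : κ → S := fun a => if a = i then 0 else if a = j then P j j * iv t else L a j * iv t
    with hc
  have hci : c i = 0 := by rw [hc]; simp
  have hcj : c j = P j j * iv t := by rw [hc]; simp [Ne.symm hij]
  have hca : ∀ a, a ≠ i → a ≠ j → c a = L a j * iv t := fun a h1 h2 => by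
    rw [hc]; simp [h1, h2]
  set U := Cu i c hci with hU
  set L' := U.val * L * U.valᴴ with hL'
  set M' := U⁻¹.valᴴ * M * U⁻¹.val with hM'
  have hF : Frm ε L' M' := h.conj U
  have hL'ab : ∀ a b, L' a b = L a b - c a * L i b - L a i * star (c b) := by
    intro a b
    rw [hL', hU, Cu_conj, hLib i hij, mul_zero, zero_mul, add_zero]
  have hL'i : L' i = Pi.single j t := by
    funext b
    rw [hL'ab, hci, zero_mul, sub_zero, hLib i hij, zero_mul, sub_zero, hi]
  have hL'aj : ∀ a, a ≠ i → L' a j = 0 := by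
    intro a ha
    by_cases haj : a = j
    · subst haj
      rw [hL'ab, hcj, hLij, mul_assoc, s2, mul_one, h.entry hε a i, hLij, smul_mul_assoc,
        star_mul, ← mul_assoc, ← star_mul, s2, star_one, one_mul]
      have := congrFun (congrFun hP a) a
      rw [Matrix.add_apply, Matrix.smul_apply, conjTranspose_apply] at this
      rw [this]
      abel
    · rw [hL'ab, hca a ha haj, hLij, mul_assoc, s2, mul_one, hLai a haj, zero_mul, sub_self,
        sub_zero]
  have hL'j : L' j = Pi.single i (ε • star t) := by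
    funext b
    by_cases hb : b = i
    · subst hb
      rw [hF.entry hε, hL'i, Pi.single_eq_same, Pi.single_eq_same]
    · rw [hF.entry hε, hL'aj b hb, star_zero, smul_zero, Pi.single_eq_of_ne hb]
  have hM'j : t • M' j = Pi.single i 1 := by
    have h1 := row_mul L' M' hF.h1 i
    rw [hL'i, single_vecMul'] at h1
    exact h1
  have hM'i : (ε • star t) • M' i = Pi.single j 1 := by
    have h1 := row_mul L' M' hF.h1 j
    rw [hL'j, single_vecMul'] at h1
    exact h1
  have hst : nm (ε • star t) = 1 := by rw [nm_eps hε, nm_star, ht]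
  have zr : ∀ (u : S) (x : κ → S) (p : κ), nm u = 1 → u • x = Pi.single p 1 →
      ∀ b, b ≠ p → x b = 0 := by
    intro u x p hu hx b hb
    have h1 := congrFun hx b
    rw [Pi.single_eq_of_ne hb, Pi.smul_apply, smul_eq_mul] at h1
    apply nm_eq_zero.1
    rw [← nm_mul_left u hu, h1, nm_zero]
  have hFs := hF.symm hε
  refine ⟨U, Cu_mem i c hci, L', M', rfl, hF, ?_, ?_, ?_, ?_, ?_⟩
  · rw [hL'i, NN_single, ht]
  · rw [hL'j, NN_single, hst]
  · rw [← NN_smul _ hst, hM'i, NN_single, nm_one]
  · rw [← NN_smul _ ht, hM'j, NN_single, nm_one]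
  · intro a hai haj
    refine ⟨?_, hL'aj a hai, ?_, ?_, ?_⟩
    · rw [hF.entry hε, hL'i, Pi.single_eq_of_ne haj, star_zero, smul_zero]
    · rw [hFs.entry hε, zr _ _ _ hst hM'i a haj, star_zero, smul_zero]
    · rw [hFs.entry hε, zr _ _ _ ht hM'j a hai, star_zero, smul_zero]
    · intro b hbi hbj
      refine ⟨?_, ?_⟩
      · rw [hL'ab, hLib b hbj, mul_zero, sub_zero, hLai a haj, zero_mul, sub_zero]
      · rw [hM', hU, Cu_inv_conj i c hci M a b hai hbi]

end Pool.Agent.Q181.GP
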