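import Pool.Agent.Q181.GP.Aut

set_option autoImplicit false
set_option linter.unusedSectionVars false

/-! Splitting off a hyperbolic plane from an isometry one of whose rows has a single entry. -/

namespace Pool.Agent.Q181.GP

open Matrix LatRing

variable {S : Type} [Ring S] [StarRing S] [LatRing S] {m : Type} [Fintype m] [DecidableEq m]

theorem single_mul_row {κ : Type} [Fintype κ] [DecidableEq κ] (a i : κ) (c : S) (M : Matrix κ κ S)
    (b : κ) : (Matrix.single a i c * M) b = if b = a then c • M i else 0 := by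
  funext p
  by_cases hb : b = a
  · subst hb
    rw [if_pos rfl, Matrix.single_mul_apply_same]
    rfl
  · rw [if_neg hb, Matrix.single_mul_apply_of_ne _ _ _ _ _ hb]
    rfl

theorem shortM_row (ε : ℤ) (a i : m ⊕ m) (c : S) (M : Matrix (m ⊕ m) (m ⊕ m) S) (b : m ⊕ m)
    (hb : b ≠ sg i) : (shortM ε a i c * M) b = if b = a then M a - c • M i else M b := by
  have h1 : (shortM ε a i c * M) b = M b - (Matrix.single a i c * M) b
      + (Matrix.single (sg i) (sg a) ((sn ε a * sn ε i) • star c) * M) b := by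
    rw [shortM, add_mul, sub_mul, one_mul]
    rfl
  rw [h1, single_mul_row, single_mul_row, if_neg hb, add_zero]
  by_cases hba : b = a
  · subst hba; rw [if_pos rfl, if_pos rfl]
  · rw [if_neg hba, if_neg hba, sub_zero]

theorem longM_row (ε : ℤ) (i : m ⊕ m) (z : S) (M : Matrix (m ⊕ m) (m ⊕ m) S) (b : m ⊕ m) :
    (longM ε i z * M) b = if b = sg i then M (sg i) + (z - ε • star z) • M i else M b := by
  have h1 : (longM ε i z * M) b = M b + (Matrix.single (sg i) i (z - ε • star z) * M) b := by
    rw [longM, add_mul, one_mul]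
    rfl
  rw [h1, single_mul_row]
  by_cases hb : b = sg i
  · subst hb; rw [if_pos rfl, if_pos rfl]
  · rw [if_neg hb, if_neg hb, add_zero]

/-- the product of short root elements which clears a column -/
theorem clear_col {ε : ℤ} (hε : ε = 1 ∨ ε = -1) (i : m ⊕ m) (c : m ⊕ m → S)
    (F : Finset (m ⊕ m)) : ∃ V ∈ RU S m ε, V.val i = Pi.single i 1 ∧
      ∀ a, a ≠ i → a ≠ sg i → V.val a = if a ∈ F then Pi.single a 1 - c a • Pi.single i 1
        else Pi.single a 1 := by
  classical
  induction F using Finset.induction_on with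
  | empty =>
    refine ⟨1, one_mem _, ?_, ?_⟩
    · funext b
      rw [Units.val_one, Matrix.one_apply, Pi.single_apply]; simp only [eq_comm]
    · intro a _ _
      rw [if_neg (by simp)]
      funext b
      rw [Units.val_one, Matrix.one_apply, Pi.single_apply]; simp only [eq_comm]
  | insert p F hp ih =>
    obtain ⟨V, hV, hVi, hVa⟩ := ih
    by_cases hpi : p = i
    · refine ⟨V, hV, hVi, fun a h1 h2 => ?_⟩
      rw [hVa a h1 h2]
      have : a ∈ insert p F ↔ a ∈ F := by
        rw [Finset.mem_insert, hpi]; simp [h1]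
      simp only [this]
    · by_cases hps : p = sg i
      · refine ⟨V, hV, hVi, fun a h1 h2 => ?_⟩
        rw [hVa a h1 h2]
        have : a ∈ insert p F ↔ a ∈ F := by
          rw [Finset.mem_insert, hps]; simp [h2]
        simp only [this]
      · obtain ⟨X, hX, hXv⟩ := short_mem hε p i (c p) hpi hps
        refine ⟨X * V, mul_mem hX hV, ?_, ?_⟩
        · rw [Units.val_mul, hXv, shortM_row ε p i _ _ i (Ne.symm (sg_ne i)),
            if_neg (Ne.symm hpi), hVi]
        · intro a h1 h2
          rw [Units.val_mul, hXv, shortM_row ε p i _ _ a h2]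
          by_cases hap : a = p
          · subst hap
            rw [if_pos rfl, if_pos (by simp), hVa a h1 h2, if_neg hp, hVi]
          · rw [if_neg hap, hVa a h1 h2]
            have : a ∈ insert p F ↔ a ∈ F := by
              rw [Finset.mem_insert]; simp [hap]
            simp only [this]

theorem nm_sn {ε : ℤ} (hε : ε = 1 ∨ ε = -1) (a b : m ⊕ m) (x : S) :
    nm ((sn ε a * sn ε b) • x) = nm x := nm_eps (snn_or hε a b) x

theorem vecMul_single_row {κ : Type} [Fintype κ] [DecidableEq κ] (M N : Matrix κ κ S) (a : κ)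
    (x : κ → S) (h : M a = x) : (M * N) a = x ᵥ* N := by
  funext b
  rw [Matrix.mul_apply_eq_vecMul, ← h]

/-- splitting off a plane from an isometry -/
theorem peelA {ε : ℤ} (hε : ε = 1 ∨ ε = -1) {A B : Matrix (m ⊕ m) (m ⊕ m) S} (h : Uni ε A B)
    (i j : m ⊕ m) (t : S) (ht : nm t = 1) (hi : A i = Pi.single j t) :
    ∃ V ∈ RU S m ε, ∃ A' B' : Matrix (m ⊕ m) (m ⊕ m) S, A' = V.val * A ∧ Uni ε A' B' ∧
      NN (A' i) = 1 ∧ NN (A' (sg i)) = 1 ∧ NN (B' j) = 1 ∧ NN (B' (sg j)) = 1 ∧
      (∀ a, a ≠ i → a ≠ sg i → A' a j = 0 ∧ A' a (sg j) = 0 ∧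
        ∀ b, b ≠ j → b ≠ sg j → A' a b = A a b) ∧
      (∀ a, a ≠ j → a ≠ sg j → B' a i = 0 ∧ B' a (sg i) = 0 ∧
        ∀ b, b ≠ i → b ≠ sg i → B' a b = B a b) := by
  obtain ⟨s1, s2, s3⟩ := iv_spec t ht
  -- the column `sg j`
  have hBj : ∀ b, b ≠ i → B j b = 0 := by
    intro b hb
    have h1 := row_mul A B h.h1 i
    rw [hi, single_vecMul'] at h1
    have h2 := congrFun h1 b
    rw [Pi.single_eq_of_ne hb, Pi.smul_apply, smul_eq_mul] at h2
    apply nm_eq_zero.1
    rw [← nm_mul_left t ht, h2, nm_zero]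
  have hcol : ∀ a, a ≠ sg i → A a (sg j) = 0 := by
    intro a ha
    rw [h.symm.inv_apply hε, sg_sg, hBj (sg a) (fun h => ha (sg_eq_iff.1 h)), star_zero,
      smul_zero]
  -- clearing the column `j`
  obtain ⟨V0, hV0, hV0i, hV0a⟩ := clear_col hε i (fun a => A a j * iv t) Finset.univ
  set A0 := V0.val * A with hA0
  set B0 := B * V0⁻¹.val with hB0
  have hU0 : Uni ε A0 B0 := (RU_Uni hε hV0).mul h
  have hA0i : A0 i = Pi.single j t := by
    rw [hA0, vecMul_single_row _ _ _ _ hV0i, single_vecMul', one_smul, hi]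
  have hA0a : ∀ a, a ≠ i → a ≠ sg i → A0 a = A a - Pi.single j (A a j) := by
    intro a h1 h2
    have h3 := hV0a a h1 h2
    rw [if_pos (Finset.mem_univ a)] at h3
    rw [hA0, vecMul_single_row _ _ _ _ h3, Matrix.sub_vecMul, single_vecMul', one_smul,
      ← Pi.single_smul, single_vecMul', hi, ← Pi.single_smul, smul_eq_mul, smul_eq_mul, mul_one,
      mul_assoc, s2, mul_one]
  -- the row `sg i`
  set α := B0 (sg j) (sg i) with hα
  set β := B0 (sg j) i with hβ
  set s := sn ε (sg j) * sn ε (sg i) with hs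
  have hαt : α = s • star t := by
    rw [hα, hU0.inv_apply hε, sg_sg, sg_sg, hA0i, Pi.single_eq_same]
  have hα1 : nm α = 1 := by rw [hαt, hs, nm_sn hε, nm_star, ht]
  have hrow : α • A0 (sg i) = Pi.single (sg j) 1 - Pi.single j (β * t) := by
    have h1 := row_mul B0 A0 hU0.h2 (sg j)
    have h2 : B0 (sg j) = Pi.single (sg i) α + Pi.single i β := by
      funext b
      rw [Pi.add_apply]
      by_cases hb : b = i
      · subst hb; rw [Pi.single_eq_of_ne (Ne.symm (sg_ne b)), Pi.single_eq_same, zero_add]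
      · by_cases hb2 : b = sg i
        · subst hb2; rw [Pi.single_eq_same, Pi.single_eq_of_ne hb, add_zero]
        · rw [Pi.single_eq_of_ne hb, Pi.single_eq_of_ne hb2, add_zero, hU0.inv_apply hε, sg_sg,
            hA0a (sg b) (fun h => hb2 (sg_eq_iff.1 h)) (fun h => hb (sg_inj h)), Pi.sub_apply,
            Pi.single_eq_same, sub_self, star_zero, smul_zero]
    rw [h2, Matrix.add_vecMul, single_vecMul', single_vecMul', hA0i, ← Pi.single_smul,
      smul_eq_mul] at h1
    rw [← h1]; abel
  set t' := A0 (sg i) (sg j) with ht'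
  set y := A0 (sg i) j with hy
  have hαt' : α * t' = 1 := by
    have := congrFun hrow (sg j)
    rwa [Pi.smul_apply, Pi.sub_apply, Pi.single_eq_same, Pi.single_eq_of_ne (sg_ne j), sub_zero]
      at this
  have ht'1 : nm t' = 1 := by rw [← nm_mul_left α hα1, hαt', nm_one]
  have hA0s : A0 (sg i) = Pi.single (sg j) t' + Pi.single j y := by
    funext b
    rw [Pi.add_apply]
    by_cases hb : b = j
    · subst hb; rw [Pi.single_eq_of_ne (Ne.symm (sg_ne b)), Pi.single_eq_same, zero_add]
    · by_cases hb2 : b = sg j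
      · subst hb2; rw [Pi.single_eq_same, Pi.single_eq_of_ne hb, add_zero]
      · have h3 := congrFun hrow b
        rw [Pi.smul_apply, Pi.sub_apply, Pi.single_eq_of_ne hb, Pi.single_eq_of_ne hb2, sub_zero,
          smul_eq_mul] at h3
        rw [Pi.single_eq_of_ne hb, Pi.single_eq_of_ne hb2, add_zero]
        apply nm_eq_zero.1
        rw [← nm_mul_left α hα1, h3, nm_zero]
  have hst : star t' = s • iv t := by
    have h3 : s • (star t * t') = 1 := by rw [← smul_mul_assoc, ← hαt, hαt']
    have h4 : s • (star t' * t) = 1 := by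
      have := congrArg star h3
      rwa [star_zsmul', star_mul, star_star, star_one] at this
    have h5 : star t' = star t' * t * iv t := by rw [mul_assoc, s1, mul_one]
    have hss : s * s = 1 := by
      rcases snn_or hε (sg j) (sg i) with h | h <;> rw [hs, h] <;> norm_num
    have h6 : star t' * t = s • (1 : S) := by
      rw [← h4, smul_smul, hss, one_smul]
    rw [h5, h6, smul_mul_assoc, one_mul]
  -- the long root element
  obtain ⟨z, hz⟩ : ∃ z, y * iv t + (z - ε • star z) = 0 := by
    have hss : s * s = 1 := by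
      rcases snn_or hε (sg j) (sg i) with h | h <;> rw [hs, h] <;> norm_num
    have hw : ∃ w, y * star t' = w - ε • star w := by
      obtain ⟨z0, hz0⟩ := hU0.q (sg i)
      rcases j with p | p
      · refine ⟨z0, ?_⟩
        rw [← hz0, Finset.sum_eq_single p]
        · rfl
        · intro b _ hb
          rw [hA0s, Pi.add_apply, Pi.add_apply, Pi.single_eq_of_ne (by simp [sg]),
            Pi.single_eq_of_ne (by simpa using hb), add_zero, zero_mul]
        · intro h; exact absurd (Finset.mem_univ p) h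
      · refine ⟨star z0, ?_⟩
        have h3 : t' * star y = z0 - ε • star z0 := by
          rw [← hz0, Finset.sum_eq_single p]
          · rfl
          · intro b _ hb
            rw [hA0s, Pi.add_apply, Pi.single_eq_of_ne (by simpa [sg] using hb),
              Pi.single_eq_of_ne (by simp), add_zero, zero_mul]
          · intro h; exact absurd (Finset.mem_univ p) h
        have h4 := congrArg star h3
        rwa [star_mul, star_star, star_sub, star_zsmul'] at h4
    obtain ⟨w, hw⟩ := hw
    refine ⟨-(s • w), ?_⟩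
    have h3 : y * iv t = s • (w - ε • star w) := by
      rw [← hw, hst, mul_smul_comm, smul_smul, hss, one_smul]
    rw [h3, star_neg, star_zsmul', smul_neg, smul_sub, smul_smul, smul_smul, mul_comm s ε]
    abel
  obtain ⟨V1, hV1, hV1v⟩ := long_mem (S := S) (ε := ε) i z
  set A' := V1.val * A0 with hA'
  set B' := B0 * V1⁻¹.val with hB'
  have hU' : Uni ε A' B' := (RU_Uni hε hV1).mul hU0
  have hA'a : ∀ a, a ≠ sg i → A' a = A0 a := by
    intro a ha
    rw [hA', hV1v, longM_row, if_neg ha]
  have hA's : A' (sg i) = Pi.single (sg j) t' := by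
    rw [hA', hV1v, longM_row, if_pos rfl, hA0s, hA0i, ← Pi.single_smul, smul_eq_mul, add_assoc,
      ← Pi.single_add]
    have h3 : y + (z - ε • star z) * t = 0 := by
      have h4 := congrArg (· * t) hz
      simp only [add_mul, zero_mul] at h4
      rwa [mul_assoc y, s2, mul_one] at h4
    rw [h3, Pi.single_zero, add_zero]
  have hA'i : A' i = Pi.single j t := by rw [hA'a i (Ne.symm (sg_ne i)), hA0i]
  have hrest : ∀ a, a ≠ i → a ≠ sg i → A' a j = 0 ∧ A' a (sg j) = 0 ∧
      ∀ b, b ≠ j → b ≠ sg j → A' a b = A a b := by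
    intro a h1 h2
    have h3 : A' a = A a - Pi.single j (A a j) := by rw [hA'a a h2, hA0a a h1 h2]
    refine ⟨?_, ?_, fun b h4 h5 => ?_⟩
    · rw [h3, Pi.sub_apply, Pi.single_eq_same, sub_self]
    · rw [h3, Pi.sub_apply, Pi.single_eq_of_ne (sg_ne j), sub_zero, hcol a h2]
    · rw [h3, Pi.sub_apply, Pi.single_eq_of_ne h4, sub_zero]
  -- the rows of the inverse
  have hB'j : B' j = Pi.single i (B' j i) := by
    funext b
    by_cases hb : b = i
    · subst hb; rw [Pi.single_eq_same]
    · rw [Pi.single_eq_of_ne hb, hU'.inv_apply hε]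
      by_cases hb2 : sg b = i
      · rw [hb2, hA'i, Pi.single_eq_of_ne (sg_ne j), star_zero, smul_zero]
      · rw [(hrest (sg b) hb2 (fun h => hb (sg_inj h))).2.1, star_zero, smul_zero]
  have hB's : B' (sg j) = Pi.single (sg i) (B' (sg j) (sg i)) := by
    funext b
    by_cases hb : b = sg i
    · subst hb; rw [Pi.single_eq_same]
    · rw [Pi.single_eq_of_ne hb, hU'.inv_apply hε, sg_sg]
      by_cases hb2 : sg b = sg i
      · rw [hb2, hA's, Pi.single_eq_of_ne (Ne.symm (sg_ne j)), star_zero, smul_zero]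
      · rw [(hrest (sg b) (fun h => hb (sg_eq_iff.1 h)) hb2).1, star_zero, smul_zero]
  refine ⟨V1 * V0, mul_mem hV1 hV0, A', B', ?_, hU', ?_, ?_, ?_, ?_, hrest, ?_⟩
  · rw [hA', hA0, Units.val_mul, mul_assoc]
  · rw [hA'i, NN_single, ht]
  · rw [hA's, NN_single, ht'1]
  · rw [hB'j, NN_single, hU'.inv_apply hε, nm_sn hε, nm_star, hA's, Pi.single_eq_same, ht'1]
  · rw [hB's, NN_single, hU'.inv_apply hε, nm_sn hε, nm_star, sg_sg, sg_sg, hA'i,
      Pi.single_eq_same, ht]
  · intro a h1 h2
    have ha1 : sg a ≠ j := fun h => h2 (sg_eq_iff.1 h)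
    have ha2 : sg a ≠ sg j := fun h => h1 (sg_inj h)
    refine ⟨?_, ?_, fun b h3 h4 => ?_⟩
    · rw [hU'.inv_apply hε, hA's, Pi.single_eq_of_ne ha2, star_zero, smul_zero]
    · rw [hU'.inv_apply hε, sg_sg, hA'i, Pi.single_eq_of_ne ha1, star_zero, smul_zero]
    · rw [hU'.inv_apply hε, (hrest (sg b) (fun h => h4 (sg_eq_iff.1 h))
        (fun h => h3 (sg_inj h))).2.2 (sg a) ha1 ha2, ← h.inv_apply hε]

end Pool.Agent.Q181.GP
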