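import Mathlib

set_option autoImplicit false
set_option linter.unusedSectionVars false

/-! Rings with involution and an integral inner product which is invariant under the elements of
norm one (for instance integral group rings), and vectors over them. -/

namespace Pool.Agent.Q181.GP

open Matrix

/-- A ring with involution and a positive definite integral inner product such that the elements of
norm one are units whose multiplications preserve the inner product, and such that the parity of the
norm is a ring homomorphism. -/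
class LatRing (S : Type) [Ring S] [StarRing S] where
  ip : S → S → ℤ
  ip_add_left : ∀ x y z, ip (x + y) z = ip x z + ip y z
  ip_comm : ∀ x y, ip x y = ip y x
  ip_nonneg : ∀ x, 0 ≤ ip x x
  ip_zero : ∀ x, ip x x = 0 → x = 0
  ip_star : ∀ x y, ip (star x) (star y) = ip x y
  ip_one : ip 1 1 = 1
  unit : ∀ u, ip u u = 1 → ∃ v, u * v = 1 ∧ v * u = 1 ∧ ip v v = 1
  left : ∀ u, ip u u = 1 → ∀ x y, ip (u * x) (u * y) = ip x y
  right : ∀ u, ip u u = 1 → ∀ x y, ip (x * u) (y * u) = ip x y
  par : S →+* ZMod 2
  par_ip : ∀ x, ((ip x x : ℤ) : ZMod 2) = par x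

open LatRing

variable {S : Type} [Ring S] [StarRing S] [LatRing S]

theorem ip_add_right (x y z : S) : ip x (y + z) = ip x y + ip x z := by
  rw [ip_comm, ip_add_left, ip_comm y, ip_comm z]

theorem ip_zero_left (y : S) : ip 0 y = 0 := by
  have h := ip_add_left (0 : S) 0 y
  rw [add_zero] at h
  omega

theorem ip_zero_right (y : S) : ip y 0 = 0 := by rw [ip_comm, ip_zero_left]

theorem ip_neg_left (x y : S) : ip (-x) y = -ip x y := by
  have h := ip_add_left x (-x) y
  rw [add_neg_cancel, ip_zero_left] at h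
  omega

theorem ip_neg_right (x y : S) : ip x (-y) = -ip x y := by rw [ip_comm, ip_neg_left, ip_comm]

theorem ip_sub_left (x y z : S) : ip (x - y) z = ip x z - ip y z := by
  rw [sub_eq_add_neg, ip_add_left, ip_neg_left]; ring

theorem ip_sub_right (x y z : S) : ip x (y - z) = ip x y - ip x z := by
  rw [sub_eq_add_neg, ip_add_right, ip_neg_right]; ring

/-- the norm -/
def nm (x : S) : ℤ := ip x x

theorem nm_nonneg (x : S) : 0 ≤ nm x := ip_nonneg x

theorem nm_zero : nm (0 : S) = 0 := ip_zero_left 0

theorem nm_eq_zero {x : S} : nm x = 0 ↔ x = 0 :=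
  ⟨ip_zero x, fun h => by rw [h, nm_zero]⟩

theorem nm_one : nm (1 : S) = 1 := ip_one

theorem nm_neg (x : S) : nm (-x) = nm x := by
  unfold nm; rw [ip_neg_left, ip_neg_right, neg_neg]

theorem nm_star (x : S) : nm (star x) = nm x := ip_star x x

theorem nm_sub (x y : S) : nm (x - y) = nm x + nm y - 2 * ip x y := by
  unfold nm; rw [ip_sub_left, ip_sub_right, ip_sub_right, ip_comm y x]; ring

theorem nm_add (x y : S) : nm (x + y) = nm x + nm y + 2 * ip x y := by
  unfold nm; rw [ip_add_left, ip_add_right, ip_add_right, ip_comm y x]; ring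

theorem par_star (x : S) : par (star x) = par x := by
  rw [← par_ip, ← par_ip, ip_star]

theorem nm_mul_left (u : S) (hu : nm u = 1) (x : S) : nm (u * x) = nm x := left u hu x x

theorem nm_mul_right (u : S) (hu : nm u = 1) (x : S) : nm (x * u) = nm x := right u hu x x

theorem one_ne : (1 : S) ≠ 0 := fun h => by
  have h1 : nm (1 : S) = nm (0 : S) := by rw [h]
  rw [nm_one, nm_zero] at h1
  omega

/-- the inverse of an element of norm one -/
noncomputable def iv (u : S) : S := by
  classical exact if h : nm u = 1 then Classical.choose (unit u h) else 0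

theorem iv_spec (u : S) (hu : nm u = 1) : u * iv u = 1 ∧ iv u * u = 1 ∧ nm (iv u) = 1 := by
  unfold iv
  rw [dif_pos hu]
  exact Classical.choose_spec (unit u hu)

theorem nm_even (y : S) (ε : ℤ) (hε : ε = 1 ∨ ε = -1) : Even (nm (y + ε • star y)) := by
  have h1 : ((nm (y + ε • star y) : ℤ) : ZMod 2) = 0 := by
    unfold nm
    rw [par_ip, map_add]
    rcases hε with rfl | rfl
    · rw [one_smul, par_star]
      exact CharTwo.add_self_eq_zero _
    · rw [neg_smul, one_smul, map_neg, par_star, CharTwo.neg_eq]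
      exact CharTwo.add_self_eq_zero _
  exact (ZMod.intCast_zmod_eq_zero_iff_dvd _ 2).1 h1 |> fun h => even_iff_two_dvd.2 (by exact_mod_cast h)

section vec

variable {κ : Type} [Fintype κ] [DecidableEq κ]

/-- the inner product of vectors -/
def IP (x y : κ → S) : ℤ := ∑ j, ip (x j) (y j)

/-- the norm of a vector -/
def NN (x : κ → S) : ℤ := ∑ j, nm (x j)

theorem NN_eq (x : κ → S) : NN x = IP x x := rfl

theorem NN_nonneg (x : κ → S) : 0 ≤ NN x := Finset.sum_nonneg fun _ _ => nm_nonneg _

theorem NN_eq_zero {x : κ → S} (h : NN x = 0) : x = 0 := by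
  unfold NN at h
  rw [Finset.sum_eq_zero_iff_of_nonneg fun _ _ => nm_nonneg _] at h
  funext j
  exact nm_eq_zero.1 (h j (Finset.mem_univ j))

theorem nm_le_NN (x : κ → S) (j : κ) : nm (x j) ≤ NN x :=
  Finset.single_le_sum (f := fun j => nm (x j)) (fun _ _ => nm_nonneg _) (Finset.mem_univ j)

theorem IP_comm (x y : κ → S) : IP x y = IP y x := Finset.sum_congr rfl fun _ _ => ip_comm _ _

theorem IP_sub_left (x y z : κ → S) : IP (x - y) z = IP x z - IP y z := by
  unfold IP
  rw [← Finset.sum_sub_distrib]
  exact Finset.sum_congr rfl fun _ _ => ip_sub_left _ _ _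

theorem IP_add_left (x y z : κ → S) : IP (x + y) z = IP x z + IP y z := by
  unfold IP
  rw [← Finset.sum_add_distrib]
  exact Finset.sum_congr rfl fun _ _ => ip_add_left _ _ _

theorem IP_sub_right (x y z : κ → S) : IP x (y - z) = IP x y - IP x z := by
  rw [IP_comm, IP_sub_left, IP_comm y, IP_comm z]

theorem IP_add_right (x y z : κ → S) : IP x (y + z) = IP x y + IP x z := by
  rw [IP_comm, IP_add_left, IP_comm y, IP_comm z]

theorem NN_sub (x y : κ → S) : NN (x - y) = NN x + NN y - 2 * IP x y := by
  rw [NN_eq, IP_sub_left, IP_sub_right, IP_sub_right, IP_comm y x]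
  change IP x x - _ - _ = IP x x + IP y y - _
  ring

theorem NN_add (x y : κ → S) : NN (x + y) = NN x + NN y + 2 * IP x y := by
  rw [NN_eq, IP_add_left, IP_add_right, IP_add_right, IP_comm y x]
  change IP x x + _ + _ = IP x x + IP y y + _
  ring

theorem NN_neg (x : κ → S) : NN (-x) = NN x := Finset.sum_congr rfl fun _ _ => nm_neg _

theorem NN_smul (u : S) (hu : nm u = 1) (x : κ → S) : NN (u • x) = NN x :=
  Finset.sum_congr rfl fun _ _ => nm_mul_left u hu _

theorem IP_smul (u : S) (hu : nm u = 1) (x y : κ → S) : IP (u • x) (u • y) = IP x y :=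
  Finset.sum_congr rfl fun _ _ => left u hu _ _

/-- the basis vectors -/
theorem NN_single (i : κ) (u : S) : NN (Pi.single i u : κ → S) = nm u := by
  unfold NN
  rw [Finset.sum_eq_single i]
  · rw [Pi.single_eq_same]
  · intro j _ hj; rw [Pi.single_eq_of_ne hj, nm_zero]
  · intro h; exact absurd (Finset.mem_univ i) h

theorem IP_single_left (i : κ) (u : S) (x : κ → S) : IP (Pi.single i u) x = ip u (x i) := by
  unfold IP
  rw [Finset.sum_eq_single i]
  · rw [Pi.single_eq_same]
  · intro j _ hj; rw [Pi.single_eq_of_ne hj, ip_zero_left]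
  · intro h; exact absurd (Finset.mem_univ i) h

/-- a Cauchy-Schwarz bound -/
theorem abs_IP_le (x y : κ → S) (hx : NN x = 1) (hy : NN y ≤ 3) : -1 ≤ IP x y ∧ IP x y ≤ 1 := by
  have h1 := NN_nonneg (y - x - x)
  have h2 := NN_nonneg (y + x + x)
  rw [NN_sub, NN_sub, IP_sub_left, IP_comm y x] at h1
  rw [NN_add, NN_add, IP_add_left, IP_comm y x] at h2
  have h3 : IP x x = 1 := hx
  rw [h3] at h1 h2
  constructor <;> omega

/-- a vector of norm one -/
theorem split1 {x : κ → S} (h : NN x = 1) : ∃ j t, nm t = 1 ∧ x = Pi.single j t := by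
  have hx : ∃ j, x j ≠ 0 := by
    by_contra hcon
    push Not at hcon
    have : NN x = 0 := Finset.sum_eq_zero fun j _ => by rw [hcon j, nm_zero]
    omega
  obtain ⟨j, hj⟩ := hx
  have h1 : 0 < nm (x j) := lt_of_le_of_ne (nm_nonneg _) fun h => hj (nm_eq_zero.1 h.symm)
  have h2 : NN (x - Pi.single j (x j)) = NN x - nm (x j) := by
    rw [NN_sub, NN_single, IP_comm, IP_single_left]
    unfold nm; ring
  have h3 := NN_nonneg (x - Pi.single j (x j))
  refine ⟨j, x j, by omega, ?_⟩
  have h4 : NN (x - Pi.single j (x j)) = 0 := by omega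
  exact sub_eq_zero.1 (NN_eq_zero h4)

theorem NN_erase (x : κ → S) (j : κ) : NN (x - Pi.single j (x j)) = NN x - nm (x j) := by
  rw [NN_sub, NN_single, IP_comm, IP_single_left]
  unfold nm; ring

/-- a vector of norm two which is unimodular -/
theorem split2 {x : κ → S} (h : NN x = 2) (B : κ → S) (hB : ∑ a, x a * B a = 1) :
    ∃ j k u v, j ≠ k ∧ nm u = 1 ∧ nm v = 1 ∧ x = Pi.single j u + Pi.single k v := by
  obtain ⟨j, hj⟩ : ∃ j, nm (x j) = 1 := by
    by_contra hcon
    push Not at hcon
    have hx : ∃ j, x j ≠ 0 := by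
      by_contra hcon
      push Not at hcon
      have : NN x = 0 := Finset.sum_eq_zero fun j _ => by rw [hcon j, nm_zero]
      omega
    obtain ⟨j, hj⟩ := hx
    have h1 : 0 < nm (x j) := lt_of_le_of_ne (nm_nonneg _) fun h => hj (nm_eq_zero.1 h.symm)
    have h2 := nm_le_NN x j
    have h3 := hcon j
    have h4 : nm (x j) = 2 := by omega
    have h5 : NN (x - Pi.single j (x j)) = 0 := by rw [NN_erase]; omega
    have h6 : x = Pi.single j (x j) := sub_eq_zero.1 (NN_eq_zero h5)
    have h7 : ∑ a, x a * B a = x j * B j := by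
      rw [Finset.sum_eq_single j]
      · intro a _ ha; rw [h6, Pi.single_eq_of_ne ha, zero_mul]
      · intro h; exact absurd (Finset.mem_univ j) h
    rw [hB] at h7
    have h8 := congrArg (par (S := S)) h7
    rw [map_one, map_mul, ← par_ip] at h8
    change 1 = ((nm (x j) : ℤ) : ZMod 2) * _ at h8
    rw [h4] at h8
    have h9 : ((2 : ℤ) : ZMod 2) = 0 := by decide
    rw [h9, zero_mul] at h8
    exact one_ne_zero h8
  have h1 : NN (x - Pi.single j (x j)) = 1 := by rw [NN_erase]; omega
  obtain ⟨k, v, hv, hk⟩ := split1 h1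
  have hkj : j ≠ k := by
    rintro rfl
    have := congrFun hk j
    rw [Pi.sub_apply, Pi.single_eq_same, sub_self, Pi.single_eq_same] at this
    rw [← this, nm_zero] at hv
    omega
  exact ⟨j, k, x j, v, hkj, hj, hv, by rw [← hk]; abel⟩

end vec

end Pool.Agent.Q181.GP
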