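import Pool.Agent.Q181.GP.FinB

set_option autoImplicit false
set_option linter.unusedSectionVars false
set_option linter.style.haveILetI false

/-! The bound for forms is sharp for the cyclic group of order five. -/

namespace Pool.Agent.Q181.GP

open Matrix LatRing TH57.Thr TH6.LF TH6.PF Pool.Agent.Y75.Th

section comm

variable {Γ : Type} [CommGroup Γ]

theorem det_sadj (w : Γ →* ℤˣ) {κ : Type} [Fintype κ] [DecidableEq κ]
    (A : Matrix κ κ (MonoidAlgebra ℤ Γ)) : (sadj w A).det = sbar w A.det := by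
  have h1 : ∀ (s : Finset κ) (f : κ → MonoidAlgebra ℤ Γ),
      sbar w (∏ i ∈ s, f i) = ∏ i ∈ s, sbar w (f i) := by
    classical
    intro s f
    induction s using Finset.induction_on with
    | empty => rw [Finset.prod_empty, Finset.prod_empty, sbar_one]
    | insert a s ha ih => rw [Finset.prod_insert ha, Finset.prod_insert ha, sbar_mul, ih, mul_comm]
  rw [← Matrix.det_transpose, Matrix.det_apply, Matrix.det_apply, sbar_sum]
  refine Finset.sum_congr rfl fun σ _ => ?_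
  rw [Units.smul_def, Units.smul_def, sbar_zsmul, h1]
  rfl

theorem det_sim (w : Γ →* ℤˣ) (hw : w = 1) {κ : Type} [Fintype κ] [DecidableEq κ]
    {U : (Matrix κ κ (MonoidAlgebra ℤ Γ))ˣ} (hU : U ∈ SimG Γ κ) :
    U.val.det * (sadj w U.val).det = 1 := by
  subst hw
  rw [det_sadj]
  have key : ∀ x : (Matrix κ κ (MonoidAlgebra ℤ Γ))ˣ, x ∈ SimG Γ κ →
      x.val.det * sbar (1 : Γ →* ℤˣ) x.val.det = 1 := by
    intro x hx
    unfold SimG at hx
    induction hx using Subgroup.closure_induction with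
    | mem x hx =>
      rcases hx with ⟨i, j, c, hij, hx⟩ | ⟨i, g, e, hx⟩
      · have h1 : x.val.det = 1 := by
          rw [hx]; exact Matrix.det_transvection_of_ne i j hij c
        rw [h1, sbar_one, one_mul]
      · have h1 : x.val.det = MonoidAlgebra.single g (e : ℤ) := by
          rw [hx, Matrix.det_diagonal, Finset.prod_eq_single i]
          · rw [Function.update_self]
          · intro b _ hb; rw [Function.update_of_ne hb, Pi.one_apply]
          · intro h; exact absurd (Finset.mem_univ i) h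
        rw [h1, sbar_single, MonoidAlgebra.single_mul_single, mul_inv_cancel]
        rcases Int.units_eq_one_or e with rfl | rfl <;> simp [MonoidAlgebra.one_def]
    | one => rw [Units.val_one, Matrix.det_one, sbar_one, one_mul]
    | mul x y _ _ hx hy =>
      have h3 : (x * y).val.det = x.val.det * y.val.det := by
        rw [Units.val_mul]; exact Matrix.det_mul _ _
      rw [h3, sbar_mul]
      generalize x.val.det = a at *
      generalize y.val.det = b at *
      generalize sbar (1 : Γ →* ℤˣ) a = a' at *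
      generalize sbar (1 : Γ →* ℤˣ) b = b' at *
      calc a * b * (b' * a') = (a * a') * (b * b') := by ring
        _ = 1 := by rw [hx, hy, one_mul]
    | inv x _ hx =>
      have h1 : x.val.det * x⁻¹.val.det = 1 := by
        rw [← Matrix.det_mul]
        have : x.val * x⁻¹.val = 1 := x.mul_inv
        exact (congrArg Matrix.det this).trans Matrix.det_one
      have h2 : sbar (1 : Γ →* ℤˣ) x⁻¹.val.det * sbar (1 : Γ →* ℤˣ) x.val.det = 1 := by
        rw [← sbar_mul, h1, sbar_one]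
      generalize x.val.det = a at *
      generalize x⁻¹.val.det = b at *
      generalize sbar (1 : Γ →* ℤˣ) a = a' at *
      generalize sbar (1 : Γ →* ℤˣ) b = b' at *
      calc b * b' = (a * a') * (b * b') := by rw [hx, one_mul]
        _ = (a * b) * (b' * a') := by ring
        _ = 1 := by rw [h1, h2, one_mul]
  exact key U hU

theorem det_J {R : Type} [CommRing R] {ε : ℤ} (hε : ε = 1 ∨ ε = -1) (m : Type) [Fintype m]
    [DecidableEq m] :
    (fromBlocks 0 1 (ε • 1) 0 : Matrix (m ⊕ m) (m ⊕ m) R).det ^ 2 = 1 := by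
  rw [← Matrix.det_pow, pow_two, fromBlocks_multiply]
  have h1 : (fromBlocks (0 * 0 + 1 * ε • 1) (0 * 1 + 1 * 0) (ε • 1 * 0 + 0 * ε • 1)
      (ε • 1 * 1 + 0 * 0) : Matrix (m ⊕ m) (m ⊕ m) R) = ε • (1 : Matrix (m ⊕ m) (m ⊕ m) R) := by
    rw [← Matrix.fromBlocks_one, Matrix.fromBlocks_smul]
    simp
  rw [h1]
  rcases hε with rfl | rfl
  · rw [one_smul, Matrix.det_one]
  · rw [neg_smul, one_smul, Matrix.det_neg, Matrix.det_one, mul_one, Fintype.card_sum]
    exact Even.neg_one_pow ⟨_, rfl⟩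

theorem det_J' {R : Type} [CommRing R] {ε : ℤ} (hε : ε = 1 ∨ ε = -1) {n : Type} [Fintype n]
    [DecidableEq n] (m : Type) [Fintype m] [DecidableEq m] (e : n ≃ m ⊕ m) :
    ((fromBlocks 0 1 (ε • 1) 0 : Matrix (m ⊕ m) (m ⊕ m) R).submatrix e e).det ^ 2 = 1 := by
  rw [Matrix.det_submatrix_equiv_self, det_J hε]

/-- the determinant of a form which is stably standard -/
theorem det_stable {ε : ℤ} (hε : ε = 1 ∨ ε = -1) {n : ℕ}
    (ψ : Matrix (Fin n) (Fin n) (MonoidAlgebra ℤ Γ)) (k m : ℕ)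
    (e : Fin n ⊕ (Fin k ⊕ Fin k) ≃ Fin m ⊕ Fin m)
    (U : (Matrix (Fin n ⊕ (Fin k ⊕ Fin k)) (Fin n ⊕ (Fin k ⊕ Fin k)) (MonoidAlgebra ℤ Γ))ˣ)
    (hU : U ∈ SimG Γ (Fin n ⊕ (Fin k ⊕ Fin k)))
    (d : Fin n ⊕ (Fin k ⊕ Fin k) → MonoidAlgebra ℤ Γ)
    (χ : Matrix (Fin n ⊕ (Fin k ⊕ Fin k)) (Fin n ⊕ (Fin k ⊕ Fin k)) (MonoidAlgebra ℤ Γ))
    (hd : ∀ i, d i = 0 ∨ (ε = -1 ∧ d i = 1))
    (h : U.val * addHyp (Fin k) ψ * sadj 1 U.val = (hyp ℤ Γ (Fin m)).submatrix e e
      + Matrix.diagonal d + (χ - ε • sadj 1 χ)) :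
    (ψ + ε • sadj 1 ψ).det ^ 2 = 1 := by
  have hdd : Matrix.diagonal d + ε • sadj (1 : Γ →* ℤˣ) (Matrix.diagonal d) = 0 := by
    ext i j : 2
    rw [Matrix.add_apply, Matrix.smul_apply, sadj_apply]
    by_cases hij : i = j
    · subst hij
      rw [Matrix.diagonal_apply_eq]
      rcases hd i with h0 | ⟨h0, h1⟩
      · rw [h0, sbar_zero, smul_zero, add_zero]; rfl
      · rw [h1, h0, sbar_one, neg_smul, one_smul, add_neg_cancel]; rfl
    · rw [Matrix.diagonal_apply_ne _ hij, Matrix.diagonal_apply_ne _ (Ne.symm hij), sbar_zero,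
        smul_zero, add_zero]; rfl
  have h1 : U.val * (addHyp (Fin k) ψ + ε • sadj 1 (addHyp (Fin k) ψ)) * sadj 1 U.val
      = (fromBlocks 0 1 (ε • 1) 0 :
        Matrix (Fin m ⊕ Fin m) (Fin m ⊕ Fin m) (MonoidAlgebra ℤ Γ)).submatrix e e := by
    have h2 : U.val * (addHyp (Fin k) ψ + ε • sadj 1 (addHyp (Fin k) ψ)) * sadj 1 U.val
        = U.val * addHyp (Fin k) ψ * sadj 1 U.val
          + ε • sadj 1 (U.val * addHyp (Fin k) ψ * sadj 1 U.val) := by
      rw [mul_add, add_mul, mul_smul_comm, smul_mul_assoc, sadj_mul, sadj_mul, sadj_sadj,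
        mul_assoc U.val (sadj 1 _)]
    rw [h2, h, sadj_add, sadj_add, sadj_sub, sadj_zsmul, sadj_sadj, smul_add, smul_add, smul_sub,
      smul_smul, sq_eps hε, one_smul]
    have h3 : (hyp ℤ Γ (Fin m)).submatrix e e + ε • sadj 1 ((hyp ℤ Γ (Fin m)).submatrix e e)
        = (fromBlocks 0 1 (ε • 1) 0 :
        Matrix (Fin m ⊕ Fin m) (Fin m ⊕ Fin m) (MonoidAlgebra ℤ Γ)).submatrix e e := by
      rw [sadj_submatrix, hyp, sadj_fromBlocks, sadj_zero, sadj_one]
      ext i j : 2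
      rw [Matrix.add_apply, Matrix.smul_apply, Matrix.submatrix_apply, Matrix.submatrix_apply,
        Matrix.submatrix_apply, ← Matrix.smul_apply, ← Matrix.add_apply, Matrix.fromBlocks_smul,
        Matrix.fromBlocks_add]
      simp
    rw [← h3]
    generalize Matrix.diagonal d = D at *
    calc _ = (hyp ℤ Γ (Fin m)).submatrix e e + ε • sadj 1 ((hyp ℤ Γ (Fin m)).submatrix e e)
          + (D + ε • sadj (1 : Γ →* ℤˣ) D) := by abel
      _ = _ := by rw [hdd, add_zero]
  have h2 := congrArg (fun M => M.det ^ 2) h1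
  simp only [Matrix.det_mul] at h2
  rw [det_J' hε] at h2
  have h3 : (addHyp (Fin k) ψ + ε • sadj 1 (addHyp (Fin k) ψ)).det
      = (ψ + ε • sadj 1 ψ).det * (fromBlocks 0 1 (ε • 1) 0 :
        Matrix (Fin k ⊕ Fin k) (Fin k ⊕ Fin k) (MonoidAlgebra ℤ Γ)).det := by
    rw [← Matrix.det_fromBlocks_zero₂₁ _ 0]
    congr 1
    rw [addHyp, sadj_fromBlocks, sadj_fromBlocks]
    simp only [sadj_zero, sadj_one]
    rw [Matrix.fromBlocks_smul, Matrix.fromBlocks_smul,
      Matrix.fromBlocks_add, Matrix.fromBlocks_add]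
    simp
  have h4 := det_sim (1 : Γ →* ℤˣ) rfl hU
  have h5 := det_J (R := MonoidAlgebra ℤ Γ) hε (Fin k)
  rw [h3] at h2
  generalize U.val.det = a at *
  generalize (sadj 1 U.val).det = b at *
  generalize (ψ + ε • sadj 1 ψ).det = x at *
  generalize (fromBlocks 0 1 (ε • 1) 0 :
        Matrix (Fin k ⊕ Fin k) (Fin k ⊕ Fin k) (MonoidAlgebra ℤ Γ)).det = y at *
  calc x ^ 2 = (a * b) ^ 2 * x ^ 2 * y ^ 2 := by rw [h4, h5]; ring
    _ = (a * (x * y) * b) ^ 2 := by ring
    _ = 1 := h2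

end comm

section ex

/-- the cyclic group of order five -/
abbrev C5 : Type := Multiplicative (ZMod 5)

/-- a homomorphism to the field with eleven elements -/
def ch : C5 →* ZMod 11 where
  toFun x := (![1, 3, 9, 5, 4] : Fin 5 → ZMod 11) (Multiplicative.toAdd x)
  map_one' := by decide
  map_mul' := by decide

/-- group elements in the group ring -/
noncomputable def tt (k : ZMod 5) : MonoidAlgebra ℤ C5 :=
  MonoidAlgebra.single (Multiplicative.ofAdd k) 1

theorem tt_mul (a b : ZMod 5) : tt a * tt b = tt (a + b) := by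
  unfold tt
  rw [MonoidAlgebra.single_mul_single, mul_one]; rfl

theorem tt_zero : tt 0 = 1 := rfl

theorem sbar_tt (a : ZMod 5) : sbar (1 : C5 →* ℤˣ) (tt a) = tt (-a) := by
  unfold tt
  rw [sbar_single]; rfl

/-- the unit -/
noncomputable def uu (a : ZMod 5) : MonoidAlgebra ℤ C5 := tt a + tt (-a) - tt 0

theorem uu_mul : uu 1 * uu 2 = 1 := by
  unfold uu
  simp only [sub_mul, mul_sub, add_mul, mul_add, tt_mul]
  have e1 : (1 + 2 : ZMod 5) = 3 := by decide
  have e2 : (-1 + 2 : ZMod 5) = 1 := by decide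
  have e3 : (1 + -2 : ZMod 5) = 4 := by decide
  have e4 : (-1 + -2 : ZMod 5) = 2 := by decide
  have e5 : (1 + 0 : ZMod 5) = 1 := by decide
  have e6 : (-1 + 0 : ZMod 5) = 4 := by decide
  have e7 : (0 + 2 : ZMod 5) = 2 := by decide
  have e8 : (0 + -2 : ZMod 5) = 3 := by decide
  have e9 : (0 + 0 : ZMod 5) = 0 := by decide
  rw [e1, e2, e3, e4, e5, e6, e7, e8, e9, tt_zero]
  abel

theorem sbar_uu (a : ZMod 5) : sbar (1 : C5 →* ℤˣ) (uu a) = uu a := by
  unfold uu
  rw [sbar_sub, sbar_add, sbar_tt, sbar_tt, sbar_tt, neg_neg, neg_zero, add_comm (tt (-a))]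

theorem nsq_uu (a : ZMod 5) (h1 : a ≠ -a) (h2 : a ≠ 0) (h3 : -a ≠ 0) : nsq (uu a) = 3 := by
  have hc : ∀ g : C5, (uu a).coeff g = (if Multiplicative.ofAdd a = g then 1 else 0)
      + (if Multiplicative.ofAdd (-a) = g then 1 else 0)
      - (if Multiplicative.ofAdd 0 = g then 1 else 0) := by
    intro g
    unfold uu tt
    rw [MonoidAlgebra.coeff_sub, Finsupp.sub_apply, MonoidAlgebra.coeff_add, Finsupp.add_apply,
      MonoidAlgebra.coeff_single, MonoidAlgebra.coeff_single, MonoidAlgebra.coeff_single,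
      Finsupp.single_apply, Finsupp.single_apply, Finsupp.single_apply]
  rw [nsq_eq _ Finset.univ (Finset.subset_univ _)]
  simp only [hc]
  clear hc
  revert a
  decide

/-- The bound five for the sums of the norms is optimal. -/
theorem sharp {ε : ℤ} (hε : ε = 1 ∨ ε = -1) :
    ∃ ψ M : Matrix (Fin 2) (Fin 2) (MonoidAlgebra ℤ C5),
      (ψ + ε • sadj 1 ψ = !![0, uu 1; ε • uu 1, 0] ∧ M = !![0, ε • uu 2; uu 2, 0]) ∧
      (ψ + ε • sadj 1 ψ) * M = 1 ∧ M * (ψ + ε • sadj 1 ψ) = 1 ∧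
      (∀ i, N ((ψ + ε • sadj 1 ψ) i) + N (M i) ≤ 6) ∧
      ∀ (k m : ℕ) (e : Fin 2 ⊕ (Fin k ⊕ Fin k) ≃ Fin m ⊕ Fin m),
        ∀ U ∈ SimG C5 (Fin 2 ⊕ (Fin k ⊕ Fin k)),
        ∀ (d : Fin 2 ⊕ (Fin k ⊕ Fin k) → MonoidAlgebra ℤ C5)
          (χ : Matrix (Fin 2 ⊕ (Fin k ⊕ Fin k)) (Fin 2 ⊕ (Fin k ⊕ Fin k)) (MonoidAlgebra ℤ C5)),
          (∀ i, d i = 0 ∨ (ε = -1 ∧ d i = 1)) →
          U.val * addHyp (Fin k) ψ * sadj 1 U.val ≠ (hyp ℤ C5 (Fin m)).submatrix e e
            + Matrix.diagonal d + (χ - ε • sadj 1 χ) := by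
  have hL : (!![0, uu 1; 0, 0] + ε • sadj (1 : C5 →* ℤˣ) !![0, uu 1; 0, 0] :
      Matrix (Fin 2) (Fin 2) (MonoidAlgebra ℤ C5)) = !![0, uu 1; ε • uu 1, 0] := by
    ext i j : 2
    rw [Matrix.add_apply, Matrix.smul_apply, sadj_apply]
    fin_cases i <;> fin_cases j
    · simp [sbar_zero]
    · simp [sbar_zero]
    · simp [sbar_uu]
    · simp [sbar_zero]
  have h21 : uu 2 * uu 1 = 1 := by rw [mul_comm]; exact uu_mul
  refine ⟨!![0, uu 1; 0, 0], !![0, ε • uu 2; uu 2, 0], ⟨hL, rfl⟩, ?_, ?_, ?_, ?_⟩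
  · rw [hL]
    rcases hε with rfl | rfl
    · simp [uu_mul, Matrix.one_fin_two]
    · simp [uu_mul, Matrix.one_fin_two]
  · rw [hL]
    rcases hε with rfl | rfl
    · simp [h21, Matrix.one_fin_two]
    · simp [h21, Matrix.one_fin_two]
  · rw [hL]
    have e1 : nsq (uu 1) = 3 := nsq_uu 1 (by decide) (by decide) (by decide)
    have e2 : nsq (uu 2) = 3 := nsq_uu 2 (by decide) (by decide) (by decide)
    intro i
    unfold N
    rcases hε with rfl | rfl
    · fin_cases i <;> simp [Fin.sum_univ_two, nsq_zero, e1, e2]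
    · fin_cases i <;> simp [Fin.sum_univ_two, nsq_zero, e1, e2, nsq_neg]
  · intro k m e U hU d χ hd h
    have h1 := det_stable hε _ k m e U hU d χ hd h
    rw [hL, Matrix.det_fin_two_of] at h1
    have h2 : (uu 1 * uu 1) ^ 2 = 1 := by
      rw [← h1]
      rcases hε with rfl | rfl
      · rw [one_smul]; ring
      · rw [neg_smul, one_smul]; ring
    have h3 := congrArg (MonoidAlgebra.lift ℤ (ZMod 11) C5 ch) h2
    have e1 : ∀ k, MonoidAlgebra.lift ℤ (ZMod 11) C5 ch (tt k)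
        = ch (Multiplicative.ofAdd k) := by
      intro k
      unfold tt
      rw [MonoidAlgebra.lift_single, one_smul]
    unfold uu at h3
    rw [map_pow, map_mul, map_sub, map_add, e1, e1, e1,
      map_one (MonoidAlgebra.lift ℤ (ZMod 11) C5 ch)] at h3
    revert h3
    decide

end ex

end Pool.Agent.Q181.GP
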