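import Pool.Agent.Q181.GP.Sharp

set_option autoImplicit false
set_option linter.unusedSectionVars false
set_option linter.style.haveILetI false

/-! The operator norm of the example. -/

namespace Pool.Agent.Q181.GP

open Matrix LatRing TH57.Thr TH6.LF TH6.PF Pool.Agent.Y75.Th

theorem poly5 (r x0 x1 x2 x3 x4 : ℝ) (hr : r ^ 2 = 5) (hr0 : 0 ≤ r) :
    (x1 + x4 - x0) ^ 2 + (x2 + x0 - x1) ^ 2 + (x3 + x1 - x2) ^ 2 + (x4 + x2 - x3) ^ 2
      + (x0 + x3 - x4) ^ 2 ≤ ((3 + r) / 2) ^ 2 * (x0 ^ 2 + x1 ^ 2 + x2 ^ 2 + x3 ^ 2 + x4 ^ 2) := by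
  have key : ((3 + r) / 2) ^ 2 * (x0 ^ 2 + x1 ^ 2 + x2 ^ 2 + x3 ^ 2 + x4 ^ 2)
      - ((x1 + x4 - x0) ^ 2 + (x2 + x0 - x1) ^ 2 + (x3 + x1 - x2) ^ 2 + (x4 + x2 - x3) ^ 2
      + (x0 + x3 - x4) ^ 2)
      = ((5 + 3 * r) / 10) * (x0 + x1 + x2 + x3 + x4) ^ 2
        + (3 * r / 25) * ((2 * x0 + (r - 1) / 2 * (x1 + x4) - (r + 1) / 2 * (x2 + x3)) ^ 2
          + (2 * x1 + (r - 1) / 2 * (x2 + x0) - (r + 1) / 2 * (x3 + x4)) ^ 2
          + (2 * x2 + (r - 1) / 2 * (x3 + x1) - (r + 1) / 2 * (x4 + x0)) ^ 2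
          + (2 * x3 + (r - 1) / 2 * (x4 + x2) - (r + 1) / 2 * (x0 + x1)) ^ 2
          + (2 * x4 + (r - 1) / 2 * (x0 + x3) - (r + 1) / 2 * (x1 + x2)) ^ 2) := by
    have h3 : r ^ 3 = 5 * r := by rw [pow_succ, hr]
    ring_nf
    rw [h3, hr]
    ring
  have h1 : 0 ≤ ((5 + 3 * r) / 10) * (x0 + x1 + x2 + x3 + x4) ^ 2 := by positivity
  have h2 : 0 ≤ (3 * r / 25) * ((2 * x0 + (r - 1) / 2 * (x1 + x4) - (r + 1) / 2 * (x2 + x3)) ^ 2
          + (2 * x1 + (r - 1) / 2 * (x2 + x0) - (r + 1) / 2 * (x3 + x4)) ^ 2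
          + (2 * x2 + (r - 1) / 2 * (x3 + x1) - (r + 1) / 2 * (x4 + x0)) ^ 2
          + (2 * x3 + (r - 1) / 2 * (x4 + x2) - (r + 1) / 2 * (x0 + x1)) ^ 2
          + (2 * x4 + (r - 1) / 2 * (x0 + x3) - (r + 1) / 2 * (x1 + x2)) ^ 2) := by positivity
  linarith

theorem sum5 (f : C5 → ℝ) : ∑ h, f h = f (Multiplicative.ofAdd 0) + f (Multiplicative.ofAdd 1)
    + f (Multiplicative.ofAdd 2) + f (Multiplicative.ofAdd 3) + f (Multiplicative.ofAdd 4) :=
  Fin.sum_univ_five f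

theorem n1_univ (y : MonoidAlgebra ℝ C5) : n1 y = ∑ h, y.coeff h ^ 2 :=
  n1_eq y Finset.univ (Finset.subset_univ _)

theorem coeff_uu (y : MonoidAlgebra ℝ C5) (a : ZMod 5) (h : ZMod 5) :
    (y * MonoidAlgebra.mapRingHom C5 (Int.castRingHom ℝ) (uu a)).coeff (Multiplicative.ofAdd h)
      = y.coeff (Multiplicative.ofAdd (h - a)) + y.coeff (Multiplicative.ofAdd (h + a))
        - y.coeff (Multiplicative.ofAdd h) := by
  have h1 : MonoidAlgebra.mapRingHom C5 (Int.castRingHom ℝ) (uu a)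
      = MonoidAlgebra.single (Multiplicative.ofAdd a) 1
        + MonoidAlgebra.single (Multiplicative.ofAdd (-a)) 1
        - MonoidAlgebra.single (Multiplicative.ofAdd 0) 1 := by
    unfold uu tt
    rw [map_sub, map_add]
    simp
  rw [h1, mul_sub, mul_add, MonoidAlgebra.coeff_sub, Finsupp.sub_apply, MonoidAlgebra.coeff_add,
    Finsupp.add_apply, MonoidAlgebra.coeff_mul_single_apply, MonoidAlgebra.coeff_mul_single_apply,
    MonoidAlgebra.coeff_mul_single_apply, mul_one, mul_one, mul_one]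
  have e1 : Multiplicative.ofAdd h * (Multiplicative.ofAdd a)⁻¹ = Multiplicative.ofAdd (h - a) := by
    rw [← ofAdd_neg, ← ofAdd_add, sub_eq_add_neg]
  have e2 : Multiplicative.ofAdd h * (Multiplicative.ofAdd (-a))⁻¹
      = Multiplicative.ofAdd (h + a) := by
    rw [← ofAdd_neg, ← ofAdd_add, neg_neg]
  have e3 : Multiplicative.ofAdd h * (Multiplicative.ofAdd (0 : ZMod 5))⁻¹
      = Multiplicative.ofAdd h := by
    rw [← ofAdd_neg, ← ofAdd_add, neg_zero, add_zero]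
  rw [e1, e2, e3]

theorem n1_uu (a : ZMod 5) (ha : a = 1 ∨ a = 2) (y : MonoidAlgebra ℝ C5) :
    n1 (y * MonoidAlgebra.mapRingHom C5 (Int.castRingHom ℝ) (uu a))
      ≤ ((3 + Real.sqrt 5) / 2) ^ 2 * n1 y := by
  have hr : Real.sqrt 5 ^ 2 = 5 := Real.sq_sqrt (by norm_num)
  have hr0 : 0 ≤ Real.sqrt 5 := Real.sqrt_nonneg _
  rw [n1_univ, n1_univ, sum5, sum5]
  simp only [coeff_uu]
  rcases ha with rfl | rfl
  · have e0 : (0 - 1 : ZMod 5) = 4 := by decide
    have e1 : (1 - 1 : ZMod 5) = 0 := by decide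
    have e2 : (2 - 1 : ZMod 5) = 1 := by decide
    have e3 : (3 - 1 : ZMod 5) = 2 := by decide
    have e4 : (4 - 1 : ZMod 5) = 3 := by decide
    have f0 : (0 + 1 : ZMod 5) = 1 := by decide
    have f1 : (1 + 1 : ZMod 5) = 2 := by decide
    have f2 : (2 + 1 : ZMod 5) = 3 := by decide
    have f3 : (3 + 1 : ZMod 5) = 4 := by decide
    have f4 : (4 + 1 : ZMod 5) = 0 := by decide
    rw [e0, e1, e2, e3, e4, f0, f1, f2, f3, f4]
    have h := poly5 (Real.sqrt 5) (y.coeff (Multiplicative.ofAdd 0))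
      (y.coeff (Multiplicative.ofAdd 1)) (y.coeff (Multiplicative.ofAdd 2))
      (y.coeff (Multiplicative.ofAdd 3)) (y.coeff (Multiplicative.ofAdd 4)) hr hr0
    refine le_trans (le_of_eq ?_) h
    ring
  · have e0 : (0 - 2 : ZMod 5) = 3 := by decide
    have e1 : (1 - 2 : ZMod 5) = 4 := by decide
    have e2 : (2 - 2 : ZMod 5) = 0 := by decide
    have e3 : (3 - 2 : ZMod 5) = 1 := by decide
    have e4 : (4 - 2 : ZMod 5) = 2 := by decide
    have f0 : (0 + 2 : ZMod 5) = 2 := by decide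
    have f1 : (1 + 2 : ZMod 5) = 3 := by decide
    have f2 : (2 + 2 : ZMod 5) = 4 := by decide
    have f3 : (3 + 2 : ZMod 5) = 0 := by decide
    have f4 : (4 + 2 : ZMod 5) = 1 := by decide
    rw [e0, e1, e2, e3, e4, f0, f1, f2, f3, f4]
    have h := poly5 (Real.sqrt 5) (y.coeff (Multiplicative.ofAdd 0))
      (y.coeff (Multiplicative.ofAdd 2)) (y.coeff (Multiplicative.ofAdd 4))
      (y.coeff (Multiplicative.ofAdd 1)) (y.coeff (Multiplicative.ofAdd 3)) hr hr0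
    refine le_trans (le_of_eq ?_) (le_trans h (le_of_eq ?_))
    · ring
    · ring

/-- the norm of the example -/
theorem norm_ex {ε : ℤ} (hε : ε = 1 ∨ ε = -1) (a : ZMod 5) (ha : a = 1 ∨ a = 2) :
    NormLE !![0, uu a; ε • uu a, 0] ((3 + Real.sqrt 5) / 2) ∧
      NormLE !![0, ε • uu a; uu a, 0] ((3 + Real.sqrt 5) / 2) := by
  have hn : ∀ y : MonoidAlgebra ℝ C5,
      n1 (y * MonoidAlgebra.mapRingHom C5 (Int.castRingHom ℝ) (ε • uu a))
      = n1 (y * MonoidAlgebra.mapRingHom C5 (Int.castRingHom ℝ) (uu a)) := by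
    intro y
    rcases hε with rfl | rfl
    · rw [one_smul]
    · rw [neg_smul, one_smul, map_neg, mul_neg, n1_neg]
  constructor
  · intro x
    have h1 : normSq (x ᵥ* toReal !![0, uu a; ε • uu a, 0])
        = n1 (x 1 * MonoidAlgebra.mapRingHom C5 (Int.castRingHom ℝ) (uu a))
          + n1 (x 0 * MonoidAlgebra.mapRingHom C5 (Int.castRingHom ℝ) (uu a)) := by
      rw [normSq_eq, Fin.sum_univ_two]
      congr 1
      · rw [← hn]
        congr 1
        simp only [Matrix.vecMul, dotProduct, Fin.sum_univ_two, toReal, Matrix.map_apply]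
        simp only [Matrix.of_apply, Matrix.cons_val_zero, Matrix.cons_val_one, Matrix.cons_val',
          Matrix.cons_val_fin_one, map_zero, mul_zero, zero_add]
      · congr 1
        simp only [Matrix.vecMul, dotProduct, Fin.sum_univ_two, toReal, Matrix.map_apply]
        simp only [Matrix.of_apply, Matrix.cons_val_zero, Matrix.cons_val_one, Matrix.cons_val',
          Matrix.cons_val_fin_one, map_zero, mul_zero, add_zero]
    rw [h1, normSq_eq, Fin.sum_univ_two]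
    have h2 := n1_uu a ha (x 0)
    have h3 := n1_uu a ha (x 1)
    linarith
  · intro x
    have h1 : normSq (x ᵥ* toReal !![0, ε • uu a; uu a, 0])
        = n1 (x 1 * MonoidAlgebra.mapRingHom C5 (Int.castRingHom ℝ) (uu a))
          + n1 (x 0 * MonoidAlgebra.mapRingHom C5 (Int.castRingHom ℝ) (uu a)) := by
      rw [normSq_eq, Fin.sum_univ_two]
      congr 1
      · congr 1
        simp only [Matrix.vecMul, dotProduct, Fin.sum_univ_two, toReal, Matrix.map_apply]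
        simp only [Matrix.of_apply, Matrix.cons_val_zero, Matrix.cons_val_one, Matrix.cons_val',
          Matrix.cons_val_fin_one, map_zero, mul_zero, zero_add]
      · rw [← hn]
        congr 1
        simp only [Matrix.vecMul, dotProduct, Fin.sum_univ_two, toReal, Matrix.map_apply]
        simp only [Matrix.of_apply, Matrix.cons_val_zero, Matrix.cons_val_one, Matrix.cons_val',
          Matrix.cons_val_fin_one, map_zero, mul_zero, add_zero]
    rw [h1, normSq_eq, Fin.sum_univ_two]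
    have h2 := n1_uu a ha (x 0)
    have h3 := n1_uu a ha (x 1)
    linarith

/-- The bound five is optimal and the constant `1 + √2` cannot be replaced by `(3 + √5) / 2`. -/
theorem sharpN {ε : ℤ} (hε : ε = 1 ∨ ε = -1) :
    ∃ ψ M : Matrix (Fin 2) (Fin 2) (MonoidAlgebra ℤ C5),
      (ψ + ε • sadj 1 ψ) * M = 1 ∧ M * (ψ + ε • sadj 1 ψ) = 1 ∧
      (∀ i, N ((ψ + ε • sadj 1 ψ) i) + N (M i) ≤ 6) ∧
      NormLE (ψ + ε • sadj 1 ψ) ((3 + Real.sqrt 5) / 2) ∧ NormLE M ((3 + Real.sqrt 5) / 2) ∧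
      ∀ (k m : ℕ) (e : Fin 2 ⊕ (Fin k ⊕ Fin k) ≃ Fin m ⊕ Fin m),
        ∀ U ∈ SimG C5 (Fin 2 ⊕ (Fin k ⊕ Fin k)),
        ∀ (d : Fin 2 ⊕ (Fin k ⊕ Fin k) → MonoidAlgebra ℤ C5)
          (χ : Matrix (Fin 2 ⊕ (Fin k ⊕ Fin k)) (Fin 2 ⊕ (Fin k ⊕ Fin k)) (MonoidAlgebra ℤ C5)),
          (∀ i, d i = 0 ∨ (ε = -1 ∧ d i = 1)) →
          U.val * addHyp (Fin k) ψ * sadj 1 U.val ≠ (hyp ℤ C5 (Fin m)).submatrix e e
            + Matrix.diagonal d + (χ - ε • sadj 1 χ) := by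
  obtain ⟨ψ, M, ⟨h1, h2⟩, h3, h4, h5, h6⟩ := sharp hε
  refine ⟨ψ, M, h3, h4, h5, ?_, ?_, h6⟩
  · rw [h1]; exact (norm_ex hε 1 (Or.inl rfl)).1
  · rw [h2]; exact (norm_ex hε 2 (Or.inr rfl)).2

end Pool.Agent.Q181.GP
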