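import Pool.Agent.Q181.GP.SharpN

set_option autoImplicit false

/-! Definitions for the statement of the gap theorem. -/

namespace Pool.Agent.Q181.GP

open Matrix TH57.Thr TH6.LF TH6.PF Pool.Agent.Y75.Th

variable {Γ : Type} [Group Γ] {κ : Type} [Fintype κ] [DecidableEq κ]

/-- The `ε`-hermitian form `ψ + ε ψ^*` of the quadratic form with the matrix `ψ`. -/
noncomputable def lam (w : Γ →* ℤˣ) (ε : ℤ) (ψ : Matrix κ κ (MonoidAlgebra ℤ Γ)) :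
    Matrix κ κ (MonoidAlgebra ℤ Γ) := ψ + ε • sadj w ψ

/-- The quadratic form `ψ` is nonsingular and `M` is the inverse of `ψ + ε ψ^*`. -/
def InvForm (w : Γ →* ℤˣ) (ε : ℤ) (ψ M : Matrix κ κ (MonoidAlgebra ℤ Γ)) : Prop :=
  lam w ε ψ * M = 1 ∧ M * lam w ε ψ = 1

/-- The quadratic form `ψ` is standard: there are a simple automorphism `U` (a product of elementary
matrices and diagonal matrices `diag(1,…,±g,…,1)`) and a bijection `e` of the basis with the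
standard basis of a hyperbolic form such that `U ψ U^*` is the hyperbolic form plus a diagonal
matrix with entries `0` or, if `ε = -1`, `1`, up to `χ - ε χ^*`. -/
def Standard (w : Γ →* ℤˣ) (ε : ℤ) (ψ : Matrix κ κ (MonoidAlgebra ℤ Γ)) : Prop :=
  ∃ (m : ℕ) (e : κ ≃ Fin m ⊕ Fin m), ∃ U ∈ SimG Γ κ,
    ∃ (d : κ → MonoidAlgebra ℤ Γ) (χ : Matrix κ κ (MonoidAlgebra ℤ Γ)),
      (∀ i, d i = 0 ∨ (ε = -1 ∧ d i = 1)) ∧
      U.val * ψ * sadj w U.val = (hyp ℤ Γ (Fin m)).submatrix e e + Matrix.diagonal d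
        + (χ - ε • sadj w χ)

/-- The sums of the squared norms of the rows of `A` and `B` are at most `r`. -/
def RowSum (A B : Matrix κ κ (MonoidAlgebra ℤ Γ)) (r : ℤ) : Prop := ∀ i, N (A i) + N (B i) ≤ r

/-- The sums of the squared norms of the two rows, and of the two columns, which belong to one
hyperbolic pair, are at most `r`. -/
def PairSum {m : Type} [Fintype m] [DecidableEq m] (A : Matrix (m ⊕ m) (m ⊕ m) (MonoidAlgebra ℤ Γ))
    (r : ℤ) : Prop :=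
  (∀ i, N (A (Sum.inl i)) + N (A (Sum.inr i)) ≤ r) ∧
    ∀ i, N (fun b => A b (Sum.inl i)) + N (fun b => A b (Sum.inr i)) ≤ r

/-- **Quadratic forms which are close to their inverses are standard.** -/
theorem gap_forms (w : Γ →* ℤˣ) {ε : ℤ} (hε : ε = 1 ∨ ε = -1)
    (h2 : ∀ g : Γ, g * g = 1 → g ≠ 1 → ((w g : ℤˣ) : ℤ) = ε) {n : ℕ}
    (ψ M : Matrix (Fin n) (Fin n) (MonoidAlgebra ℤ Γ)) (h : InvForm w ε ψ M)
    (hN : RowSum (lam w ε ψ) M 5 ∨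
      ∃ c : ℝ, 0 < c ∧ c < 1 + Real.sqrt 2 ∧ NormLE (lam w ε ψ) c ∧ NormLE M c) :
    Standard w ε ψ := forms_close w hε h2 ψ M h.1 h.2 hN

/-- **Isometries of small norm.** -/
theorem gap_isos (w : Γ →* ℤˣ) {ε : ℤ} (hε : ε = 1 ∨ ε = -1) {m : ℕ}
    (A : (Matrix (Fin m ⊕ Fin m) (Fin m ⊕ Fin m) (MonoidAlgebra ℤ Γ))ˣ) (hA : IsoG w ε A.val)
    (hN : PairSum A.val 5 ∨ ∃ c : ℝ, 0 < c ∧ c < 1 + Real.sqrt 2 ∧ NormLE A.val c) :
    A ∈ WallG w ε (Fin m) := isos_close w hε A hA hN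

/-- The example. -/
theorem gap_sharp {ε : ℤ} (hε : ε = 1 ∨ ε = -1) :
    ∃ ψ M : Matrix (Fin 2) (Fin 2) (MonoidAlgebra ℤ (Multiplicative (ZMod 5))),
      InvForm 1 ε ψ M ∧ RowSum (lam 1 ε ψ) M 6 ∧
      NormLE (lam 1 ε ψ) ((3 + Real.sqrt 5) / 2) ∧ NormLE M ((3 + Real.sqrt 5) / 2) ∧
      ∀ k : ℕ, ¬ Standard 1 ε (addHyp (Fin k) ψ) := by
  obtain ⟨ψ, M, h1, h2, h3, h4, h5, h6⟩ := sharpN hε
  refine ⟨ψ, M, ⟨h1, h2⟩, h3, h4, h5, ?_⟩
  rintro k ⟨m, e, U, hU, d, χ, hd, h⟩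
  exact h6 k m e U hU d χ hd h

end Pool.Agent.Q181.GP
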