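import Pool.Agent.Q181.GP.Peel

set_option autoImplicit false
set_option linter.unusedSectionVars false

/-! The contraction step for forms. -/

namespace Pool.Agent.Q181.GP

open Matrix LatRing

variable {S : Type} [Ring S] [StarRing S] [LatRing S] {κ : Type} [Fintype κ] [DecidableEq κ]

theorem NN_sub_single (v : κ → S) (l : κ) (c : S) :
    NN (v - Pi.single l c) = NN v - nm (v l) + nm (v l - c) := by
  rw [NN_sub, NN_single, IP_comm, IP_single_left, nm_sub, ip_comm]
  ring

theorem one_le_NN (A B : Matrix κ κ S) (h : A * B = 1) (a : κ) : 1 ≤ NN (A a) := by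
  have h0 := NN_nonneg (A a)
  by_contra hcon
  have h1 : A a = 0 := NN_eq_zero (by omega)
  have h2 := row_mul A B h a
  rw [h1, Matrix.zero_vecMul] at h2
  have h3 := congrFun h2 a
  rw [Pi.single_eq_same] at h3
  exact one_ne h3.symm

/-- the hypothesis on the rows -/
def Bd (L M : Matrix κ κ S) : Prop := ∀ a, NN (L a) + NN (M a) ≤ 5

/-- no row with a single entry except for the finished ones -/
def Nop (L M : Matrix κ κ S) : Prop :=
  ∀ a, NN (L a) + NN (M a) = 2 ∨ (2 ≤ NN (L a) ∧ 2 ≤ NN (M a))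

/-- one step -/
def Step (ε : ℤ) (L M : Matrix κ κ S) : Prop :=
  ∃ U ∈ Simp S κ, ∃ L' M' : Matrix κ κ S, L' = U.val * L * U.valᴴ ∧ Frm ε L' M' ∧ Bd L' M' ∧
    (∀ a, NN (L a) + NN (M a) = 2 → NN (L' a) + NN (M' a) = 2) ∧
    ∃ i, NN (L i) + NN (M i) ≠ 2 ∧ NN (L' i) + NN (M' i) = 2

theorem NN_two (x y : κ → S) (i j : κ) (hij : i ≠ j) (hi : y i = 0) (hj : y j = 0)
    (h : ∀ b, b ≠ i → b ≠ j → y b = x b) : NN y = NN x - nm (x i) - nm (x j) := by
  have h1 : y = x - Pi.single i (x i) - Pi.single j (x j) := by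
    funext b
    rw [Pi.sub_apply, Pi.sub_apply]
    by_cases hb : b = i
    · subst hb
      rw [hi, Pi.single_eq_same, Pi.single_eq_of_ne hij, sub_self, sub_zero]
    · by_cases hb2 : b = j
      · subst hb2
        rw [hj, Pi.single_eq_same, Pi.single_eq_of_ne hb, sub_zero, sub_self]
      · rw [h b hb hb2, Pi.single_eq_of_ne hb, Pi.single_eq_of_ne hb2, sub_zero, sub_zero]
  rw [h1, NN_sub_single, NN_sub_single, Pi.sub_apply, Pi.single_eq_of_ne (Ne.symm hij), sub_zero,
    sub_self, sub_self, nm_zero]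
  ring

/-- peeling is a step -/
theorem step_one {ε : ℤ} (hε : ε = 1 ∨ ε = -1) {L M : Matrix κ κ S} (h : Frm ε L M)
    (hb : Bd L M) (i : κ) (hi : NN (L i) = 1) (hu : NN (L i) + NN (M i) ≠ 2) : Step ε L M := by
  obtain ⟨j, t, ht, hLi⟩ := split1 hi
  obtain ⟨hij, U, hU, L', M', hL', hF, n1, n2, n3, n4, hr⟩ := peel hε h i j t ht hLi
  have key : ∀ a, a ≠ i → a ≠ j → NN (L' a) ≤ NN (L a) ∧ NN (M' a) ≤ NN (M a) := by
    intro a hai haj
    obtain ⟨r1, r2, r3, r4, r5⟩ := hr a hai haj
    have e1 := NN_two (L a) (L' a) i j hij r1 r2 fun b hb1 hb2 => (r5 b hb1 hb2).1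
    have e2 := NN_two (M a) (M' a) i j hij r3 r4 fun b hb1 hb2 => (r5 b hb1 hb2).2
    have p1 := nm_nonneg (L a i)
    have p2 := nm_nonneg (L a j)
    have p3 := nm_nonneg (M a i)
    have p4 := nm_nonneg (M a j)
    constructor <;> omega
  refine ⟨U, hU, L', M', hL', hF, ?_, ?_, i, hu, by omega⟩
  · intro a
    by_cases hai : a = i
    · subst hai; omega
    · by_cases haj : a = j
      · subst haj; omega
      · have := key a hai haj
        have := hb a
        omega
  · intro a ha
    by_cases hai : a = i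
    · subst hai; omega
    · by_cases haj : a = j
      · subst haj; omega
      · have h1 := key a hai haj
        have h2 := one_le_NN L' M' hF.h1 a
        have h3 := one_le_NN M' L' hF.h2 a
        omega

/-- the data of a contraction -/
theorem contraction_data {ε : ℤ} (hε : ε = 1 ∨ ε = -1) {L M : Matrix κ κ S} (h : Frm ε L M)
    (hb : Bd L M) (hn : Nop L M) (i : κ) (hi : NN (L i) = 2) :
    ∃ j k u v, j ≠ k ∧ i ≠ j ∧ i ≠ k ∧ nm u = 1 ∧ nm v = 1 ∧
      L i = Pi.single j u + Pi.single k v ∧ NN (M j) = 3 ∧ NN (M k) = 2 ∧ NN (L j) = 2 ∧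
      IP (Pi.single i 1) (v • M k) = 0 := by
  have hMi : 2 ≤ NN (M i) := by
    rcases hn i with h1 | h1
    · have := one_le_NN M L h.h2 i
      omega
    · exact h1.2
  obtain ⟨j, k, u, v, hjk, hu, hv, hL⟩ := split2 hi (fun a => M a i) (by
    have := congrFun (congrFun h.h1 i) i
    rwa [Matrix.mul_apply, Matrix.one_apply_eq] at this)
  have hLj : L i j = u := by
    rw [hL, Pi.add_apply, Pi.single_eq_same, Pi.single_eq_of_ne hjk, add_zero]
  have hLk : L i k = v := by
    rw [hL, Pi.add_apply, Pi.single_eq_same, Pi.single_eq_of_ne (Ne.symm hjk), zero_add]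
  have hodd : ¬ Even (1 : ℤ) := by decide
  have hij : i ≠ j := by
    rintro rfl
    have h1 := h.even hε i
    rw [hLj, hu] at h1
    exact hodd h1
  have hik : i ≠ k := by
    rintro rfl
    have h1 := h.even hε i
    rw [hLk, hv] at h1
    exact hodd h1
  -- the neighbours are not finished
  have hnb : ∀ p, L i p ≠ 0 → i ≠ p → 2 ≤ NN (M p) ∧ NN (M p) ≤ 3 ∧ 2 ≤ NN (L p) := by
    intro p hp hip
    have h5 := hb p
    rcases hn p with h1 | h1
    · exfalso
      have h2 := one_le_NN L M h.h1 p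
      have h3 := one_le_NN M L h.h2 p
      obtain ⟨q, t, ht, hq⟩ := split1 (x := L p) (by omega)
      have h4 : L p i ≠ 0 := by
        intro h0
        apply hp
        rw [h.entry hε, h0, star_zero, smul_zero]
      have h6 : q = i := by
        by_contra hqi
        apply h4
        rw [hq, Pi.single_eq_of_ne (Ne.symm hqi)]
      subst h6
      have h7 := row_mul L M h.h1 p
      rw [hq, single_vecMul'] at h7
      have h8 : NN (M q) = 1 := by rw [← NN_smul t ht, h7, NN_single, nm_one]
      omega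
    · omega
  have hne : ∀ x : S, nm x = 1 → x ≠ 0 := by
    rintro x hx rfl
    rw [nm_zero] at hx; omega
  have hj := hnb j (by rw [hLj]; exact hne u hu) hij
  have hk := hnb k (by rw [hLk]; exact hne v hv) hik
  have hrow := row_two L M h.h1 i j k u v hL
  have hr1 := NN_rel M i j k u v hu hv hrow
  have hrow' : v • M k + u • M j = Pi.single i 1 := by rw [← hrow, add_comm]
  have hr2 := NN_rel M i k j v u hv hu hrow'
  have a1 := abs_IP_le (Pi.single i (1 : S)) (v • M k) (by rw [NN_single, nm_one])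
    (by rw [NN_smul v hv]; omega)
  have a2 := abs_IP_le (Pi.single i (1 : S)) (u • M j) (by rw [NN_single, nm_one])
    (by rw [NN_smul u hu]; omega)
  have b1 := hb j
  have b2 := hb k
  have hcase : (NN (M j) = 3 ∧ NN (M k) = 2) ∨ (NN (M k) = 3 ∧ NN (M j) = 2) := by omega
  rcases hcase with hc | hc
  · exact ⟨j, k, u, v, hjk, hij, hik, hu, hv, hL, hc.1, hc.2, by omega, by omega⟩
  · exact ⟨k, j, v, u, Ne.symm hjk, hik, hij, hv, hu, by rw [hL, add_comm], hc.1, hc.2, by omega,
      by omega⟩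

theorem star_iv (u : S) (hu : nm u = 1) : star (iv u) * star u = 1 ∧ star u * star (iv u) = 1 := by
  obtain ⟨h1, h2, _⟩ := iv_spec u hu
  constructor
  · rw [← star_mul, h1, star_one]
  · rw [← star_mul, h2, star_one]

theorem smul_cancel (t : S) (ht : nm t = 1) (x y : κ → S) (h : t • x = t • y) : x = y := by
  obtain ⟨_, h2, _⟩ := iv_spec t ht
  have h3 := congrArg (fun z => iv t • z) h
  simp only [smul_smul, h2, one_smul] at h3
  exact h3

end Pool.Agent.Q181.GP
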