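import Pool.Agent.Q181.GP.Step

set_option autoImplicit false
set_option linter.unusedSectionVars false

/-! The contraction step for forms. -/

namespace Pool.Agent.Q181.GP

open Matrix LatRing

variable {S : Type} [Ring S] [StarRing S] [LatRing S] {κ : Type} [Fintype κ] [DecidableEq κ]

/-- the exceptional diagonal entry -/
theorem loop_case {ε : ℤ} (hε : ε = 1 ∨ ε = -1) {L M : Matrix κ κ S} (h : Frm ε L M)
    (hM3 : ∀ a, NN (M a) ≤ 3) (i j k : κ) (u v y : S) (hjk : j ≠ k) (hij : i ≠ j) (hik : i ≠ k)
    (hu : nm u = 1) (hv : nm v = 1) (hy : nm y = 1) (hL : L i = Pi.single j u + Pi.single k v)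
    (hLj : L j = Pi.single i (ε • star u) + Pi.single k y) (hk : NN (M k) = 2)
    (hp : IP (Pi.single i 1) (v • M k) = 0) (hNk : NN (L k) ≤ 3) :
    nm (star (iv u * v) * y + L k j * (iv u * v)) ≤ 2 := by
  obtain ⟨_, hiu, hiv⟩ := iv_spec u hu
  have hLij : L i j = u := by
    rw [hL, Pi.add_apply, Pi.single_eq_same, Pi.single_eq_of_ne hjk, add_zero]
  have hLik : L i k = v := by
    rw [hL, Pi.add_apply, Pi.single_eq_same, Pi.single_eq_of_ne (Ne.symm hjk), zero_add]
  have hLjk : L j k = y := by
    rw [hLj, Pi.add_apply, Pi.single_eq_same, Pi.single_eq_of_ne (Ne.symm hik), zero_add]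
  have hLkj : L k j = ε • star y := by rw [h.entry hε, hLjk]
  have hLki : L k i = ε • star v := by rw [h.entry hε, hLik]
  set x := iv u * v with hx
  have hx1 : nm x = 1 := by rw [hx, nm_mul_right v hv, hiv]
  set g := star x * y with hg
  have hg1 : nm g = 1 := by rw [hg, nm_mul_right y hy, nm_star, hx1]
  have hsg : star g = star y * x := by rw [hg, star_mul, star_star]
  have e1 : L k j * x = ε • star g := by rw [hLkj, hsg, smul_mul_assoc]
  rw [e1, nm_add, nm_eps hε, nm_star, hg1]
  by_contra hcon
  have hip : ip g (ε • star g) ≥ 1 := by omega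
  have hgg : g = ε • star g := by
    have h2 : nm (g - ε • star g) ≤ 0 := by
      rw [nm_sub, nm_eps hε, nm_star, hg1]; omega
    have h3 := nm_nonneg (g - ε • star g)
    exact sub_eq_zero.1 (nm_eq_zero.1 (by omega))
  -- the row `k` of `L` without two entries
  set X : κ → S := L k - Pi.single i (L k i) - Pi.single j (L k j) with hX
  have hXN : NN X ≤ 1 := by
    rw [hX, NN_sub_single, NN_sub_single, Pi.sub_apply, Pi.single_eq_of_ne (Ne.symm hij), sub_zero,
      sub_self, sub_self, nm_zero, hLki, hLkj, nm_eps hε, nm_eps hε, nm_star, nm_star, hv, hy]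
    omega
  have h1 := NN_vec_le M hM3 X hXN
  have hrow := row_two L M h.h1 i j k u v hL
  have hrowj := row_two L M h.h1 j i k (ε • star u) y hLj
  -- the two summands
  have f1 : (L k j) • M j = Pi.single i (L k j * iv u) - g • M k := by
    rw [row_j M i j k u v hu hrow (L k j), mul_assoc (L k j), ← hx, e1, ← hgg]
  have f2 : (L k i) • M i = Pi.single j (star x) - g • M k := by
    have h2 : (ε • star u) • M i = Pi.single j 1 - y • M k := by rw [← hrowj]; abel
    have h3 : L k i = star x * (ε • star u) := by
      rw [hLki, mul_smul_comm, ← star_mul, hx, ← mul_assoc, (iv_spec u hu).1, one_mul]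
    rw [h3, ← smul_smul, h2, smul_sub, smul_smul, ← hg, ← Pi.single_smul, smul_eq_mul, mul_one]
  have h2 : X ᵥ* M = (Pi.single k 1 - Pi.single j (star x) - Pi.single i (L k j * iv u))
      + g • M k + g • M k := by
    rw [hX, Matrix.sub_vecMul, Matrix.sub_vecMul, row_mul L M h.h1 k, single_vecMul',
      single_vecMul', f1, f2]
    abel
  rw [h2, NN_double] at h1
  have hc : nm (L k j * iv u) = 1 := by
    have : nm (L k j) = 1 := by rw [hLkj, nm_eps hε, nm_star, hy]
    rw [nm_mul_left _ this, hiv]
  have h3 : NN (Pi.single k 1 - Pi.single j (star x) - Pi.single i (L k j * iv u) : κ → S) = 3 := by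
    rw [NN_sub_single, NN_sub_single, Pi.sub_apply, Pi.single_eq_of_ne hik,
      Pi.single_eq_of_ne hij, Pi.single_eq_of_ne hjk, NN_single, nm_one, sub_zero, zero_sub,
      nm_neg, nm_star, hx1, nm_zero, zero_sub, nm_neg, hc]
    norm_num
  have h4 : NN (g • M k) = 2 := by rw [NN_smul g hg1, hk]
  have h5 : IP (Pi.single i (L k j * iv u)) (g • M k) = 0 := by
    have e3 : (Pi.single i (L k j * iv u) : κ → S) = (L k j * iv u) • Pi.single i 1 := by
      rw [← Pi.single_smul, smul_eq_mul, mul_one]
    have e4 : g • M k = (L k j * iv u) • (v • M k) := by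
      rw [smul_smul, mul_assoc, ← hx, e1, ← hgg]
    rw [e3, e4, IP_smul _ hc, hp]
  have h6 : -1 ≤ IP (Pi.single k 1 : κ → S) (g • M k) - IP (Pi.single j (star x)) (g • M k) := by
    have b1 := abs_IP_le (Pi.single k (1 : S)) (g • M k) (by rw [NN_single, nm_one])
      (by omega)
    have b2 := abs_IP_le (Pi.single j (star x)) (g • M k) (by rw [NN_single, nm_star, hx1])
      (by omega)
    have hev := (h.symm hε).even hε k
    by_cases h0 : M k k = 0
    · have : IP (Pi.single k 1 : κ → S) (g • M k) = 0 := by
        rw [IP_single_left, Pi.smul_apply, smul_eq_mul, h0, mul_zero, ip_zero_right]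
      omega
    · have h7 : 0 < nm (M k k) :=
        lt_of_le_of_ne (nm_nonneg _) fun h => h0 (nm_eq_zero.1 h.symm)
      have h8 := nm_le_NN (M k) k
      have h9 : nm (M k k) = 2 := by
        obtain ⟨z, hz⟩ := hev
        omega
      have h10 : NN (M k - Pi.single k (M k k)) = 0 := by rw [NN_erase]; omega
      have h11 : M k = Pi.single k (M k k) := sub_eq_zero.1 (NN_eq_zero h10)
      have : IP (Pi.single j (star x)) (g • M k) = 0 := by
        rw [IP_single_left, Pi.smul_apply, smul_eq_mul, h11, Pi.single_eq_of_ne hjk, mul_zero,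
          ip_zero_right]
      omega
  rw [IP_sub_left, IP_sub_left, h5, h3, h4] at h1
  omega

/-- **the contraction step** -/
theorem step_two {ε : ℤ} (hε : ε = 1 ∨ ε = -1) {L M : Matrix κ κ S} (h : Frm ε L M)
    (hb : Bd L M) (hn : Nop L M) (i : κ) (hi : NN (L i) = 2) : Step ε L M := by
  have hL3 : ∀ a, NN (L a) ≤ 3 := by
    intro a
    have := hb a
    have h2 := one_le_NN M L h.h2 a
    rcases hn a with h1 | h1 <;> omega
  have hM3 : ∀ a, NN (M a) ≤ 3 := by
    intro a
    have := hb a
    have h2 := one_le_NN L M h.h1 a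
    rcases hn a with h1 | h1 <;> omega
  obtain ⟨j, k, u, v, hjk, hij, hik, hu, hv, hL, hMj, hMk, hLj2, hp⟩ :=
    contraction_data hε h hb hn i hi
  obtain ⟨_, hiu, hiv⟩ := iv_spec u hu
  have hLij : L i j = u := by
    rw [hL, Pi.add_apply, Pi.single_eq_same, Pi.single_eq_of_ne hjk, add_zero]
  have hLik : L i k = v := by
    rw [hL, Pi.add_apply, Pi.single_eq_same, Pi.single_eq_of_ne (Ne.symm hjk), zero_add]
  have hLib : ∀ b, b ≠ j → b ≠ k → L i b = 0 := by
    intro b h1 h2
    rw [hL, Pi.add_apply, Pi.single_eq_of_ne h1, Pi.single_eq_of_ne h2, add_zero]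
  have hLji : L j i = ε • star u := by rw [h.entry hε, hLij]
  have hodd : ¬ Even (1 : ℤ) := by decide
  -- the row `j`
  obtain ⟨l, y, hli, hlj, hy, hLj⟩ : ∃ l y, l ≠ i ∧ l ≠ j ∧ nm y = 1 ∧
      L j = Pi.single i (ε • star u) + Pi.single l y := by
    have h1 : NN (L j - Pi.single i (L j i)) = 1 := by
      rw [NN_erase, hLj2, hLji, nm_eps hε, nm_star, hu]; norm_num
    obtain ⟨l, y, hy, hl⟩ := split1 h1
    have hli : l ≠ i := by
      rintro rfl
      have := congrFun hl l
      rw [Pi.sub_apply, Pi.single_eq_same, sub_self, Pi.single_eq_same] at this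
      rw [← this, nm_zero] at hy; omega
    have h2 : L j = Pi.single i (ε • star u) + Pi.single l y := by rw [← hl, ← hLji]; abel
    refine ⟨l, y, hli, ?_, hy, h2⟩
    rintro rfl
    have h3 := h.even hε l
    rw [h2, Pi.add_apply, Pi.single_eq_same, Pi.single_eq_of_ne hli, zero_add, hy] at h3
    exact hodd h3
  have hLjl : L j l = y := by
    rw [hLj, Pi.add_apply, Pi.single_eq_same, Pi.single_eq_of_ne hli, zero_add]
  have hLjb : ∀ b, b ≠ i → b ≠ l → L j b = 0 := by
    intro b h1 h2
    rw [hLj, Pi.add_apply, Pi.single_eq_of_ne h1, Pi.single_eq_of_ne h2, add_zero]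
  have hLjj : L j j = 0 := hLjb j (Ne.symm hij) (Ne.symm hlj)
  have hLaj : ∀ a, a ≠ i → a ≠ l → L a j = 0 := by
    intro a h1 h2
    rw [h.entry hε, hLjb a h1 h2, star_zero, smul_zero]
  have hLlj : L l j = ε • star y := by rw [h.entry hε, hLjl]
  set x := iv u * v with hx
  have hx1 : nm x = 1 := by rw [hx, nm_mul_right v hv, hiv]
  -- the transvection
  set c : κ → S := Pi.single k (star x) with hc
  have hcj : c j = 0 := by rw [hc, Pi.single_eq_of_ne hjk]
  set W := Cu j c hcj with hW
  set L1 := W.val * L * W.valᴴ with hL1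
  set M1 := W⁻¹.valᴴ * M * W⁻¹.val with hM1
  have hF1 : Frm ε L1 M1 := h.conj W
  have hL1ab : ∀ a b, L1 a b = L a b - c a * L j b - L a j * star (c b) := by
    intro a b
    rw [hL1, hW, Cu_conj, hLjj, mul_zero, zero_mul, add_zero]
  have hck : c k = star x := by rw [hc, Pi.single_eq_same]
  have hcb : ∀ b, b ≠ k → c b = 0 := fun b hb => by rw [hc, Pi.single_eq_of_ne hb]
  have hL1i : L1 i = Pi.single j u := by
    funext b
    rw [hL1ab, hcb i hik, zero_mul, sub_zero]
    by_cases hbj : b = j
    · subst hbj
      rw [hcb b hjk, star_zero, mul_zero, sub_zero, hLij, Pi.single_eq_same]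
    · rw [Pi.single_eq_of_ne hbj]
      by_cases hbk : b = k
      · subst hbk
        rw [hck, star_star, hLij, hLik, hx, ← mul_assoc, (iv_spec u hu).1, one_mul, sub_self]
      · rw [hcb b hbk, star_zero, mul_zero, sub_zero, hLib b hbj hbk]
  have hL1a : ∀ a, a ≠ k → ∀ b, b ≠ k → L1 a b = L a b := by
    intro a ha b hb
    rw [hL1ab, hcb a ha, hcb b hb, zero_mul, star_zero, mul_zero, sub_zero, sub_zero]
  have hL1ak : ∀ a, a ≠ k → L1 a k = L a k - L a j * x := by
    intro a ha
    rw [hL1ab, hcb a ha, hck, zero_mul, star_star, sub_zero]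
  have hL1kb : ∀ b, b ≠ k → L1 k b = L k b - star x * L j b := by
    intro b hb
    rw [hL1ab, hcb b hb, hck, star_zero, mul_zero, sub_zero]
  have hL1kk : L1 k k = L k k - star x * L j k - L k j * x := by
    rw [hL1ab, hck, star_star]
  -- splitting off the plane
  obtain ⟨_, U, hU, L', M', hL', hF, n1, n2, n3, n4, hr⟩ := peel hε hF1 i j u hu hL1i
  have hcore : ∀ a, a ≠ i → nm (L a j) = 1 → nm (L a k - L a j * x) ≤ nm (L a k) + 1 := by
    intro a ha h1
    rw [hx, ← mul_assoc]
    exact core L M h.h1 i j k a u v hu hv hjk hL hM3 hMk hp ha (hL3 a) h1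
  -- the rows of the inverse
  have hM' : ∀ a, a ≠ i → a ≠ j → NN (M' a) ≤ NN (M a) := by
    intro a hai haj
    obtain ⟨_, _, r3, r4, r5⟩ := hr a hai haj
    have e2 := NN_two (M a) (M' a) i j hij r3 r4 fun b hb1 hb2 => by
      rw [(r5 b hb1 hb2).2, hM1, hW]
      exact Cu_inv_conj j c hcj M a b haj hb2
    have p3 := nm_nonneg (M a i)
    have p4 := nm_nonneg (M a j)
    omega
  -- the rows except for `k`
  have hL'a : ∀ a, a ≠ i → a ≠ j → a ≠ k → NN (L' a) ≤ NN (L a) := by
    intro a hai haj hak
    obtain ⟨r1, r2, _, _, r5⟩ := hr a hai haj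
    have e1 := NN_two (L1 a) (L' a) i j hij r1 r2 fun b hb1 hb2 => (r5 b hb1 hb2).1
    have e2 : L1 a = L a - Pi.single k (L a j * x) := by
      funext b
      rw [Pi.sub_apply]
      by_cases hbk : b = k
      · subst hbk; rw [hL1ak a hak, Pi.single_eq_same]
      · rw [hL1a a hak b hbk, Pi.single_eq_of_ne hbk, sub_zero]
    have e3 : NN (L1 a) = NN (L a) - nm (L a k) + nm (L a k - L a j * x) := by
      rw [e2, NN_sub_single]
    have e4 : L1 a i = L a i := hL1a a hak i hik
    have e5 : L1 a j = L a j := hL1a a hak j hjk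
    rw [e4, e5, e3] at e1
    have p1 := nm_nonneg (L a i)
    by_cases hal : a = l
    · subst hal
      have h1 : nm (L a j) = 1 := by rw [hLlj, nm_eps hε, nm_star, hy]
      have h2 := hcore a hli h1
      omega
    · rw [hLaj a hai hal, zero_mul, sub_zero, nm_zero] at e1
      omega
  -- the row `k`
  have hL'k : NN (L' k) ≤ 3 := by
    obtain ⟨r1, r2, _, _, r5⟩ := hr k (Ne.symm hik) (Ne.symm hjk)
    have hLki : nm (L k i) = 1 := by rw [h.entry hε, hLik, nm_eps hε, nm_star, hv]
    by_cases hlk : l = k
    · subst hlk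
      have hloop := loop_case hε h hM3 i j l u v y hjk hij hik hu hv hy hL hLj hMk hp (hL3 l)
      rw [← hx] at hloop
      have hLkj : nm (L l j) = 1 := by rw [hLlj, nm_eps hε, nm_star, hy]
      -- the rest of the row
      have e0 : NN (L l - Pi.single i (L l i) - Pi.single j (L l j)) = NN (L l) - 2 := by
        rw [NN_sub_single, NN_sub_single, Pi.sub_apply, Pi.single_eq_of_ne (Ne.symm hij), sub_zero,
          sub_self, sub_self, nm_zero, hLki, hLkj]
        ring
      have e1 := nm_le_NN (L l - Pi.single i (L l i) - Pi.single j (L l j)) l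
      rw [Pi.sub_apply, Pi.sub_apply, Pi.single_eq_of_ne (Ne.symm hik),
        Pi.single_eq_of_ne (Ne.symm hjk), sub_zero, sub_zero, e0] at e1
      have e2 := h.even hε l
      have e3 := hL3 l
      have e4 : nm (L l l) = 0 := by
        obtain ⟨z, hz⟩ := e2
        have := nm_nonneg (L l l)
        omega
      have e5 : L l l = 0 := nm_eq_zero.1 e4
      have e6 : L' l = (L l - Pi.single i (L l i) - Pi.single j (L l j)) -
          Pi.single l (star x * y + L l j * x) := by
        funext b
        simp only [Pi.sub_apply]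
        by_cases hbi : b = i
        · subst hbi
          rw [r1, Pi.single_eq_same, Pi.single_eq_of_ne hij, Pi.single_eq_of_ne hik]
          abel
        · by_cases hbj : b = j
          · subst hbj
            rw [r2, Pi.single_eq_same, Pi.single_eq_of_ne hbi, Pi.single_eq_of_ne hjk]
            abel
          · rw [(r5 b hbi hbj).1, Pi.single_eq_of_ne hbi, Pi.single_eq_of_ne hbj]
            by_cases hbl : b = l
            · subst hbl
              rw [hL1kk, Pi.single_eq_same, hLjl]
              abel
            · rw [hL1kb b hbl, hLjb b hbi hbl, mul_zero, Pi.single_eq_of_ne hbl]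
              abel
      rw [e6, NN_sub_single, e0]
      simp only [Pi.sub_apply]
      rw [Pi.single_eq_of_ne (Ne.symm hik), Pi.single_eq_of_ne (Ne.symm hjk), sub_zero, sub_zero,
        e5, nm_zero, zero_sub, nm_neg]
      omega
    · have hkl : k ≠ l := Ne.symm hlk
      have hLkj : L k j = 0 := hLaj k (Ne.symm hik) hkl
      have hLjk : L j k = 0 := hLjb k (Ne.symm hik) hkl
      have h1 : nm (L l j) = 1 := by rw [hLlj, nm_eps hε, nm_star, hy]
      have h2 := hcore l hli h1
      have h3 : nm (L k l - star x * y) ≤ nm (L k l) + 1 := by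
        have e1 : L k l - star x * y = ε • star (L l k - L l j * x) := by
          rw [star_sub, star_mul (L l j) x, smul_sub, ← h.entry hε, hLlj, star_zsmul', star_star,
            mul_smul_comm, smul_smul, sq_eps hε, one_smul]
        rw [e1, nm_eps hε, nm_star, h.entry hε k l, nm_eps hε, nm_star]
        exact h2
      have e6 : L' k = (L k - Pi.single i (L k i)) - Pi.single l (star x * y) := by
        funext b
        simp only [Pi.sub_apply]
        by_cases hbi : b = i
        · subst hbi
          rw [r1, Pi.single_eq_same, Pi.single_eq_of_ne (Ne.symm hli)]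
          abel
        · by_cases hbj : b = j
          · subst hbj
            rw [r2, hLkj, Pi.single_eq_of_ne hbi, Pi.single_eq_of_ne (Ne.symm hlj)]
            abel
          · rw [(r5 b hbi hbj).1, Pi.single_eq_of_ne hbi]
            by_cases hbk : b = k
            · subst hbk
              rw [hL1kk, hLjk, hLkj, Pi.single_eq_of_ne hkl, mul_zero, zero_mul]
            · rw [hL1kb b hbk]
              by_cases hbl : b = l
              · subst hbl
                rw [hLjl, Pi.single_eq_same, sub_zero]
              · rw [hLjb b hbi hbl, mul_zero, Pi.single_eq_of_ne hbl, sub_zero, sub_zero]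
      have h4 := hL3 k
      rw [e6, NN_sub_single, NN_sub_single, sub_self, nm_zero, hLki, Pi.sub_apply,
        Pi.single_eq_of_ne hli, sub_zero]
      omega
  refine ⟨U * W, mul_mem hU (Cu_mem j c hcj), L', M', ?_, hF, ?_, ?_, i, by
    have := one_le_NN M L h.h2 i
    omega, by omega⟩
  · rw [hL', hL1, Units.val_mul, conjTranspose_mul]
    simp only [mul_assoc]
  · intro a
    by_cases hai : a = i
    · subst hai; omega
    · by_cases haj : a = j
      · subst haj; omega
      · have h1 := hM' a hai haj
        by_cases hak : a = k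
        · subst hak; omega
        · have h2 := hL'a a hai haj hak
          have h3 := hb a
          omega
  · intro a ha
    by_cases hai : a = i
    · subst hai; omega
    · by_cases haj : a = j
      · subst haj; omega
      · have h1 := hM' a hai haj
        have h5 := one_le_NN L' M' hF.h1 a
        have h6 := one_le_NN M' L' hF.h2 a
        by_cases hak : a = k
        · subst hak
          have := one_le_NN L M h.h1 a
          omega
        · have h2 := hL'a a hai haj hak
          omega

end Pool.Agent.Q181.GP
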