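import Pool.Agent.Q181.GP.PeelA

set_option autoImplicit false
set_option linter.unusedSectionVars false

/-! The steps for isometries, and the theorem for isometries. -/

namespace Pool.Agent.Q181.GP

open Matrix LatRing

variable {S : Type} [Ring S] [StarRing S] [LatRing S] {m : Type} [Fintype m] [DecidableEq m]

/-- the bounds for one matrix -/
def Bd1 (A : Matrix (m ⊕ m) (m ⊕ m) S) : Prop := ∀ a, NN (A a) + NN (A (sg a)) ≤ 5

/-- the unfinished rows -/
def cn1 (A : Matrix (m ⊕ m) (m ⊕ m) S) : ℕ :=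
  (Finset.univ.filter fun a => NN (A a) + NN (A (sg a)) ≠ 2).card

/-- no unfinished row with a single entry -/
def Nop1 (A : Matrix (m ⊕ m) (m ⊕ m) S) : Prop :=
  ∀ a, NN (A a) + NN (A (sg a)) = 2 ∨ (2 ≤ NN (A a) ∧ 2 ≤ NN (A (sg a)))

/-- one step -/
def StepA (ε : ℤ) (A B : Matrix (m ⊕ m) (m ⊕ m) S) : Prop :=
  ∃ V ∈ RU S m ε, ∃ W ∈ RU S m ε, ∃ A' B' : Matrix (m ⊕ m) (m ⊕ m) S,
    A' = V.val * A * W.val ∧ Uni ε A' B' ∧ Bd1 A' ∧ Bd1 B' ∧ cn1 A' < cn1 A ∧ cn1 B' ≤ cn1 B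

theorem cn1_le {A A' : Matrix (m ⊕ m) (m ⊕ m) S}
    (h : ∀ a, NN (A a) + NN (A (sg a)) = 2 → NN (A' a) + NN (A' (sg a)) = 2) :
    cn1 A' ≤ cn1 A := by
  apply Finset.card_le_card
  intro a ha
  rw [Finset.mem_filter] at ha ⊢
  exact ⟨Finset.mem_univ a, fun h' => ha.2 (h a h')⟩

theorem cn1_lt {A A' : Matrix (m ⊕ m) (m ⊕ m) S}
    (h : ∀ a, NN (A a) + NN (A (sg a)) = 2 → NN (A' a) + NN (A' (sg a)) = 2) (i : m ⊕ m)
    (h1 : NN (A i) + NN (A (sg i)) ≠ 2) (h2 : NN (A' i) + NN (A' (sg i)) = 2) :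
    cn1 A' < cn1 A := by
  apply Finset.card_lt_card
  rw [Finset.ssubset_iff_of_subset]
  · exact ⟨i, by simp [h1], by simp [h2]⟩
  · intro a ha
    rw [Finset.mem_filter] at ha ⊢
    exact ⟨Finset.mem_univ a, fun h' => ha.2 (h a h')⟩

theorem eq_or_sg {a i : m ⊕ m} (h : ¬ (a ≠ i ∧ a ≠ sg i)) : a = i ∨ a = sg i := by
  by_cases h1 : a = i
  · exact Or.inl h1
  · by_cases h2 : a = sg i
    · exact Or.inr h2
    · exact absurd ⟨h1, h2⟩ h

/-- bounds from row estimates -/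
theorem bounds_of {A A' : Matrix (m ⊕ m) (m ⊕ m) S} (hA' : ∀ a, 1 ≤ NN (A' a)) (i : m ⊕ m)
    (hb : Bd1 A) (n1 : NN (A' i) = 1) (n2 : NN (A' (sg i)) = 1)
    (h : ∀ a, a ≠ i → a ≠ sg i → NN (A' a) ≤ NN (A a)) :
    Bd1 A' ∧ ∀ a, NN (A a) + NN (A (sg a)) = 2 → NN (A' a) + NN (A' (sg a)) = 2 := by
  constructor
  · intro a
    by_cases h1 : a ≠ i ∧ a ≠ sg i
    · have h3 := h a h1.1 h1.2
      have h4 := h (sg a) (fun h' => h1.2 (sg_eq_iff.1 h')) (fun h' => h1.1 (sg_inj h'))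
      have h5 := hb a
      omega
    · rcases eq_or_sg h1 with rfl | rfl
      · omega
      · rw [sg_sg]; omega
  · intro a ha
    by_cases h1 : a ≠ i ∧ a ≠ sg i
    · have h3 := h a h1.1 h1.2
      have h4 := h (sg a) (fun h' => h1.2 (sg_eq_iff.1 h')) (fun h' => h1.1 (sg_inj h'))
      have h5 := hA' a
      have h6 := hA' (sg a)
      omega
    · rcases eq_or_sg h1 with rfl | rfl
      · omega
      · rw [sg_sg]; omega

theorem row_le {x y : m ⊕ m → S} (j : m ⊕ m) (h1 : y j = 0) (h2 : y (sg j) = 0)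
    (h : ∀ b, b ≠ j → b ≠ sg j → y b = x b) : NN y = NN x - nm (x j) - nm (x (sg j)) :=
  NN_two x y j (sg j) (Ne.symm (sg_ne j)) h1 h2 h

theorem stepA_one {ε : ℤ} (hε : ε = 1 ∨ ε = -1) {A B : Matrix (m ⊕ m) (m ⊕ m) S}
    (h : Uni ε A B) (hA : Bd1 A) (hB : Bd1 B) (i : m ⊕ m) (hi : NN (A i) = 1)
    (hu : NN (A i) + NN (A (sg i)) ≠ 2) : StepA ε A B := by
  obtain ⟨j, t, ht, hAi⟩ := split1 hi
  obtain ⟨V, hV, A', B', hA', hU, n1, n2, n3, n4, hr, hs⟩ := peelA hε h i j t ht hAi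
  have k1 : ∀ a, a ≠ i → a ≠ sg i → NN (A' a) ≤ NN (A a) := by
    intro a h1 h2
    obtain ⟨r1, r2, r3⟩ := hr a h1 h2
    have e := row_le j r1 r2 r3
    have p1 := nm_nonneg (A a j)
    have p2 := nm_nonneg (A a (sg j))
    omega
  have k2 : ∀ a, a ≠ j → a ≠ sg j → NN (B' a) ≤ NN (B a) := by
    intro a h1 h2
    obtain ⟨r1, r2, r3⟩ := hs a h1 h2
    have e := row_le i r1 r2 r3
    have p1 := nm_nonneg (B a i)
    have p2 := nm_nonneg (B a (sg i))
    omega
  obtain ⟨b1, c1⟩ := bounds_of (fun a => one_le_NN A' B' hU.h1 a) i hA n1 n2 k1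
  obtain ⟨b2, c2⟩ := bounds_of (fun a => one_le_NN B' A' hU.h2 a) j hB n3 n4 k2
  exact ⟨V, hV, 1, one_mem _, A', B', by rw [hA', Units.val_one, mul_one], hU, b1, b2,
    cn1_lt c1 i hu (by omega), cn1_le c2⟩

theorem NN_colrow {ε : ℤ} (hε : ε = 1 ∨ ε = -1) {A B : Matrix (m ⊕ m) (m ⊕ m) S}
    (h : Uni ε A B) (b : m ⊕ m) : NN (B (sg b)) = ∑ a, nm (A a b) := by
  unfold NN
  have e : ∀ a, nm (B (sg b) a) = nm (A (sg a) b) := by
    intro a
    rw [h.inv_apply hε, nm_sn hε, nm_star, sg_sg]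
  rw [Finset.sum_congr rfl fun a _ => e a]
  exact Fintype.sum_equiv ⟨sg, sg, sg_sg, sg_sg⟩ _ _ fun a => rfl

/-- the data of a contraction -/
theorem contraction_dataA {ε : ℤ} (hε : ε = 1 ∨ ε = -1) {A B : Matrix (m ⊕ m) (m ⊕ m) S}
    (h : Uni ε A B) (hB : Bd1 B) (hnB : Nop1 B) (i : m ⊕ m)
    (hi : NN (A i) = 2) :
    ∃ j k u v, j ≠ k ∧ j ≠ sg k ∧ nm u = 1 ∧ nm v = 1 ∧
      A i = Pi.single j u + Pi.single k v ∧ NN (B j) = 3 ∧ NN (B k) = 2 ∧
      NN (B (sg j)) = 2 ∧ IP (Pi.single i 1) (v • B k) = 0 := by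
  obtain ⟨j, k, u, v, hjk, hu, hv, hL⟩ := split2 hi (fun a => B a i) (by
    have := congrFun (congrFun h.h1 i) i
    rwa [Matrix.mul_apply, Matrix.one_apply_eq] at this)
  have hLj : A i j = u := by
    rw [hL, Pi.add_apply, Pi.single_eq_same, Pi.single_eq_of_ne hjk, add_zero]
  have hLk : A i k = v := by
    rw [hL, Pi.add_apply, Pi.single_eq_same, Pi.single_eq_of_ne (Ne.symm hjk), zero_add]
  have hLb : ∀ b, b ≠ j → b ≠ k → A i b = 0 := by
    intro b h1 h2
    rw [hL, Pi.add_apply, Pi.single_eq_of_ne h1, Pi.single_eq_of_ne h2, add_zero]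
  -- the row is isotropic
  have hjsk : j ≠ sg k := by
    intro hcon
    obtain ⟨z, hz⟩ := h.q i
    have hpz : par (z - ε • star z) = 0 := by
      rcases hε with rfl | rfl
      · rw [one_smul, map_sub, par_star, sub_self]
      · rw [neg_smul, one_smul, sub_neg_eq_add, map_add, par_star]
        exact CharTwo.add_self_eq_zero _
    have hpu : ∀ x : S, nm x = 1 → par x = 1 := by
      intro x hx
      rw [← par_ip]
      change ((nm x : ℤ) : ZMod 2) = 1
      rw [hx, Int.cast_one]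
    have hsum : par (∑ a, A i (Sum.inl a) * star (A i (Sum.inr a))) = 1 := by
      rcases k with p | p
      · rw [Finset.sum_eq_single p]
        · have hj' : A i (Sum.inr p) = u := by rw [← hLj, hcon]; rfl
          rw [hLk, hj', map_mul, par_star, hpu u hu, hpu v hv, one_mul]
        · intro b _ hb
          rw [hLb (Sum.inl b) (by rw [hcon]; simp [sg]) (by simpa using hb), zero_mul]
        · intro h; exact absurd (Finset.mem_univ p) h
      · rw [Finset.sum_eq_single p]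
        · have hj' : A i (Sum.inl p) = u := by rw [← hLj, hcon]; rfl
          rw [hLk, hj', map_mul, par_star, hpu u hu, hpu v hv, one_mul]
        · intro b _ hb
          rw [hLb (Sum.inl b) (by rw [hcon]; simpa [sg] using hb) (by simp), zero_mul]
        · intro h; exact absurd (Finset.mem_univ p) h
    rw [hz, hpz] at hsum
    exact zero_ne_one hsum
  -- the rows of the inverse
  have hnb : ∀ p, A i p ≠ 0 → nm (A i p) = 1 → 2 ≤ NN (B p) ∧ NN (B p) ≤ 3 ∧
      2 ≤ NN (B (sg p)) := by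
    intro p hp hp1
    have h5 := hB p
    rcases hnB p with h1 | h1
    · exfalso
      have h2 := one_le_NN B A h.h2 p
      have h3 := one_le_NN B A h.h2 (sg p)
      obtain ⟨q, c, hc, hq⟩ := split1 (x := B p) (by omega)
      -- the row `q` of `A`
      have h7 := row_mul B A h.h2 p
      rw [hq, single_vecMul'] at h7
      have h8 : NN (A q) = 1 := by rw [← NN_smul c hc, h7, NN_single, nm_one]
      have hqi : q ≠ i := by rintro rfl; omega
      have h9 : nm (A q p) = 1 := by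
        have := congrFun h7 p
        rw [Pi.smul_apply, Pi.single_eq_same, smul_eq_mul] at this
        rw [← nm_mul_left c hc, this, nm_one]
      have h10 := NN_colrow hε h p
      have h11 : nm (A q p) + nm (A i p) ≤ ∑ a, nm (A a p) := by
        have := Finset.sum_le_sum_of_subset_of_nonneg
          (Finset.subset_univ ({q, i} : Finset (m ⊕ m))) (f := fun a => nm (A a p))
          (fun a _ _ => nm_nonneg _)
        rwa [Finset.sum_pair hqi] at this
      omega
    · omega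
  have hne : ∀ x : S, nm x = 1 → x ≠ 0 := by
    rintro x hx rfl
    rw [nm_zero] at hx; omega
  have hj := hnb j (by rw [hLj]; exact hne u hu) (by rw [hLj]; exact hu)
  have hk := hnb k (by rw [hLk]; exact hne v hv) (by rw [hLk]; exact hv)
  have hrow := row_two A B h.h1 i j k u v hL
  have hr1 := NN_rel B i j k u v hu hv hrow
  have hrow' : v • B k + u • B j = Pi.single i 1 := by rw [← hrow, add_comm]
  have hr2 := NN_rel B i k j v u hv hu hrow'
  have a1 := abs_IP_le (Pi.single i (1 : S)) (v • B k) (by rw [NN_single, nm_one])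
    (by rw [NN_smul v hv]; omega)
  have a2 := abs_IP_le (Pi.single i (1 : S)) (u • B j) (by rw [NN_single, nm_one])
    (by rw [NN_smul u hu]; omega)
  have b1 := hB j
  have b2 := hB k
  have hcase : (NN (B j) = 3 ∧ NN (B k) = 2) ∨ (NN (B k) = 3 ∧ NN (B j) = 2) := by omega
  rcases hcase with hc | hc
  · exact ⟨j, k, u, v, hjk, hjsk, hu, hv, hL, hc.1, hc.2, by omega, by omega⟩
  · exact ⟨k, j, v, u, Ne.symm hjk, fun h => hjsk (sg_eq_iff.1 h.symm), hv, hu,
      by rw [hL, add_comm], hc.1, hc.2, by omega, by omega⟩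

end Pool.Agent.Q181.GP
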